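import Mathlib
import Pool.Agent.R351.GD.P.AH

/-!
# Windows for arbitrary families chosen one after the other

In the window number `j` the values `val j (θ j g) (g j i)` of a family (of a type which may depend on `j`) are considered.
The parameter `θ j g`, the size `H j g` of the window and some further constants `e j g` may depend on the choices `g i`,
`i < j`, in the windows before.
-/

set_option autoImplicit false

namespace Pool.Agent.Run7.h643.MX

open Module Pool.Agent.Y916.Om Pool.Agent.R351.GD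

theorem tdeg {R : Type} [CommRing R] {κ ι : Type} (P : MvPolynomial κ R) (φ : κ → MvPolynomial ι R)
    (hφ : ∀ i, (φ i).totalDegree ≤ 1) : (MvPolynomial.aeval φ P).totalDegree ≤ P.totalDegree := by
  rw [MvPolynomial.aeval_def, MvPolynomial.eval₂_eq]
  refine MvPolynomial.totalDegree_finsetSum_le fun s hs => ?_
  rw [MvPolynomial.algebraMap_eq]
  refine (MvPolynomial.totalDegree_mul _ _).trans ?_
  rw [MvPolynomial.totalDegree_C, zero_add]
  refine (MvPolynomial.totalDegree_finsetProd _ _).trans ?_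
  refine le_trans (Finset.sum_le_sum fun i _ => (MvPolynomial.totalDegree_pow _ _).trans
    (Nat.mul_le_mul_left _ (hφ i))) ?_
  simp only [mul_one]
  exact MvPolynomial.le_totalDegree hs

variable {Ω : Type} [Field Ω] [CharZero Ω]

theorem eval_aeval {υ κ : Type} {K : IntermediateField ℚ Ω} (c : υ → Ω) (y : κ → Ω) (P : MvPolynomial (υ ⊕ κ) K) :
    MvPolynomial.eval y (MvPolynomial.aeval (Sum.elim (fun j => MvPolynomial.C (c j)) MvPolynomial.X) P :
      MvPolynomial κ Ω) = MvPolynomial.aeval (Sum.elim c y) P := by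
  have h3 : ((MvPolynomial.aeval y : MvPolynomial κ Ω →ₐ[Ω] Ω).restrictScalars K).comp
      (MvPolynomial.aeval (Sum.elim (fun j => MvPolynomial.C (c j)) MvPolynomial.X) :
        MvPolynomial (υ ⊕ κ) K →ₐ[K] MvPolynomial κ Ω) = MvPolynomial.aeval (Sum.elim c y) := by
    refine MvPolynomial.algHom_ext fun i => ?_
    rw [AlgHom.comp_apply, MvPolynomial.aeval_X, MvPolynomial.aeval_X, AlgHom.restrictScalars_apply]
    rcases i with j | j
    · rw [Sum.elim_inl, Sum.elim_inl, MvPolynomial.aeval_C]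
      rfl
    · rw [Sum.elim_inr, Sum.elim_inr, MvPolynomial.aeval_X]
  rw [← h3, AlgHom.comp_apply, AlgHom.restrictScalars_apply]
  rfl

/-- the constants for the window number `j` -/
def wM {υ : Type} {s : ℕ} {ρ κ : Fin s → Type} (w : υ → Ω) (v : ∀ j, ρ j → Ω) (j : Fin s) (e : κ j → Ω) :
    (υ ⊕ (Σ j, ρ j)) ⊕ κ j → Ω :=
  Sum.elim (Sum.elim w fun q => if q.1 < j then v q.1 q.2 else 0) e

/-- the step from one window to the next -/
theorem stepM {υ : Type} [Fintype υ] {s δ : ℕ} {ρ κ : Fin s → Type} (w : υ → Ω) (v : ∀ j, ρ j → Ω)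
    (e : ∀ j, κ j → Ω) (K : IntermediateField ℚ Ω) (x : ∀ j, ρ j → Ω)
    (hx : ∀ j p, ∃ a : K, x j p - a * v j p ∈ Submodule.span K (insert 1 (Set.range w)))
    (P : MvPolynomial (υ ⊕ (Σ j, ρ j)) K) (hPd : P.totalDegree ≤ δ)
    (hwin : ∀ (j : Fin s) (Q : MvPolynomial (((υ ⊕ (Σ j, ρ j)) ⊕ κ j) ⊕ ρ j) K), Q.totalDegree ≤ δ →
      MvPolynomial.aeval (Sum.elim (wM w v j (e j)) (x j)) Q = 0 →
      MvPolynomial.aeval (Sum.elim (fun o => MvPolynomial.C (wM w v j (e j) o)) MvPolynomial.X) Q
        = (0 : MvPolynomial (ρ j) Ω))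
    (hP0 : MvPolynomial.aeval (Sum.elim w fun q : (Σ j, ρ j) => x q.1 q.2) P = 0) :
    MvPolynomial.aeval (Sum.elim (fun a => MvPolynomial.C (w a)) MvPolynomial.X) P =
      (0 : MvPolynomial (Σ j, ρ j) Ω) := by
  classical
  -- coefficients
  have hx' : ∀ q : (Σ j, ρ j), ∃ (a b : K) (c : υ → K), x q.1 q.2 = a * v q.1 q.2 + (b + ∑ k, (c k : Ω) * w k) := by
    intro q
    obtain ⟨a, ha⟩ := hx q.1 q.2
    obtain ⟨b, z, hz, hbz⟩ := Submodule.mem_span_insert.1 ha
    obtain ⟨c, hc⟩ := (Submodule.mem_span_range_iff_exists_fun K).1 hz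
    refine ⟨a, b, c, ?_⟩
    have h1 : x q.1 q.2 = a * v q.1 q.2 + (x q.1 q.2 - a * v q.1 q.2) := by ring
    rw [h1, hbz, ← hc]
    simp only [Algebra.smul_def, mul_one]
    rfl
  choose a b c hx' using hx'
  set G : ℕ → MvPolynomial (Σ j, ρ j) Ω := fun j => MvPolynomial.aeval
    (Sum.elim (fun a => MvPolynomial.C (w a)) fun q : (Σ j, ρ j) => if (q.1 : ℕ) < j then
      MvPolynomial.C (x q.1 q.2) else MvPolynomial.X q) P with hG
  have hev : ∀ (j : ℕ) (y : (Σ j, ρ j) → Ω), MvPolynomial.eval y (G j) =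
      MvPolynomial.aeval (Sum.elim w fun q : (Σ j, ρ j) => if (q.1 : ℕ) < j then x q.1 q.2 else y q) P := by
    intro j y
    rw [hG]
    simp only
    have h1 : (MvPolynomial.eval y : MvPolynomial (Σ j, ρ j) Ω →+* Ω) =
        (MvPolynomial.aeval y : MvPolynomial (Σ j, ρ j) Ω →ₐ[Ω] Ω).toRingHom := by
      ext <;> simp
    rw [h1]
    show (MvPolynomial.aeval y : MvPolynomial (Σ j, ρ j) Ω →ₐ[Ω] Ω) _ = _
    rw [← AlgHom.restrictScalars_apply K (MvPolynomial.aeval y : MvPolynomial (Σ j, ρ j) Ω →ₐ[Ω] Ω),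
      ← AlgHom.comp_apply, MvPolynomial.comp_aeval]
    congr 2
    funext i
    rcases i with a | i
    · simp
    · simp only [Sum.elim_inr]
      split_ifs <;> simp
  have hstep : ∀ j, j < s → G (j + 1) = 0 → G j = 0 := by
    intro j hj h0
    by_contra hne
    obtain ⟨y, hy⟩ : ∃ y : (Σ j, ρ j) → ℚ, MvPolynomial.eval (fun i => ((y i : ℚ) : Ω)) (G j) ≠ 0 := by
      by_contra hcon
      push Not at hcon
      apply hne
      have hinf : ∀ _i : (Σ j, ρ j), (Set.range (fun a : ℚ => (a : Ω))).Infinite := fun _ =>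
        Set.infinite_range_of_injective Rat.cast_injective
      refine MvPolynomial.funext_set (s := fun _ => Set.range (fun a : ℚ => (a : Ω))) ?_ ?_
      · exact hinf
      · intro z hz
        choose y hy using fun i => hz i (Set.mem_univ i)
        rw [map_zero, ← hcon y]
        congr 1
        congr 1
        funext i
        exact (hy i).symm
    set jj : Fin s := ⟨j, hj⟩ with hjj
    set φ : υ ⊕ (Σ j, ρ j) → MvPolynomial (((υ ⊕ (Σ j, ρ j)) ⊕ κ jj) ⊕ ρ jj) K :=
      Sum.elim (fun a => MvPolynomial.X (Sum.inl (Sum.inl (Sum.inl a)))) fun q : (Σ j, ρ j) =>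
        if q.1 < jj then MvPolynomial.C (a q) * MvPolynomial.X (Sum.inl (Sum.inl (Sum.inr q))) +
          (MvPolynomial.C (b q) + ∑ k, MvPolynomial.C (c q k) * MvPolynomial.X (Sum.inl (Sum.inl (Sum.inl k))))
        else if h : q.1 = jj then MvPolynomial.X (Sum.inr (h ▸ q.2)) else MvPolynomial.C ((y q : ℚ) : K) with hφ
    have hφd : ∀ i, (φ i).totalDegree ≤ 1 := by
      intro i
      have hCX : ∀ (z : K) (i : ((υ ⊕ (Σ j, ρ j)) ⊕ κ jj) ⊕ ρ jj),
          (MvPolynomial.C z * MvPolynomial.X i : MvPolynomial (((υ ⊕ (Σ j, ρ j)) ⊕ κ jj) ⊕ ρ jj) K).totalDegree ≤ 1 := by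
        intro z i
        refine (MvPolynomial.totalDegree_mul _ _).trans ?_
        rw [MvPolynomial.totalDegree_C, zero_add]
        exact (MvPolynomial.totalDegree_X _).le
      rcases i with a | i
      · rw [hφ]
        simp only [Sum.elim_inl]
        exact (MvPolynomial.totalDegree_X _).le
      · rw [hφ]
        simp only [Sum.elim_inr]
        split_ifs
        · refine (MvPolynomial.totalDegree_add _ _).trans (max_le (hCX _ _) ?_)
          refine (MvPolynomial.totalDegree_add _ _).trans (max_le ?_ ?_)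
          · rw [MvPolynomial.totalDegree_C]; omega
          · exact MvPolynomial.totalDegree_finsetSum_le fun k _ => hCX _ _
        · exact (MvPolynomial.totalDegree_X _).le
        · rw [MvPolynomial.totalDegree_C]; omega
    have hval : ∀ z : ρ jj → Ω, MvPolynomial.aeval (Sum.elim (wM w v jj (e jj)) z) (MvPolynomial.aeval φ P) =
        MvPolynomial.aeval (Sum.elim w fun q : (Σ j, ρ j) => if q.1 < jj then x q.1 q.2 else
          if h : q.1 = jj then z (h ▸ q.2) else ((y q : ℚ) : Ω)) P := by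
      intro z
      rw [← AlgHom.comp_apply, MvPolynomial.comp_aeval]
      congr 2
      funext i
      rcases i with i | i
      · simp [hφ, wM]
      · simp only [hφ, Sum.elim_inr]
        split_ifs with h1 h2
        · rw [hx' i]
          simp only [map_add, map_mul, map_sum, MvPolynomial.aeval_X, MvPolynomial.aeval_C]
          simp [wM, h1]
        · rw [MvPolynomial.aeval_X]
          rfl
        · rw [MvPolynomial.aeval_C]
          simp
    have h1 := hwin jj (MvPolynomial.aeval φ P) ((tdeg P φ hφd).trans hPd) (by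
      rw [hval]
      have h1 := hev (j + 1) (fun i => ((y i : ℚ) : Ω))
      rw [h0, map_zero] at h1
      rw [h1]
      congr 2
      funext i
      rcases i with i | ⟨i, p⟩
      · rfl
      · simp only [Sum.elim_inr]
        by_cases h2 : i < jj
        · have h2' : (i : ℕ) < j := h2
          rw [if_pos h2, if_pos (by omega)]
        · rw [if_neg h2]
          have h2' : ¬ (i : ℕ) < j := h2
          by_cases h3 : i = jj
          · subst h3
            rw [dif_pos rfl, if_pos (by show j < j + 1; omega)]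
          · have h3' : (i : ℕ) ≠ j := fun h => h3 (Fin.ext h)
            rw [dif_neg h3, if_neg (by omega)])
    apply hy
    have h2 := congrArg (MvPolynomial.eval fun p : ρ jj => ((y ⟨jj, p⟩ : ℚ) : Ω)) h1
    rw [map_zero, eval_aeval, hval] at h2
    rw [hev, ← h2]
    congr 2
    funext i
    rcases i with i | ⟨i, p⟩
    · rfl
    · simp only [Sum.elim_inr]
      by_cases h5 : i < jj
      · have h5' : (i : ℕ) < j := h5
        rw [if_pos h5', if_pos h5]
      · have h5' : ¬ (i : ℕ) < j := h5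
        rw [if_neg h5', if_neg h5]
        by_cases h6 : i = jj
        · subst h6
          rw [dif_pos rfl]
        · rw [dif_neg h6]
  have hGt : G s = 0 := by
    apply MvPolynomial.funext
    intro z
    rw [hev, map_zero, ← hP0]
    congr 2
    funext i
    rcases i with i | i
    · rfl
    · simp only [Sum.elim_inr]
      rw [if_pos i.1.2]
  have hall : ∀ k, k ≤ s → G (s - k) = 0 := by
    intro k
    induction k with
    | zero => intro _; exact hGt
    | succ k ih =>
      intro hs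
      apply hstep _ (by omega)
      have : s - (k + 1) + 1 = s - k := by omega
      rw [this]
      exact ih (by omega)
  have h0 := hall s le_rfl
  rw [Nat.sub_self] at h0
  rw [← h0, hG]
  simp only [not_lt_zero, if_false]

/-- the choices -/
abbrev Ch {s : ℕ} (r : Fin s → ℕ) : Type := ∀ i : Fin s, Fin (r i) → ℕ

/-- **Windows for arbitrary families chosen one after the other** -/
theorem mix (s : ℕ) (r : Fin s → ℕ) (σ : Fin s → Type) [∀ j, Fintype (σ j)] [∀ j, DecidableEq (σ j)]
    (κ : Fin s → Type) [∀ j, Fintype (κ j)] (Ev : Fin s → ℕ → ℕ → ℕ) (hEv : ∀ j N, PB (Ev j N)) (τ A B : ℕ) :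
    ∃ E : ℕ → ℕ, PB E ∧ ∀ (δ : ℕ) (Ω : Type) [Field Ω] [CharZero Ω] (I : Fin s → Type) (size : ∀ j, I j → ℕ)
    (val : ∀ j, I j → ℕ → σ j → Ω), (∀ j, Inp (Ev j) (size j) (val j)) →
    ∀ (υ : Type) [Fintype υ] (w : υ → Ω) (T : Finset υ), T.card = τ → Dom A B w T →
    ∀ (H : Fin s → Ch r → ℕ) (θ : ∀ j, Ch r → I j) (e : ∀ j, Ch r → κ j → Ω)
      (v : ∀ j, Ch r → Fin (r j) × σ j → Ω),
    (∀ j g g', (∀ i, i < j → g i = g' i) → H j g = H j g' ∧ θ j g = θ j g' ∧ e j g = e j g') →
    (∀ j g g', (∀ i, i ≤ j → g i = g' i) → v j g = v j g') →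
    ∃ S : Fin s → Ch r → Finset ℕ,
      (∀ j g, (S j g).card ≤ τ + ∑ i ∈ Finset.Iio j, r i * Fintype.card (σ i) + Fintype.card (κ j)) ∧
      (∀ j g g', (∀ i, i < j → g i = g' i) → S j g = S j g') ∧
      ∀ g : Ch r, (∀ j, (H j g + 2) ^ E δ ≤ size j (θ j g)) → (∀ j, Function.Injective (g j)) →
      (∀ j i, 1 ≤ g j i ∧ g j i ≤ H j g ∧ g j i ∉ S j g) →
      ∀ K : IntermediateField ℚ Ω, FiniteDimensional ℚ K → finrank ℚ K ≤ δ →
      (∀ j p, ∃ a : K, a ≠ 0 ∧ v j g p - a * val j (θ j g) (g j p.1) p.2 ∈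
        Submodule.span K (insert 1 (Set.range (Sum.elim w (e j g))))) →
      ∀ x : ∀ j, Fin (r j) × σ j → Ω,
      (∀ j p, ∃ a : K, a ≠ 0 ∧ x j p - a * v j g p ∈ Submodule.span K (insert 1 (Set.range w))) →
      ∀ P : MvPolynomial (υ ⊕ (Σ j, Fin (r j) × σ j)) K, P.totalDegree ≤ δ →
      MvPolynomial.aeval (Sum.elim w fun q : (Σ j, Fin (r j) × σ j) => x q.1 q.2) P = 0 →
      MvPolynomial.aeval (Sum.elim (fun j => MvPolynomial.C (w j)) MvPolynomial.X) P
        = (0 : MvPolynomial (Σ j, Fin (r j) × σ j) Ω) := by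
  classical
  choose E hEp hE using fun j : Fin s => awh_exp (Ev j) (hEv j) (σ := σ j) (r j)
    (τ + ∑ i ∈ Finset.Iio j, r i * Fintype.card (σ i) + Fintype.card (κ j)) A B
  refine ⟨fun δ => ∑ j, E j δ, PB.sum _ fun j _ => hEp j, ?_⟩
  intro δ Ω _ _ I size val hval υ _ w T hTτ hAB H θ e v hdep hdepv
  set TT : ∀ j : Fin s, Finset ((υ ⊕ (Σ j, Fin (r j) × σ j)) ⊕ κ j) := fun j =>
    (T.disjSum ((Finset.Iio j).sigma fun i => (Finset.univ : Finset (Fin (r i) × σ i)))).disjSum Finset.univ with hTT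
  have hTTc : ∀ j, (TT j).card = τ + ∑ i ∈ Finset.Iio j, r i * Fintype.card (σ i) + Fintype.card (κ j) := by
    intro j
    rw [hTT]
    simp only
    rw [Finset.card_disjSum, Finset.card_disjSum, Finset.card_sigma, Finset.card_univ, hTτ]
    congr 2
    refine Finset.sum_congr rfl fun i _ => ?_
    rw [Finset.card_univ, Fintype.card_prod, Fintype.card_fin]
  have hdom : ∀ (j : Fin s) (v : ∀ j, Fin (r j) × σ j → Ω) (e : κ j → Ω), Dom A B (wM w v j e) (TT j) := by
    intro j v e K W hW h1 hT Δ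
    have h2 : W ⊔ Submodule.span K (Set.range (wM w v j e)) = W ⊔ Submodule.span K (Set.range w) := by
      apply le_antisymm
      · refine sup_le le_sup_left (Submodule.span_le.2 ?_)
        rintro _ ⟨(k | q) | k, rfl⟩
        · exact Submodule.mem_sup_right (Submodule.subset_span ⟨k, rfl⟩)
        · by_cases hq : q.1 < j
          · exact Submodule.mem_sup_left (hT (Sum.inl (Sum.inr q)) (by simp [hTT, hq]))
          · have h3 : wM w v j e (Sum.inl (Sum.inr q)) = 0 := by simp [wM, hq]
            rw [h3]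
            exact Submodule.zero_mem _
        · exact Submodule.mem_sup_left (hT (Sum.inr k) (by simp [hTT]))
      · refine sup_le le_sup_left (Submodule.span_le.2 ?_)
        rintro _ ⟨k, rfl⟩
        exact Submodule.mem_sup_right (Submodule.subset_span ⟨Sum.inl (Sum.inl k), rfl⟩)
    rw [h2]
    exact hAB K W hW h1 (fun k hk => hT (Sum.inl (Sum.inl k)) (by simp [hTT, hk])) Δ
  have h1 : ∀ (j : Fin s) (θ' : I j) (H' : ℕ) (u : (υ ⊕ (Σ j, Fin (r j) × σ j)) ⊕ κ j → Ω),
      ∃ S : Finset ℕ, S.card ≤ τ + ∑ i ∈ Finset.Iio j, r i * Fintype.card (σ i) + Fintype.card (κ j) ∧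
        (((H' + 2) ^ E j δ ≤ size j θ' ∧ Dom A B u (TT j)) →
        ∀ g : Fin (r j) → ℕ, Function.Injective g → (∀ i, 1 ≤ g i ∧ g i ≤ H' ∧ g i ∉ S) →
        ∀ K : IntermediateField ℚ Ω, FiniteDimensional ℚ K → finrank ℚ K ≤ δ →
        ∀ x : Fin (r j) × σ j → Ω, (∀ p, ∃ a : K, a ≠ 0 ∧
          x p - a * val j θ' (g p.1) p.2 ∈ Submodule.span K (insert 1 (Set.range u))) →
        ∀ P : MvPolynomial (((υ ⊕ (Σ j, Fin (r j) × σ j)) ⊕ κ j) ⊕ Fin (r j) × σ j) K, P.totalDegree ≤ δ →
          MvPolynomial.aeval (Sum.elim u x) P = 0 →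
          MvPolynomial.aeval (Sum.elim (fun j => MvPolynomial.C (u j)) MvPolynomial.X) P
            = (0 : MvPolynomial (Fin (r j) × σ j) Ω)) := by
    intro j θ' H' u
    by_cases hcond : (H' + 2) ^ E j δ ≤ size j θ' ∧ Dom A B u (TT j)
    · obtain ⟨S, hS, h⟩ := hE j δ Ω (I j) (size j) (val j) (hval j) H' θ' hcond.1 _ u (TT j) (hTTc j) hcond.2
      exact ⟨S, hS, fun _ => h⟩
    · exact ⟨∅, by simp, fun h => absurd h hcond⟩
  choose S hS1 hS2 using h1
  refine ⟨fun j g => S j (θ j g) (H j g) (wM w (fun i => v i g) j (e j g)), fun j g => hS1 j _ _ _,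
    fun j g g' h => ?_, ?_⟩
  · have h2 : wM w (fun i => v i g) j (e j g) = wM w (fun i => v i g') j (e j g') := by
      unfold wM
      rw [(hdep j g g' h).2.2]
      congr 1
      congr 1
      funext q
      by_cases hq : q.1 < j
      · rw [if_pos hq, if_pos hq]
        show v q.1 g q.2 = v q.1 g' q.2
        rw [hdepv q.1 g g' fun i hi => h i (hi.trans_lt hq)]
      · rw [if_neg hq, if_neg hq]
    show S j (θ j g) (H j g) _ = S j (θ j g') (H j g') _
    rw [h2, (hdep j g g' h).1, (hdep j g g' h).2.1]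
  · intro g hg hinj hgS K hK hKd hv x hx P hPd hP0
    refine stepM w (fun i => v i g) (fun j => e j g) K x (fun j p => ?_) P hPd (fun j Q hQd hQ0 => ?_) hP0
    · obtain ⟨a, -, ha⟩ := hx j p
      exact ⟨a, ha⟩
    · refine hS2 j (θ j g) (H j g) (wM w (fun i => v i g) j (e j g)) ⟨?_, hdom j _ _⟩ (g j) (hinj j)
        (fun i => hgS j i) K hK hKd (x j) (fun p => ?_) Q hQd hQ0
      · exact (Nat.pow_le_pow_right (by omega)
          (Finset.single_le_sum (f := fun j => E j δ) (fun i _ => Nat.zero_le _) (Finset.mem_univ j))).trans (hg j)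
      · obtain ⟨a, ha0, ha⟩ := hv j p
        obtain ⟨b, hb0, hb⟩ := hx j p
        refine ⟨b * a, mul_ne_zero hb0 ha0, ?_⟩
        have hsub1 : Submodule.span K (insert 1 (Set.range (Sum.elim w (e j g)))) ≤
            Submodule.span K (insert 1 (Set.range (wM w (fun i => v i g) j (e j g)))) := by
          refine Submodule.span_mono (Set.insert_subset_insert ?_)
          rintro _ ⟨k | k, rfl⟩
          · exact ⟨Sum.inl (Sum.inl k), rfl⟩
          · exact ⟨Sum.inr k, rfl⟩
        have hsub2 : Submodule.span K (insert 1 (Set.range w)) ≤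
            Submodule.span K (insert 1 (Set.range (wM w (fun i => v i g) j (e j g)))) := by
          refine Submodule.span_mono (Set.insert_subset_insert ?_)
          rintro _ ⟨k, rfl⟩
          exact ⟨Sum.inl (Sum.inl k), rfl⟩
        have h3 : x j p - ((b * a : K) : Ω) * val j (θ j g) (g j p.1) p.2 = (x j p - b * v j g p) +
            b • (v j g p - a * val j (θ j g) (g j p.1) p.2) := by
          rw [Algebra.smul_def]
          have : (algebraMap K Ω b) = (b : Ω) := rfl
          rw [this]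
          push_cast
          ring
        rw [h3]
        exact Submodule.add_mem _ (hsub2 hb) (Submodule.smul_mem _ _ (hsub1 ha))

end Pool.Agent.Run7.h643.MX
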