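import Mathlib
import Pool.Agent.R351.GD.Multi

/-!
# Logarithms of algebraic numbers in windows around several centres

The `j`-th window consists of the numbers `ξ j + β`, with `β` of bounded degree and small height.  The exceptional
numbers of the `j`-th window depend only on the numbers chosen in the windows before.
-/

set_option autoImplicit false

namespace Pool.Agent.Run7.h643.MW

open Module Finset Pool.Agent.Y916.Al Pool.Agent.Y916.Om Pool.Agent.R351.SU Pool.Agent.R351.GD

/-- the constants for the window number `j` -/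
noncomputable def cW {t q r : ℕ} (ξ : Fin t → ℂ) (w : Fin q → ℂ) (β : Fin t → Fin r → ℂ) (j : Fin t) :
    (Fin q ⊕ (Fin t × Fin r)) ⊕ Bool → ℂ :=
  cs (ξ j) (Sum.elim w fun p => if p.1 < j then Complex.log (ξ p.1 + β p.1 p.2) else 0)

/-- the indices of the constants which are not zero -/
def TW {t : ℕ} (q r : ℕ) (j : Fin t) : Finset ((Fin q ⊕ (Fin t × Fin r)) ⊕ Bool) :=
  ((univ : Finset (Fin q)).disjSum (Finset.Iio j ×ˢ (univ : Finset (Fin r)))).disjSum univ

theorem TW_card {t : ℕ} (q r : ℕ) (j : Fin t) : (TW q r j).card = q + r * j + 2 := by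
  rw [TW, card_disjSum, card_disjSum, card_product, card_univ, card_univ, card_univ, Fintype.card_fin,
    Fintype.card_fin, Fin.card_Iio, Fintype.card_bool, mul_comm]

theorem dom_of_zero {υ : Type} (v : υ → ℂ) (T : Finset υ) (h : ∀ i, i ∉ T → v i = 0) : Dom 1 1 v T := by
  intro K W hW h1 hT Δ
  have h2 : W ⊔ Submodule.span K (Set.range v) = W :=
    sup_eq_left.2 (Submodule.span_le.2 (by
      rintro _ ⟨j, rfl⟩
      by_cases hj : j ∈ T
      · exact hT j hj
      · rw [h j hj]; exact W.zero_mem))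
  rw [h2, one_mul, one_mul]

theorem dom_cW {t q r : ℕ} (ξ : Fin t → ℂ) (w : Fin q → ℂ) (β : Fin t → Fin r → ℂ) (j : Fin t) :
    Dom 1 1 (cW ξ w β j) (TW q r j) := by
  refine dom_of_zero _ _ fun i hi => ?_
  rcases i with (a | p) | b
  · exact absurd (by simp [TW]) hi
  · have h1 : ¬ p.1 < j := by
      intro h2
      exact hi (by simp [TW, h2])
    show (if p.1 < j then Complex.log (ξ p.1 + β p.1 p.2) else 0) = 0
    rw [if_neg h1]
  · exact absurd (by simp [TW]) hi

theorem cW_congr {t q r : ℕ} (ξ ξ' : Fin t → ℂ) (w : Fin q → ℂ) (β β' : Fin t → Fin r → ℂ) (j : Fin t)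
    (hξ : ∀ i, i ≤ j → ξ i = ξ' i) (h : ∀ i, i < j → β i = β' i) : cW ξ w β j = cW ξ' w β' j := by
  unfold cW
  rw [hξ j le_rfl]
  congr 1
  congr 1
  funext p
  by_cases hp : p.1 < j
  · rw [if_pos hp, if_pos hp, h p.1 hp, hξ p.1 hp.le]
  · rw [if_neg hp, if_neg hp]

/-- the step from one window to the next -/
theorem step {t q r δ : ℕ} (ξ : Fin t → ℂ) (w : Fin q → ℂ) (β : Fin t → Fin r → ℂ)
    (x : Fin t → Fin r → ℂ) (hx : ∀ j i, Complex.exp (x j i) = ξ j + β j i)
    (K : IntermediateField ℚ ℂ) (P : MvPolynomial (Fin q ⊕ (Fin t × Fin r)) K) (hPd : P.totalDegree ≤ δ)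
    (hwin : ∀ (j : Fin t) (Q : MvPolynomial (((Fin q ⊕ (Fin t × Fin r)) ⊕ Bool) ⊕ Fin r) K), Q.totalDegree ≤ δ →
      MvPolynomial.aeval (Sum.elim (cW ξ w β j) (x j)) Q = 0 →
      MvPolynomial.aeval (Sum.elim (fun o => MvPolynomial.C (cW ξ w β j o)) MvPolynomial.X) Q
        = (0 : MvPolynomial (Fin r) ℂ))
    (hP0 : MvPolynomial.aeval (Sum.elim w fun p => x p.1 p.2) P = 0) :
    MvPolynomial.aeval (Sum.elim (fun a => MvPolynomial.C (w a)) MvPolynomial.X) P =
      (0 : MvPolynomial (Fin t × Fin r) ℂ) := by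
  classical
  -- the branches
  have hn : ∀ p : Fin t × Fin r, ∃ n : ℤ, x p.1 p.2 = Complex.log (ξ p.1 + β p.1 p.2) +
      n * (2 * Real.pi * Complex.I) := by
    intro p
    have h0 : ξ p.1 + β p.1 p.2 ≠ 0 := by rw [← hx]; exact Complex.exp_ne_zero _
    have h1 : Complex.exp (x p.1 p.2) = Complex.exp (Complex.log (ξ p.1 + β p.1 p.2)) := by
      rw [hx, Complex.exp_log h0]
    exact Complex.exp_eq_exp_iff_exists_int.1 h1
  choose n hn using hn
  set G : ℕ → MvPolynomial (Fin t × Fin r) ℂ := fun j => MvPolynomial.aeval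
    (Sum.elim (fun a => MvPolynomial.C (w a)) fun p : Fin t × Fin r => if (p.1 : ℕ) < j then
      MvPolynomial.C (x p.1 p.2) else MvPolynomial.X p) P with hG
  have hev : ∀ (j : ℕ) (y : Fin t × Fin r → ℂ), MvPolynomial.eval y (G j) =
      MvPolynomial.aeval (Sum.elim w fun p : Fin t × Fin r => if (p.1 : ℕ) < j then x p.1 p.2 else y p) P := by
    intro j y
    rw [hG]
    simp only
    have h1 : (MvPolynomial.eval y : MvPolynomial (Fin t × Fin r) ℂ →+* ℂ) =
        (MvPolynomial.aeval y : MvPolynomial (Fin t × Fin r) ℂ →ₐ[ℂ] ℂ).toRingHom := by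
      ext <;> simp
    rw [h1]
    show (MvPolynomial.aeval y : MvPolynomial (Fin t × Fin r) ℂ →ₐ[ℂ] ℂ) _ = _
    rw [← AlgHom.restrictScalars_apply K (MvPolynomial.aeval y : MvPolynomial (Fin t × Fin r) ℂ →ₐ[ℂ] ℂ),
      ← AlgHom.comp_apply, MvPolynomial.comp_aeval]
    congr 2
    funext i
    rcases i with a | i
    · simp
    · simp only [Sum.elim_inr]
      split_ifs <;> simp
  have hstep : ∀ j, j < t → G (j + 1) = 0 → G j = 0 := by
    intro j hj h0
    by_contra hne
    -- rational values of the variables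
    obtain ⟨y, hy⟩ : ∃ y : Fin t × Fin r → ℚ, MvPolynomial.eval (fun i => ((y i : ℚ) : ℂ)) (G j) ≠ 0 := by
      by_contra hcon
      push Not at hcon
      apply hne
      have hinf : ∀ _i : Fin t × Fin r, (Set.range (fun a : ℚ => (a : ℂ))).Infinite := fun _ =>
        Set.infinite_range_of_injective Rat.cast_injective
      refine MvPolynomial.funext_set (s := fun _ => Set.range (fun a : ℚ => (a : ℂ))) ?_ ?_
      · exact hinf
      · intro z hz
        choose y hy using fun i => hz i (Set.mem_univ i)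
        rw [map_zero, ← hcon y]
        congr 1
        congr 1
        funext i
        exact (hy i).symm
    set jj : Fin t := ⟨j, hj⟩ with hjj
    set φ : Fin q ⊕ (Fin t × Fin r) → MvPolynomial (((Fin q ⊕ (Fin t × Fin r)) ⊕ Bool) ⊕ Fin r) K :=
      Sum.elim (fun a => MvPolynomial.X (Sum.inl (Sum.inl (Sum.inl a)))) fun p : Fin t × Fin r =>
        if (p.1 : ℕ) < j then MvPolynomial.X (Sum.inl (Sum.inl (Sum.inr p))) +
          MvPolynomial.C ((n p : ℤ) : K) * MvPolynomial.X (Sum.inl (Sum.inr true))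
        else if (p.1 : ℕ) = j then MvPolynomial.X (Sum.inr p.2) else MvPolynomial.C ((y p : ℚ) : K) with hφ
    have hφd : ∀ i, (φ i).totalDegree ≤ 1 := by
      intro i
      rcases i with a | i
      · rw [hφ]
        simp only [Sum.elim_inl]
        exact (MvPolynomial.totalDegree_X _).le
      · rw [hφ]
        simp only [Sum.elim_inr]
        split_ifs
        · refine (MvPolynomial.totalDegree_add _ _).trans (max_le (MvPolynomial.totalDegree_X _).le ?_)
          refine (MvPolynomial.totalDegree_mul _ _).trans ?_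
          rw [MvPolynomial.totalDegree_C, zero_add]
          exact (MvPolynomial.totalDegree_X _).le
        · exact (MvPolynomial.totalDegree_X _).le
        · rw [MvPolynomial.totalDegree_C]; omega
    have hval : ∀ z : Fin r → ℂ, MvPolynomial.aeval (Sum.elim (cW ξ w β jj) z) (MvPolynomial.aeval φ P) =
        MvPolynomial.aeval (Sum.elim w fun p : Fin t × Fin r => if (p.1 : ℕ) < j then x p.1 p.2 else
          if (p.1 : ℕ) = j then z p.2 else ((y p : ℚ) : ℂ)) P := by
      intro z
      rw [← AlgHom.comp_apply, MvPolynomial.comp_aeval]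
      congr 2
      funext i
      rcases i with a | i
      · simp [hφ, cW, Pool.Agent.R351.GD.cs]
      · simp only [hφ, Sum.elim_inr]
        split_ifs with h1 h2
        · have h3 : i.1 < jj := h1
          rw [map_add, map_mul, MvPolynomial.aeval_X, MvPolynomial.aeval_X, MvPolynomial.aeval_C, hn i]
          simp [cW, Pool.Agent.R351.GD.cs, h3]
        · rw [MvPolynomial.aeval_X]
          rfl
        · rw [MvPolynomial.aeval_C]
          simp
    have h1 := hwin jj (MvPolynomial.aeval φ P) ((totalDegree_aeval_le P φ hφd).trans hPd) (by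
      rw [hval]
      have h1 := hev (j + 1) (fun i => ((y i : ℚ) : ℂ))
      rw [h0, map_zero] at h1
      rw [h1]
      congr 2
      funext i
      rcases i with a | i
      · rfl
      · simp only [Sum.elim_inr]
        by_cases h2 : (i.1 : ℕ) < j
        · rw [if_pos h2, if_pos (by omega)]
        · rw [if_neg h2]
          by_cases h3 : (i.1 : ℕ) = j
          · have h4 : i.1 = jj := Fin.ext h3
            rw [if_pos h3, if_pos (by omega), h4]
          · rw [if_neg h3, if_neg (by omega)])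
    apply hy
    have h2 := congrArg (MvPolynomial.eval fun i : Fin r => ((y (jj, i) : ℚ) : ℂ)) h1
    rw [map_zero] at h2
    have h3 : MvPolynomial.eval (fun i : Fin r => ((y (jj, i) : ℚ) : ℂ))
        (MvPolynomial.aeval (Sum.elim (fun o => MvPolynomial.C (cW ξ w β jj o)) MvPolynomial.X)
          (MvPolynomial.aeval φ P)) =
        MvPolynomial.aeval (Sum.elim (cW ξ w β jj) fun i : Fin r => ((y (jj, i) : ℚ) : ℂ))
          (MvPolynomial.aeval φ P) := by
      have h4 : ∀ y : Fin r → ℂ, (MvPolynomial.eval y : MvPolynomial (Fin r) ℂ →+* ℂ) =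
          (MvPolynomial.aeval y : MvPolynomial (Fin r) ℂ →ₐ[ℂ] ℂ).toRingHom := by
        intro y
        ext <;> simp
      rw [h4]
      show (MvPolynomial.aeval (fun i : Fin r => ((y (jj, i) : ℚ) : ℂ)) :
        MvPolynomial (Fin r) ℂ →ₐ[ℂ] ℂ) _ = _
      rw [← AlgHom.restrictScalars_apply K (MvPolynomial.aeval _ : MvPolynomial (Fin r) ℂ →ₐ[ℂ] ℂ),
        ← AlgHom.comp_apply, MvPolynomial.comp_aeval]
      congr 2
      funext i
      rcases i with a | i
      · simp
      · simp
    have h2' : MvPolynomial.eval (fun i : Fin r => ((y (jj, i) : ℚ) : ℂ))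
        (MvPolynomial.aeval (Sum.elim (fun o => MvPolynomial.C (cW ξ w β jj o)) MvPolynomial.X)
          (MvPolynomial.aeval φ P)) = 0 := h2
    rw [h3, hval] at h2'
    rw [hev, ← h2']
    congr 2
    funext i
    rcases i with a | i
    · rfl
    · simp only [Sum.elim_inr]
      by_cases h5 : (i.1 : ℕ) < j
      · rw [if_pos h5, if_pos h5]
      · rw [if_neg h5, if_neg h5]
        by_cases h6 : (i.1 : ℕ) = j
        · have h7 : i = (jj, i.2) := Prod.ext (Fin.ext h6) rfl
          rw [if_pos h6, ← h7]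
        · rw [if_neg h6]
  have hGt : G t = 0 := by
    apply MvPolynomial.funext
    intro z
    rw [hev, map_zero, ← hP0]
    congr 2
    funext i
    rcases i with a | i
    · rfl
    · simp only [Sum.elim_inr]
      rw [if_pos i.1.2]
  have hall : ∀ s, s ≤ t → G (t - s) = 0 := by
    intro s
    induction s with
    | zero => intro _; exact hGt
    | succ s ih =>
      intro hs
      apply hstep _ (by omega)
      have : t - (s + 1) + 1 = t - s := by omega
      rw [this]
      exact ih (by omega)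
  have h0 := hall t le_rfl
  rw [Nat.sub_self] at h0
  rw [← h0, hG]
  simp only [not_lt_zero, if_false]

/-- the logarithms of the numbers of several windows; the centre `ξ j β` and the size `H j β` of the window number `j`
may depend on the numbers chosen in the windows before -/
theorem windows (t q r d m A : ℕ) : ∃ C : ℕ, ∀ (δ : ℕ) (ξ : Fin t → (Fin t → Fin r → ℂ) → ℂ)
    (H : Fin t → (Fin t → Fin r → ℂ) → ℕ),
    (∀ j β β', (∀ i, i < j → β i = β' i) → ξ j β = ξ j β' ∧ H j β = H j β') → ∀ w : Fin q → ℂ,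
    ∃ S : Fin t → (Fin t → Fin r → ℂ) → Finset ℂ, (∀ j β, (S j β).card ≤ q + r * j + 2) ∧
      (∀ j β β', (∀ i, i < j → β i = β' i) → S j β = S j β') ∧
      ∀ β : Fin t → Fin r → ℂ, (∀ j, ((H j β : ℝ) + 2) ^ ((δ + 2) ^ C) ≤ ‖ξ j β‖) → (∀ j, Ht m A (ξ j β)) →
      (∀ j, Function.Injective (β j)) →
      (∀ j i, β j i ∉ S j β ∧ β j i ≠ 0 ∧ Pool.Agent.Y916.Ari.Adm d (H j β) (β j i)) →
      ∀ x : Fin t → Fin r → ℂ, (∀ j i, Complex.exp (x j i) = ξ j β + β j i) →
      ∀ K : IntermediateField ℚ ℂ, FiniteDimensional ℚ K → finrank ℚ K ≤ δ →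
      ∀ P : MvPolynomial (Fin q ⊕ (Fin t × Fin r)) K, P.totalDegree ≤ δ →
        MvPolynomial.aeval (Sum.elim w fun p => x p.1 p.2) P = 0 →
        MvPolynomial.aeval (Sum.elim (fun a => MvPolynomial.C (w a)) MvPolynomial.X) P =
          (0 : MvPolynomial (Fin t × Fin r) ℂ) := by
  classical
  have h0 : ∀ j : Fin t, _ := fun j => windowP_exp r d (q + r * j + 2) 1 1 m A
  choose E hE1 hE2 hE using h0
  choose c hc using hE1
  refine ⟨∑ j, c j, fun δ ξ H hdep w => ?_⟩
  have h1 : ∀ (j : Fin t) (ξ' : ℂ) (H' : ℕ) (v : (Fin q ⊕ (Fin t × Fin r)) ⊕ Bool → ℂ),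
      ∃ S : Finset ℂ, S.card ≤ q + r * j + 2 ∧ ((((H' : ℝ) + 2) ^ E j δ ≤ ‖ξ'‖ ∧ Ht m A ξ' ∧
        Dom 1 1 v (TW q r j)) → ∀ β : Fin r → ℂ, Function.Injective β →
          (∀ i, β i ∉ S ∧ β i ≠ 0 ∧ Pool.Agent.Y916.Ari.Adm d H' (β i)) →
        ∀ K : IntermediateField ℚ ℂ, FiniteDimensional ℚ K → finrank ℚ K ≤ δ →
        ∀ l : Fin r → ℂ, (∀ i, ∃ a : K, a ≠ 0 ∧ l i - a * Complex.log (1 + β i / ξ') ∈
          Submodule.span K (insert 1 (Set.range v))) →
        ∀ P : MvPolynomial (((Fin q ⊕ (Fin t × Fin r)) ⊕ Bool) ⊕ Fin r) K, P.totalDegree ≤ δ →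
          MvPolynomial.aeval (Sum.elim v l) P = 0 →
          MvPolynomial.aeval (Sum.elim (fun j => MvPolynomial.C (v j)) MvPolynomial.X) P
            = (0 : MvPolynomial (Fin r) ℂ)) := by
    intro j ξ' H' v
    by_cases hcond : ((H' : ℝ) + 2) ^ E j δ ≤ ‖ξ'‖ ∧ Ht m A ξ' ∧ Dom 1 1 v (TW q r j)
    · obtain ⟨S, hS, h⟩ := hE j δ H' ξ' hcond.1 hcond.2.1 _ v (TW q r j) (TW_card q r j) hcond.2.2
      exact ⟨S, hS, fun _ => h⟩
    · exact ⟨∅, by simp, fun h => absurd h hcond⟩
  choose S hS1 hS2 using h1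
  refine ⟨fun j β => S j (ξ j β) (H j β) (cW (fun i => ξ i β) w β j), fun j β => hS1 j _ _ _,
    fun j β β' h => ?_, ?_⟩
  · have h2 : cW (fun i => ξ i β) w β j = cW (fun i => ξ i β') w β' j :=
      cW_congr _ _ w β β' j (fun i hi => (hdep i β β' fun i' hi' => h i' (hi'.trans_le hi)).1) h
    show S j (ξ j β) (H j β) _ = S j (ξ j β') (H j β') _
    rw [h2, (hdep j β β' h).1, (hdep j β β' h).2]
  · intro β hξ hHt hinj hβ x hx K hK hKd P hPd hP0
    have hH : ∀ j, (1 : ℝ) ≤ (H j β : ℝ) + 2 := fun j => by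
      linarith [(Nat.cast_nonneg (H j β) : (0 : ℝ) ≤ H j β)]
    have hξ' : ∀ j, ((H j β : ℝ) + 2) ^ E j δ ≤ ‖ξ j β‖ := by
      intro j
      refine le_trans (pow_le_pow_right₀ (hH j) ?_) (hξ j)
      exact (hc j δ).trans (Nat.pow_le_pow_right (by omega)
        (Finset.single_le_sum (f := c) (fun i _ => Nat.zero_le _) (mem_univ j)))
    have hξ0 : ∀ j, ξ j β ≠ 0 := by
      intro j hj
      have h1 := hξ' j
      rw [hj, norm_zero] at h1
      have : (0 : ℝ) < ((H j β : ℝ) + 2) ^ E j δ := by positivity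
      linarith
    refine step (fun i => ξ i β) w β x hx K P hPd (fun j Q hQd hQ0 => ?_) hP0
    exact hS2 j (ξ j β) (H j β) (cW (fun i => ξ i β) w β j) ⟨hξ' j, hHt j, dom_cW _ w β j⟩ (β j) (hinj j)
      (fun i => hβ j i) K hK hKd (x j)
      (fun i => ⟨1, one_ne_zero, cs_span (ξ j β) _ (hξ0 j) K (β j i) (x j i) (hx j i)⟩) Q hQd hQ0

end Pool.Agent.Run7.h643.MW
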