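import Mathlib
import Pool.Agent.Run7.h643.MW.Main

/-!
# Counting the exceptional tuples
-/

set_option autoImplicit false

namespace Pool.Agent.Run7.h643.MW

open Module Finset Pool.Agent.Y916.Al Pool.Agent.Y916.Om Pool.Agent.R351.SU Pool.Agent.R351.GD

/-- the numbers `x` satisfy no relation of degree at most `δ` over number fields of degree at most `δ` and the constants
`w` -/
def Fr (δ : ℕ) {q : ℕ} {ι : Type} (w : Fin q → ℂ) (x : ι → ℂ) : Prop :=
  ∀ K : IntermediateField ℚ ℂ, FiniteDimensional ℚ K → finrank ℚ K ≤ δ →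
    ∀ P : MvPolynomial (Fin q ⊕ ι) K, P.totalDegree ≤ δ → MvPolynomial.aeval (Sum.elim w x) P = 0 →
      MvPolynomial.aeval (Sum.elim (fun a => MvPolynomial.C (w a)) MvPolynomial.X) P = (0 : MvPolynomial ι ℂ)

theorem Fr.comp {δ q : ℕ} {ι κ : Type} {w : Fin q → ℂ} {x : ι → ℂ} (h : Fr δ w x) (e : κ ≃ ι) :
    Fr δ w fun k => x (e k) := by
  intro K hK hKd P hPd hP0
  have h1 := h K hK hKd (MvPolynomial.rename (Sum.map id e) P)
    ((MvPolynomial.totalDegree_rename_le _ _).trans hPd) (by
      rw [MvPolynomial.aeval_rename, ← hP0]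
      congr 2
      funext i
      rcases i with i | i <;> rfl)
  rw [MvPolynomial.aeval_rename] at h1
  have h2 := congrArg (MvPolynomial.rename e.symm) h1
  rw [map_zero] at h2
  rw [← h2]
  have h3 : MvPolynomial.aeval (Sum.elim (fun a => MvPolynomial.C (w a)) MvPolynomial.X :
      Fin q ⊕ κ → MvPolynomial κ ℂ) P =
      (((MvPolynomial.rename e.symm : MvPolynomial ι ℂ →ₐ[ℂ] MvPolynomial κ ℂ).restrictScalars K).comp
        (MvPolynomial.aeval ((Sum.elim (fun a => MvPolynomial.C (w a)) MvPolynomial.X :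
          Fin q ⊕ ι → MvPolynomial ι ℂ) ∘ Sum.map id e))) P := by
    rw [MvPolynomial.comp_aeval]
    congr 2
    funext i
    rcases i with i | i
    · simp
    · simp
  exact h3

theorem count {t : ℕ} {ι : Type} [DecidableEq ι] (B : Fin t → Finset ι) (M R : ℕ) (hB : ∀ j, (B j).card ≤ M)
    (F : Fin t → (Fin t → ι) → Finset ι) (hF : ∀ j β, (F j β).card ≤ R)
    (hdep : ∀ j β β', (∀ i, i < j → β i = β' i) → F j β = F j β') :
    ((Fintype.piFinset B).filter fun β => ∃ j, β j ∈ F j β).card ≤ t * R * M ^ (t - 1) := by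
  classical
  rcases ((Fintype.piFinset B).filter fun β => ∃ j, β j ∈ F j β).eq_empty_or_nonempty with h0 | ⟨m₀, hm₀⟩
  · rw [h0, card_empty]; exact Nat.zero_le _
  have hj : ∀ j : Fin t, ((Fintype.piFinset B).filter fun β => β j ∈ F j β).card ≤ R * M ^ (t - 1) := by
    intro j
    set Y := (Fintype.piFinset B).filter fun β => β j ∈ F j β with hY
    set Z := Fintype.piFinset fun i : Fin t => if i = j then {m₀ j} else B i with hZ
    have hmaps : ∀ m ∈ Y, Function.update m j (m₀ j) ∈ Z := by
      intro m hm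
      rw [hZ, Fintype.mem_piFinset]
      intro i
      by_cases hi : i = j
      · subst hi
        rw [if_pos rfl, Function.update_self, mem_singleton]
      · rw [if_neg hi, Function.update_of_ne hi]
        exact Fintype.mem_piFinset.1 (mem_filter.1 hm).1 i
    have h1 : Y.card ≤ R * Z.card := by
      refine Finset.card_le_mul_card_image_of_maps_to hmaps _ fun z hz => ?_
      have hfib : ∀ m ∈ Y.filter (fun m => Function.update m j (m₀ j) = z), m j ∈ F j z := by
        intro m hm
        have h2 := mem_filter.1 hm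
        have h3 := mem_filter.1 h2.1
        have h4 : F j z = F j m := by
          refine hdep j z m fun i hi => ?_
          rw [← h2.2, Function.update_of_ne hi.ne]
        rw [h4]
        exact h3.2
      refine le_trans ?_ (hF j z)
      refine Finset.card_le_card_of_injOn (fun m => m j) (fun m hm => hfib m (mem_coe.1 hm)) ?_
      intro m hm m' hm' hmm
      have h2 := (mem_filter.1 (mem_coe.1 hm)).2
      have h3 := (mem_filter.1 (mem_coe.1 hm')).2
      funext i
      by_cases hi : i = j
      · subst hi; exact hmm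
      · have h4 := congrFun (h2.trans h3.symm) i
        rwa [Function.update_of_ne hi, Function.update_of_ne hi] at h4
    have h2 : Z.card ≤ M ^ (t - 1) := by
      rw [hZ, Fintype.card_piFinset]
      have h3 : ∀ i : Fin t, (if i = j then {m₀ j} else B i).card ≤ if i = j then 1 else M := by
        intro i
        split_ifs
        · rw [card_singleton]
        · exact hB i
      refine (Finset.prod_le_prod' fun i _ => h3 i).trans (le_of_eq ?_)
      rw [Finset.prod_ite, Finset.prod_const_one, one_mul, Finset.prod_const]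
      congr 2
      rw [Finset.filter_ne' (s := Finset.univ) (b := j)]
      rw [Finset.card_erase_of_mem (Finset.mem_univ j), Finset.card_univ, Fintype.card_fin]
    exact h1.trans (Nat.mul_le_mul_left _ h2)
  have hsub : ((Fintype.piFinset B).filter fun β => ∃ j, β j ∈ F j β) ⊆
      (Finset.univ : Finset (Fin t)).biUnion fun j : Fin t =>
        (Fintype.piFinset B).filter fun β => β j ∈ F j β := by
    intro m hm
    obtain ⟨h1, j, h2⟩ := mem_filter.1 hm
    exact mem_biUnion.2 ⟨j, mem_univ _, mem_filter.2 ⟨h1, h2⟩⟩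
  refine (card_le_card hsub).trans (card_biUnion_le.trans ((Finset.sum_le_sum fun j _ => hj j).trans ?_))
  rw [Finset.sum_const, Finset.card_univ, Fintype.card_fin, smul_eq_mul, mul_assoc]

open Classical in
/-- integers in windows -/
theorem integers (t q : ℕ) : ∃ C : ℕ, ∀ (δ H : ℕ) (N : Fin t → (Fin t → ℕ) → ℕ),
    (∀ j h h', (∀ i, i < j → h i = h' i) → N j h = N j h') → (∀ j h, (H + 2) ^ ((δ + 2) ^ C) ≤ N j h) →
    ∀ w : Fin q → ℂ, ((Fintype.piFinset fun _ : Fin t => Finset.Icc 1 H).filter fun h =>
      ∃ x : Fin t → ℂ, (∀ j, Complex.exp (x j) = N j h + h j) ∧ ¬ Fr δ w x).card ≤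
        t * (q + t + 1) * H ^ (t - 1) := by
  obtain ⟨C, hC⟩ := windows t q 1 1 1 1
  refine ⟨C, fun δ H N hN hNH w => ?_⟩
  obtain ⟨S, hS1, hS2, hS3⟩ := hC δ (fun j β => (N j fun i => ⌊(β i 0).re⌋₊ : ℂ)) (fun _ _ => H)
    (fun j β β' h => ⟨by
      have : N j (fun i => ⌊(β i 0).re⌋₊) = N j (fun i => ⌊(β' i 0).re⌋₊) :=
        hN j _ _ fun i hi => by rw [h i hi]
      simp only [this], rfl⟩) w
  set b : (Fin t → ℕ) → Fin t → Fin 1 → ℂ := fun h i _ => (h i : ℂ) with hb
  have hbN : ∀ j h, N j (fun i => ⌊(b h i 0).re⌋₊) = N j h := by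
    intro j h
    congr 1
    funext i
    simp [hb]
  refine le_trans (Finset.card_le_card ?_) (count (fun _ : Fin t => Finset.Icc 1 H) H (q + t + 1)
    (fun j => by rw [Nat.card_Icc, Nat.add_sub_cancel])
    (fun j h => (Finset.Icc 1 H).filter fun n => (n : ℂ) ∈ S j (b h)) ?_ ?_)
  · intro h hh
    obtain ⟨h1, x, hx, hxF⟩ := mem_filter.1 hh
    refine mem_filter.2 ⟨h1, ?_⟩
    by_contra hcon
    push Not at hcon
    apply hxF
    have hmem : ∀ j, 1 ≤ h j ∧ h j ≤ H := fun j => by
      have := Fintype.mem_piFinset.1 h1 j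
      rwa [Finset.mem_Icc] at this
    have hfr : Fr δ w fun p : Fin t × Fin 1 => x p.1 := by
      intro K hK hKd P hPd hP0
      refine hS3 (b h) (fun j => ?_) (fun j => ?_) (fun j => Function.injective_of_subsingleton _)
        (fun j i => ⟨?_, ?_, ?_⟩) (fun j _ => x j) (fun j i => ?_) K hK hKd P hPd hP0
      · rw [hbN, Complex.norm_natCast]
        exact_mod_cast hNH j h
      · rw [hbN]
        refine ht_nat ?_
        exact (Nat.one_le_pow _ _ (by omega)).trans (hNH j h)
      · intro h2
        exact hcon j (mem_filter.2 ⟨Finset.mem_Icc.2 (hmem j), h2⟩)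
      · show ((h j : ℕ) : ℂ) ≠ 0
        have := (hmem j).1
        exact_mod_cast (show h j ≠ 0 by omega)
      · show Pool.Agent.Y916.Ari.Adm 1 H ((h j : ℕ) : ℂ)
        have h3 := adm_int (d := 1) (H := H) le_rfl (b := (h j : ℤ)) (by have := (hmem j).1; omega) (by
          rw [abs_of_nonneg (by omega)]
          have := (hmem j).2
          exact_mod_cast this)
        simpa using h3
      · rw [hbN]
        exact hx j
    exact hfr.comp (Equiv.prodUnique (Fin t) (Fin 1)).symm
  · intro j h
    refine le_trans (Finset.card_le_card_of_injOn (fun n : ℕ => (n : ℂ)) (fun n hn => ?_)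
      (fun a _ c _ hac => ?_)) ((hS1 j (b h)).trans ?_)
    · exact (mem_filter.1 (mem_coe.1 hn)).2
    · exact Nat.cast_injective hac
    · have := j.2
      omega
  · intro j h h' hh
    have : S j (b h) = S j (b h') := hS2 j _ _ fun i hi => by
      funext a
      show ((h i : ℕ) : ℂ) = h' i
      rw [hh i hi]
    simp only [this]

end Pool.Agent.Run7.h643.MW
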