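import Mathlib
import Pool.Agent.Run7.h643.MW.Count
import Pool.Agent.R351.GD.Sch

/-!
# Translates of a point by logarithms of algebraic numbers in several windows
-/

set_option autoImplicit false

namespace Pool.Agent.Run7.h643.MW

open Module Finset Pool.Agent.Y916 Pool.Agent.Y916.Al Pool.Agent.R351.GD Pool.Agent.Y916.Sch

/-- the numbers `x` are free over their exponentials and the constants `w` -/
def FrE (δ d : ℕ) {q : ℕ} {ι : Type} (w : Fin q → ℂ) (x : ι → ℂ) : Prop :=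
  ∀ L : IntermediateField ℚ ℂ, FiniteDimensional ℚ L → finrank ℚ L ≤ d →
  ∀ P : MvPolynomial (Fin q ⊕ (ι ⊕ ι)) L, P.totalDegree ≤ δ →
  MvPolynomial.aeval (Sum.elim w (Sum.elim x fun i => Complex.exp (x i))) P = 0 →
  ∀ y : ι → ℂ, MvPolynomial.aeval (Sum.elim w (Sum.elim y fun i => Complex.exp (x i))) P = 0

theorem FrE.comp {δ d q : ℕ} {ι κ : Type} {w : Fin q → ℂ} {x : ι → ℂ} (h : FrE δ d w x) (e : κ ≃ ι) :
    FrE δ d w fun k => x (e k) := by
  intro L hL hLd P hPd hP0 y
  have h1 := h L hL hLd (MvPolynomial.rename (Sum.map id (Sum.map e e)) P)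
    ((MvPolynomial.totalDegree_rename_le _ _).trans hPd) (by
      rw [MvPolynomial.aeval_rename, ← hP0]
      congr 2
      funext i
      rcases i with i | i | i <;> rfl) (fun i => y (e.symm i))
  rw [MvPolynomial.aeval_rename] at h1
  rw [← h1]
  congr 2
  funext i
  rcases i with i | i | i
  · rfl
  · simp
  · rfl

theorem sch (t q r m A : ℕ) : ∃ C : ℕ, ∀ (δ : ℕ) (ξ : Fin t → (Fin t → Fin r → ℂ) → ℂ)
    (H : Fin t → (Fin t → Fin r → ℂ) → ℕ),
    (∀ j β β', (∀ i, i < j → β i = β' i) → ξ j β = ξ j β' ∧ H j β = H j β') →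
    ∀ (w : Fin q → ℂ) (z : Fin t → Fin r → ℂ),
    ∃ S : Fin t → (Fin t → Fin r → ℂ) → Finset ℂ, (∀ j β, (S j β).card ≤ q + 2 * (t * r) + r * j + 2) ∧
      (∀ j β β', (∀ i, i < j → β i = β' i) → S j β = S j β') ∧
      ∀ β : Fin t → Fin r → ℂ, (∀ j, ((H j β : ℝ) + 2) ^ ((δ + 2) ^ C) ≤ ‖ξ j β‖) → (∀ j, Ht m A (ξ j β)) →
      (∀ j, Function.Injective (β j)) →
      (∀ j i, β j i ∉ S j β ∧ β j i ≠ 0 ∧ Pool.Agent.Y916.Ari.Adm m (H j β) (β j i)) →
      ∀ x : Fin t → Fin r → ℂ, (∀ j i, Complex.exp (x j i) = (ξ j β + β j i) * Complex.exp (z j i)) →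
      FrE δ δ w fun p : Fin t × Fin r => x p.1 p.2 := by
  classical
  rcases Nat.eq_zero_or_pos m with hm0 | hm1
  · refine ⟨0, fun δ ξ H hdep w z => ⟨fun _ _ => ∅, by simp, by simp, fun β _ hHt _ _ x hx => ?_⟩⟩
    rcases Nat.eq_zero_or_pos t with ht0 | ht0
    · subst ht0
      intro L hL hLd P hPd hP0 y
      rw [← hP0]
      congr 2
      funext i
      rcases i with i | i | i
      · rfl
      · exact i.1.elim0
      · exact i.1.elim0
    · obtain ⟨p, h1, h2, h3, h4⟩ := hHt ⟨0, ht0⟩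
      exfalso
      subst hm0
      rw [Polynomial.eq_C_of_natDegree_le_zero h2, Polynomial.aeval_C] at h4
      have h5 : p.coeff 0 = 0 := by
        have : ((p.coeff 0 : ℤ) : ℂ) = 0 := h4
        exact_mod_cast this
      exact h1 (by rw [Polynomial.eq_C_of_natDegree_le_zero h2, h5, Polynomial.C_0])
  have hmm : 1 ≤ m * m := Nat.mul_pos hm1 hm1
  obtain ⟨C, hC⟩ := windows t (q + (t * r + t * r)) r m m A
  obtain ⟨C', hC'⟩ : PB fun δ => (2 * δ + δ * (m * m) ^ (t * r) + 2) ^ C :=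
    ((((PB.const 2).mul PB.id).add (PB.id.mul (PB.const ((m * m) ^ (t * r))))).add (PB.const 2)).pow C
  refine ⟨C', fun δ ξ H hdep w z => ?_⟩
  set e : Fin t × Fin r ≃ Fin (t * r) := finProdFinEquiv with he
  set z' : Fin (t * r) → ℂ := fun k => z (e.symm k).1 (e.symm k).2 with hz'
  set e₀ : (Fin q ⊕ (Fin (t * r) ⊕ Fin (t * r))) ≃ Fin (q + (t * r + t * r)) :=
    Fintype.equivFinOfCardEq (by simp) with he₀
  set w' : Fin (q + (t * r + t * r)) → ℂ := fun k => cst w z' (e₀.symm k) with hw'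
  obtain ⟨S, hS1, hS2, hS3⟩ := hC (2 * δ + δ * (m * m) ^ (t * r)) ξ H hdep w'
  refine ⟨S, fun j β => (hS1 j β).trans (by omega), hS2, fun β hξ hHt hinj hβ x hx => ?_⟩
  by_contra hF
  have hH : ∀ j, (1 : ℝ) ≤ (H j β : ℝ) + 2 := fun j => by
    linarith [(Nat.cast_nonneg (H j β) : (0 : ℝ) ≤ H j β)]
  have hbad : Bad δ δ w z' fun k => ξ (e.symm k).1 β + β (e.symm k).1 (e.symm k).2 := by
    refine ⟨fun k => x (e.symm k).1 (e.symm k).2, fun k => hx _ _, fun h => hF ?_⟩
    have h1 : FrE δ δ w fun k => x (e.symm k).1 (e.symm k).2 := h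
    have h2 := h1.comp e
    simpa using h2
  obtain ⟨x', hx', K, hK1, hK2, Q, hQ1, hQ2, y, hy⟩ := bad_poly hmm (fun k => by
    obtain ⟨p, h1, h2, h3, h4⟩ := (hβ (e.symm k).1 (e.symm k).2).2.2
    obtain ⟨h5, h6⟩ := deg_of_root h1 h2 h4
    have hξd : IsIntegral ℚ (ξ (e.symm k).1 β) ∧ (minpoly ℚ (ξ (e.symm k).1 β)).natDegree ≤ m := by
      obtain ⟨p, h1, h2, h3, h4⟩ := hHt (e.symm k).1
      exact deg_of_root h1 h2 h4
    have hf1 : FiniteDimensional ℚ (IntermediateField.adjoin ℚ {ξ (e.symm k).1 β}) :=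
      IntermediateField.adjoin.finiteDimensional hξd.1
    have hf2 : FiniteDimensional ℚ (IntermediateField.adjoin ℚ {β (e.symm k).1 (e.symm k).2}) :=
      IntermediateField.adjoin.finiteDimensional h5
    refine ⟨IntermediateField.adjoin ℚ {ξ (e.symm k).1 β} ⊔
      IntermediateField.adjoin ℚ {β (e.symm k).1 (e.symm k).2}, inferInstance, ?_, ?_⟩
    · refine (IntermediateField.finrank_sup_le _ _).trans ?_
      rw [IntermediateField.adjoin.finrank hξd.1, IntermediateField.adjoin.finrank h5]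
      exact Nat.mul_le_mul hξd.2 h6
    · refine add_mem ?_ ?_
      · exact (le_sup_left : IntermediateField.adjoin ℚ {ξ (e.symm k).1 β} ≤ _)
          (IntermediateField.mem_adjoin_simple_self ℚ _)
      · exact (le_sup_right : IntermediateField.adjoin ℚ {β (e.symm k).1 (e.symm k).2} ≤ _)
          (IntermediateField.mem_adjoin_simple_self ℚ _)) hbad
  have h1 := hS3 β (fun j => (pow_le_pow_right₀ (hH j) (hC' δ)).trans (hξ j)) hHt hinj hβ
    (fun j i => x' (e (j, i)) - z' (e (j, i))) (fun j i => by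
      rw [hx']
      simp) K hK1 (hK2.trans (Nat.le_add_left _ _)) (MvPolynomial.rename (Sum.map e₀ e.symm) Q)
    ((MvPolynomial.totalDegree_rename_le _ _).trans (hQ1.trans (Nat.le_add_right _ _))) (by
      rw [MvPolynomial.aeval_rename, ← hQ2]
      congr 2
      funext a
      rcases a with a | a
      · simp [hw']
      · simp)
  apply hy
  have h2 := congrArg (MvPolynomial.aeval (R := ℂ) fun p : Fin t × Fin r => y (e p)) h1
  rw [map_zero, Af.eval_sub K w' _ _, MvPolynomial.aeval_rename] at h2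
  rw [← h2]
  congr 2
  funext a
  rcases a with a | a
  · simp [hw']
  · simp

open Classical in
/-- integers in windows -/
theorem sch_integers (t q : ℕ) : ∃ C : ℕ, ∀ (δ H : ℕ) (N : Fin t → (Fin t → ℕ) → ℕ),
    (∀ j h h', (∀ i, i < j → h i = h' i) → N j h = N j h') → (∀ j h, (H + 2) ^ ((δ + 2) ^ C) ≤ N j h) →
    ∀ (w : Fin q → ℂ) (z : Fin t → ℂ), ((Fintype.piFinset fun _ : Fin t => Finset.Icc 1 H).filter fun h =>
      ∃ x : Fin t → ℂ, (∀ j, Complex.exp (x j) = (N j h + h j) * Complex.exp (z j)) ∧ ¬ FrE δ δ w x).card ≤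
        t * (q + 3 * t + 1) * H ^ (t - 1) := by
  obtain ⟨C, hC⟩ := sch t q 1 1 1
  refine ⟨C, fun δ H N hN hNH w z => ?_⟩
  obtain ⟨S, hS1, hS2, hS3⟩ := hC δ (fun j β => (N j fun i => ⌊(β i 0).re⌋₊ : ℂ)) (fun _ _ => H)
    (fun j β β' h => ⟨by
      have : N j (fun i => ⌊(β i 0).re⌋₊) = N j (fun i => ⌊(β' i 0).re⌋₊) :=
        hN j _ _ fun i hi => by rw [h i hi]
      simp only [this], rfl⟩) w (fun j _ => z j)
  set b : (Fin t → ℕ) → Fin t → Fin 1 → ℂ := fun h i _ => (h i : ℂ) with hb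
  have hbN : ∀ j h, N j (fun i => ⌊(b h i 0).re⌋₊) = N j h := by
    intro j h
    congr 1
    funext i
    simp [hb]
  refine le_trans (Finset.card_le_card ?_) (count (fun _ : Fin t => Finset.Icc 1 H) H (q + 3 * t + 1)
    (fun j => by rw [Nat.card_Icc, Nat.add_sub_cancel])
    (fun j h => (Finset.Icc 1 H).filter fun n => (n : ℂ) ∈ S j (b h)) ?_ ?_)
  · intro h hh
    obtain ⟨h1, x, hx, hxF⟩ := mem_filter.1 hh
    refine mem_filter.2 ⟨h1, ?_⟩
    by_contra hcon
    push Not at hcon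
    apply hxF
    have hmem : ∀ j, 1 ≤ h j ∧ h j ≤ H := fun j => by
      have := Fintype.mem_piFinset.1 h1 j
      rwa [Finset.mem_Icc] at this
    have hfr : FrE δ δ w fun p : Fin t × Fin 1 => x p.1 := by
      refine hS3 (b h) (fun j => ?_) (fun j => ?_) (fun j => Function.injective_of_subsingleton _)
        (fun j i => ⟨?_, ?_, ?_⟩) (fun j _ => x j) (fun j i => ?_)
      · rw [hbN, Complex.norm_natCast]
        exact_mod_cast hNH j h
      · rw [hbN]
        refine ht_nat ?_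
        exact (Nat.one_le_pow _ _ (by omega)).trans (hNH j h)
      · intro h2
        exact hcon j (mem_filter.2 ⟨Finset.mem_Icc.2 (hmem j), h2⟩)
      · show ((h j : ℕ) : ℂ) ≠ 0
        have := (hmem j).1
        exact_mod_cast (show h j ≠ 0 by omega)
      · show Pool.Agent.Y916.Ari.Adm 1 H ((h j : ℕ) : ℂ)
        have h3 := adm_int (d := 1) (H := H) le_rfl (b := (h j : ℤ)) (by have := (hmem j).1; omega) (by
          rw [abs_of_nonneg (by omega)]
          have := (hmem j).2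
          exact_mod_cast this)
        simpa using h3
      · rw [hbN]
        exact hx j
    exact hfr.comp (Equiv.prodUnique (Fin t) (Fin 1)).symm
  · intro j h
    refine le_trans (Finset.card_le_card_of_injOn (fun n : ℕ => (n : ℂ)) (fun n hn => ?_)
      (fun a _ c _ hac => ?_)) ((hS1 j (b h)).trans ?_)
    · exact (mem_filter.1 (mem_coe.1 hn)).2
    · exact Nat.cast_injective hac
    · have := j.2
      omega
  · intro j h h' hh
    have : S j (b h) = S j (b h') := hS2 j _ _ fun i hi => by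
      funext a
      show ((h i : ℕ) : ℂ) = h' i
      rw [hh i hi]
    simp only [this]

end Pool.Agent.Run7.h643.MW
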