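import Mathlib
import Pool.Agent.Run7.h643.MW.Sch
import Pool.Agent.H362R2.CM.Final

/-!
# Consecutive primes in bounded intervals: translates by their logarithms
-/

set_option autoImplicit false

namespace Pool.Agent.Run7.h643.MW

open Finset

/-- bounded intervals with many primes (Maynard-Tao) -/
theorem prime_clusters (M : ℕ) :
    ∃ L : ℕ, {N : ℕ | M ≤ ((Finset.Icc (N + 1) (N + L)).filter Nat.Prime).card}.Infinite := by
  classical
  obtain ⟨K, hK, hq⟩ := Pool.Agent.H362R2.CM.quarter (4 * M)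
  set T := 4 * M with hT
  set P : ℕ := (T * K).factorial with hP
  have hPpos : 0 < P := Nat.factorial_pos _
  set idx : Fin T → Fin K → ℕ := fun g i => (i : ℕ) + K * g + 1 with hidx
  have hidx1 : ∀ g i, 1 ≤ idx g i := fun g i => Nat.le_add_left 1 _
  have hidx2 : ∀ g i, idx g i ≤ T * K := by
    intro g i
    have h1 := g.2
    have h2 := i.2
    have h3 : K * g + K ≤ T * K := by
      calc K * g + K = (g + 1) * K := by ring
        _ ≤ T * K := Nat.mul_le_mul_right K h1
    show (i : ℕ) + K * g + 1 ≤ T * K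
    omega
  have hidxinj : ∀ g i g' i', idx g i = idx g' i' → g = g' ∧ i = i' := by
    intro g i g' i' h
    have h0 : (i : ℕ) + K * g = i' + K * g' := by
      have : (i : ℕ) + K * g + 1 = i' + K * g' + 1 := h
      omega
    have hg : (g : ℕ) = g' := by
      have h1 := congrArg (· / K) h0
      simp only [Nat.add_mul_div_left _ _ hK, Nat.div_eq_of_lt i.2, Nat.div_eq_of_lt i'.2, zero_add] at h1
      exact h1
    refine ⟨Fin.ext hg, Fin.ext ?_⟩
    rw [hg] at h0
    omega
  set b : Fin T → Fin K → ℤ := fun g i => ((P * idx g i : ℕ) : ℤ) with hb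
  obtain ⟨S, c, hS, hinf⟩ := hq (fun _ _ => 1) b (fun _ _ => one_pos)
    (fun x y hxy => by
      have h1 : ((P * idx x.1 x.2 : ℕ) : ℤ) = ((P * idx y.1 y.2 : ℕ) : ℤ) := (Prod.mk.inj hxy).2
      have h2 : P * idx x.1 x.2 = P * idx y.1 y.2 := by exact_mod_cast h1
      have h3 := hidxinj _ _ _ _ (Nat.eq_of_mul_eq_mul_left hPpos h2)
      exact Prod.ext h3.1 h3.2)
    (fun p hp => by
      rcases Nat.lt_or_ge (T * K) p with h | h
      · -- few residue classes
        have hcard : ((Finset.univ : Finset (Fin T × Fin K)).image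
            fun x => ((-(b x.1 x.2) : ℤ) : ZMod p)).card < p := by
          refine lt_of_le_of_lt Finset.card_image_le ?_
          rw [Finset.card_univ, Fintype.card_prod, Fintype.card_fin, Fintype.card_fin]
          exact h
        have : NeZero p := ⟨hp.ne_zero⟩
        have hex : ∃ y : ZMod p, y ∉ ((Finset.univ : Finset (Fin T × Fin K)).image
            fun x => ((-(b x.1 x.2) : ℤ) : ZMod p)) := by
          by_contra hcon
          push Not at hcon
          have h1 : (Finset.univ : Finset (ZMod p)) ⊆ ((Finset.univ : Finset (Fin T × Fin K)).image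
            fun x => ((-(b x.1 x.2) : ℤ) : ZMod p)) := fun y _ => hcon y
          have h2 := Finset.card_le_card h1
          rw [Finset.card_univ, ZMod.card] at h2
          omega
        obtain ⟨y, hy⟩ := hex
        refine ⟨(y.val : ℤ), fun g i hdvd => hy ?_⟩
        rw [one_mul] at hdvd
        refine Finset.mem_image.2 ⟨(g, i), Finset.mem_univ _, ?_⟩
        have h3 := (ZMod.intCast_zmod_eq_zero_iff_dvd ((y.val : ℤ) + b g i) p).2 hdvd
        push_cast at h3 ⊢
        rw [ZMod.natCast_zmod_val] at h3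
        linear_combination -h3
      · refine ⟨1, fun g i hdvd => ?_⟩
        have h1 : (p : ℤ) ∣ b g i := by
          have h2 : p ∣ P * idx g i := Dvd.dvd.mul_right (hp.dvd_factorial.2 h) _
          exact Int.natCast_dvd_natCast.2 h2
        rw [one_mul] at hdvd
        have h3 : (p : ℤ) ∣ 1 := (dvd_add_left h1).1 hdvd
        have h4 : p ∣ 1 := by exact_mod_cast h3
        exact hp.one_lt.ne' (Nat.dvd_one.1 h4))
  refine ⟨P * (T * K), hinf.mono fun n hn => ?_⟩
  show M ≤ ((Finset.Icc (n + 1) (n + P * (T * K))).filter Nat.Prime).card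
  have hSM : M ≤ S.card := by omega
  refine hSM.trans (Finset.card_le_card_of_injOn (fun g => n + P * idx g (c g)) (fun g hg => ?_)
    (fun g _ g' _ h => ?_))
  · obtain ⟨h1, h2⟩ := hn g hg
    rw [one_mul] at h1 h2
    rw [Finset.mem_coe, Finset.mem_filter, Finset.mem_Icc]
    refine ⟨⟨?_, ?_⟩, ?_⟩
    · have := Nat.mul_pos hPpos (hidx1 g (c g))
      show n + 1 ≤ n + P * idx g (c g)
      omega
    · exact Nat.add_le_add_left (Nat.mul_le_mul_left P (hidx2 g (c g))) n
    · have h3 : (n : ℤ) + b g (c g) = ((n + P * idx g (c g) : ℕ) : ℤ) := by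
        rw [hb]; push_cast; ring
      rw [h3] at h2
      exact Nat.prime_iff_prime_int.2 h2
  · have h1 : n + P * idx g (c g) = n + P * idx g' (c g') := h
    exact (hidxinj _ _ _ _ (Nat.eq_of_mul_eq_mul_left hPpos (Nat.add_left_cancel h1))).1

/-- the size of the windows -/
theorem size_window (L C N : ℕ) (hN : 1 ≤ N) (hNL : Real.log ((L : ℝ) + 2) ^ (C + 1) ≤ Real.log N) (δ : ℕ)
    (hδ : ((δ : ℝ) + 2) ^ (C + 1) ≤ Real.log N) : ((L : ℝ) + 2) ^ ((δ + 2) ^ C) ≤ N := by
  have hL : (0 : ℝ) ≤ Real.log ((L : ℝ) + 2) := Real.log_nonneg (by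
    have : (0 : ℝ) ≤ L := Nat.cast_nonneg L
    linarith)
  have hNpos : (0 : ℝ) < N := by exact_mod_cast hN
  have hLpos : (0 : ℝ) < (L : ℝ) + 2 := by positivity
  have h1 : ((δ : ℝ) + 2) ^ C * Real.log ((L : ℝ) + 2) ≤ Real.log N := by
    rcases le_total (Real.log ((L : ℝ) + 2)) ((δ : ℝ) + 2) with h | h
    · refine le_trans ?_ hδ
      rw [pow_succ]
      exact mul_le_mul_of_nonneg_left h (by positivity)
    · refine le_trans ?_ hNL
      rw [pow_succ]
      exact mul_le_mul_of_nonneg_right (pow_le_pow_left₀ (by positivity) h C) hL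
  rw [← Real.log_le_log_iff (by positivity) hNpos, Real.log_pow]
  push_cast
  exact h1

/-- the largest admissible degree -/
theorem max_deg (C N : ℕ) : ∃ D : ℕ, ∀ δ : ℕ, ((δ : ℝ) + 2) ^ (C + 1) ≤ Real.log N →
    δ ≤ D ∧ ((D : ℝ) + 2) ^ (C + 1) ≤ Real.log N := by
  classical
  refine ⟨Nat.findGreatest (fun δ : ℕ => ((δ : ℝ) + 2) ^ (C + 1) ≤ Real.log N) ⌈Real.log N⌉₊,
    fun δ h => ?_⟩
  have h1 : δ ≤ ⌈Real.log N⌉₊ := by
    have h2 : (δ : ℝ) + 2 ≤ ((δ : ℝ) + 2) ^ (C + 1) :=
      le_self_pow₀ (by linarith [(Nat.cast_nonneg δ : (0 : ℝ) ≤ δ)]) (by omega)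
    have h3 : (δ : ℝ) ≤ ⌈Real.log N⌉₊ := by
      have := Nat.le_ceil (Real.log N)
      linarith
    exact_mod_cast h3
  exact ⟨Nat.le_findGreatest h1 h,
    Nat.findGreatest_spec (P := fun δ : ℕ => ((δ : ℝ) + 2) ^ (C + 1) ≤ Real.log N) h1 h⟩

theorem FrE.mono {δ δ' q : ℕ} {ι : Type} {w : Fin q → ℂ} {x : ι → ℂ} (h : FrE δ δ w x) (hd : δ' ≤ δ) :
    FrE δ' δ' w x := fun L hL hLd P hPd hP0 => h L hL (hLd.trans hd) P (hPd.trans hd) hP0

/-- **Consecutive primes in bounded intervals.** -/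
theorem consecutive (m q : ℕ) : ∃ L C : ℕ, ∀ (w : ℕ → Fin q → ℂ) (z : ℕ → Fin m → ℂ),
    {N : ℕ | ∃ k : ℕ, (∀ i : Fin m, N ≤ Nat.nth Nat.Prime (k + i) ∧ Nat.nth Nat.Prime (k + i) ≤ N + L) ∧
      ∀ δ : ℕ, ((δ : ℝ) + 2) ^ C ≤ Real.log N →
        FrE δ δ (w N) fun i : Fin m => z N i + ((Real.log (Nat.nth Nat.Prime (k + i)) : ℝ) : ℂ)}.Infinite := by
  classical
  rcases Nat.eq_zero_or_pos m with hm | hm
  · subst hm
    refine ⟨0, 1, fun w z => Set.infinite_univ.mono fun N _ => ⟨0, fun i => i.elim0, fun δ _ => ?_⟩⟩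
    intro K hK hKd P hPd hP0 y
    rw [← hP0]
    congr 2
    funext a
    rcases a with a | a | a
    · rfl
    · exact a.elim0
    · exact a.elim0
  obtain ⟨C, hC⟩ := sch 1 q m 1 1
  set e := q + 2 * m + 2 with he
  obtain ⟨L, hL⟩ := prime_clusters (m * (e + 1))
  refine ⟨L, C + 1, fun w z => ?_⟩
  set n0 : ℕ := 1 + ⌈Real.exp (Real.log ((L : ℝ) + 2) ^ (C + 1))⌉₊ with hn0
  have hinf : ({N : ℕ | m * (e + 1) ≤ ((Finset.Icc (N + 1) (N + L)).filter Nat.Prime).card} \
      ((range n0 : Finset ℕ) : Set ℕ)).Infinite := hL.sdiff (Finset.finite_toSet _)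
  refine hinf.mono fun N hN => ?_
  have hN0 : n0 ≤ N := by
    have h2 := hN.2
    rw [mem_coe, mem_range] at h2
    omega
  have hN1 : 1 ≤ N := by omega
  have hNpos : (0 : ℝ) < N := by exact_mod_cast hN1
  have hcnt : m * (e + 1) ≤ ((Finset.Icc (N + 1) (N + L)).filter Nat.Prime).card := hN.1
  have hNL : Real.log ((L : ℝ) + 2) ^ (C + 1) ≤ Real.log N := by
    rw [Real.le_log_iff_exp_le hNpos]
    refine (Nat.le_ceil _).trans ?_
    have h1 : ⌈Real.exp (Real.log ((L : ℝ) + 2) ^ (C + 1))⌉₊ ≤ N := by omega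
    exact Nat.cast_le.2 h1
  -- the primes
  have hprinf : (Set.ofPred Nat.Prime).Infinite := Nat.infinite_setOfPred_prime
  set k₀ := Nat.count Nat.Prime (N + 1) with hk₀
  have hcount : k₀ + m * (e + 1) ≤ Nat.count Nat.Prime (N + L + 1) := by
    have h1 : Nat.count Nat.Prime (N + 1) + ((Finset.Icc (N + 1) (N + L)).filter Nat.Prime).card ≤
        Nat.count Nat.Prime (N + L + 1) := by
      rw [Nat.count_eq_card_filter_range, Nat.count_eq_card_filter_range, ← Finset.card_union_of_disjoint]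
      · refine Finset.card_le_card fun a ha => ?_
        rw [Finset.mem_union, Finset.mem_filter, Finset.mem_filter, Finset.mem_range, Finset.mem_Icc] at ha
        rw [Finset.mem_filter, Finset.mem_range]
        rcases ha with ha | ha
        · exact ⟨by omega, ha.2⟩
        · exact ⟨by omega, ha.2⟩
      · rw [Finset.disjoint_left]
        intro a ha hb
        rw [Finset.mem_filter, Finset.mem_range] at ha
        rw [Finset.mem_filter, Finset.mem_Icc] at hb
        omega
    omega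
  have hprime : ∀ i < m * (e + 1), N + 1 ≤ Nat.nth Nat.Prime (k₀ + i) ∧
      Nat.nth Nat.Prime (k₀ + i) ≤ N + L := by
    intro i hi
    constructor
    · exact (Nat.count_le_iff_le_nth hprinf).1 (by omega)
    · have h1 : Nat.nth Nat.Prime (k₀ + i) < N + L + 1 :=
        (Nat.lt_nth_iff_count_lt hprinf).1 (by omega)
      omega
  -- the exceptional set
  obtain ⟨D, hD⟩ := max_deg C N
  by_cases hcase : ((D : ℝ) + 2) ^ (C + 1) ≤ Real.log N
  swap
  · refine ⟨k₀, fun i => ?_, fun δ hδ => absurd (hD δ hδ).2 hcase⟩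
    have h1 := hprime i (lt_of_lt_of_le i.2 (Nat.le_mul_of_pos_right m (by omega)))
    exact ⟨by omega, h1.2⟩
  obtain ⟨S, hS1, hS2, hS3⟩ := hC D (fun _ _ => (N : ℂ)) (fun _ _ => L) (fun _ _ _ _ => ⟨rfl, rfl⟩)
    (w N) (fun _ => z N)
  set S₀ : Finset ℂ := S 0 (fun _ _ => 0) with hS₀
  have hScard : S₀.card ≤ e := (hS1 0 _).trans (by
    rw [he]
    simp)
  have hSall : ∀ (j : Fin 1) (β : Fin 1 → Fin m → ℂ), S j β = S₀ := by
    intro j β
    rw [Subsingleton.elim j 0]
    exact hS2 0 β _ fun i hi => absurd hi (by omega)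
  -- a block without exceptions
  have hblock : ∃ s ∈ range (e + 1), ∀ i < m, ((Nat.nth Nat.Prime (k₀ + m * s + i) : ℂ) - N) ∉ S₀ := by
    by_contra hcon
    push Not at hcon
    choose! f hf1 hf2 using hcon
    have h1 : (range (e + 1)).card ≤ S₀.card := by
      refine Finset.card_le_card_of_injOn (fun s => ((Nat.nth Nat.Prime (k₀ + m * s + f s) : ℂ) - N))
        (fun s hs => hf2 s (mem_coe.1 hs)) (fun s hs s' hs' h => ?_)
      have h2 : ((Nat.nth Nat.Prime (k₀ + m * s + f s) : ℂ) - N) =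
        (Nat.nth Nat.Prime (k₀ + m * s' + f s') : ℂ) - N := h
      have h3 : (Nat.nth Nat.Prime (k₀ + m * s + f s) : ℂ) = Nat.nth Nat.Prime (k₀ + m * s' + f s') :=
        sub_left_injective h2
      have h4 : Nat.nth Nat.Prime (k₀ + m * s + f s) = Nat.nth Nat.Prime (k₀ + m * s' + f s') :=
        Nat.cast_injective h3
      have h5 : k₀ + m * s + f s = k₀ + m * s' + f s' := Nat.nth_injective hprinf h4
      have h6 := hf1 s (mem_coe.1 hs)
      have h7 := hf1 s' (mem_coe.1 hs')
      have h8 : f s + m * s = f s' + m * s' := by omega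
      have h9 := congrArg (· / m) h8
      simp only [Nat.add_mul_div_left _ _ hm, Nat.div_eq_of_lt h6, Nat.div_eq_of_lt h7, zero_add] at h9
      exact h9
    rw [card_range] at h1
    omega
  obtain ⟨s, hs, hbl⟩ := hblock
  rw [mem_range] at hs
  have hpr : ∀ i : Fin m, N + 1 ≤ Nat.nth Nat.Prime (k₀ + m * s + i) ∧
      Nat.nth Nat.Prime (k₀ + m * s + i) ≤ N + L := by
    intro i
    rw [add_assoc]
    refine hprime _ ?_
    calc m * s + i < m * s + m := by have := i.2; omega
      _ = m * (s + 1) := by ring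
      _ ≤ m * (e + 1) := Nat.mul_le_mul_left m (by omega)
  refine ⟨k₀ + m * s, fun i => ⟨by have := (hpr i).1; omega, (hpr i).2⟩, fun δ hδ => ?_⟩
  have hmain := hS3 (fun _ i => (Nat.nth Nat.Prime (k₀ + m * s + i) : ℂ) - N)
    (fun j => ?_) (fun j => ?_) (fun j i i' h => ?_) (fun j i => ⟨?_, ?_, ?_⟩)
    (fun _ i => z N i + ((Real.log (Nat.nth Nat.Prime (k₀ + m * s + i)) : ℝ) : ℂ)) (fun j i => ?_)
  · refine FrE.mono ?_ (hD δ hδ).1
    exact hmain.comp (Equiv.uniqueProd (Fin m) (Fin 1)).symm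
  · rw [Complex.norm_natCast]
    exact size_window L C N hN1 hNL D hcase
  · exact Pool.Agent.R351.GD.ht_nat hN1
  · have h2 : ((Nat.nth Nat.Prime (k₀ + m * s + i) : ℂ) - N) =
      (Nat.nth Nat.Prime (k₀ + m * s + i') : ℂ) - N := h
    have h3 : (Nat.nth Nat.Prime (k₀ + m * s + i) : ℂ) = Nat.nth Nat.Prime (k₀ + m * s + i') :=
      sub_left_injective h2
    have h5 := Nat.nth_injective hprinf (Nat.cast_injective h3)
    exact Fin.ext (by omega)
  · rw [hSall]
    exact hbl i i.2
  · intro h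
    have h1 : (Nat.nth Nat.Prime (k₀ + m * s + i) : ℂ) = N := sub_eq_zero.1 h
    have h2 : Nat.nth Nat.Prime (k₀ + m * s + i) = N := Nat.cast_injective h1
    have := (hpr i).1
    omega
  · have h1 := Pool.Agent.R351.GD.adm_int (d := 1) (H := L) le_rfl
      (b := (Nat.nth Nat.Prime (k₀ + m * s + i) : ℤ) - N) (by have := (hpr i).1; omega) (by
        rw [abs_of_nonneg (by have := (hpr i).1; omega)]
        have := (hpr i).2
        omega)
    push_cast at h1
    exact h1
  · have h1 : (0 : ℝ) < Nat.nth Nat.Prime (k₀ + m * s + i) := by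
      have := (hpr i).1
      exact_mod_cast (show 0 < Nat.nth Nat.Prime (k₀ + m * s + i) by omega)
    rw [Complex.exp_add, ← Complex.ofReal_exp, Real.exp_log h1]
    push_cast
    ring

end Pool.Agent.Run7.h643.MW
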