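import Mathlib
import Pool.Agent.H362R2.CM.Final
import Pool.Agent.Run7.h643.MW.Clu

/-!
# Consecutive primes in bounded intervals and a window theorem
-/

set_option autoImplicit false

namespace Pool.Agent.Run7.h643.MW

open Finset

/-- **Consecutive primes.** Let a window theorem be given, with at most `e` exceptions in the window `N + 1, …, N + L` for
`(L + 2) ^ ((δ + 2) ^ C) ≤ N`. Then there are infinitely many intervals of bounded length which contain `m` consecutive
primes to which it applies. -/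
theorem runs (m e C : ℕ) (hm : 1 ≤ m) : ∃ L : ℕ, ∀ (Good : ℕ → ℕ → (Fin m → ℕ) → Prop),
    (∀ N δ δ' n, Good N δ n → δ' ≤ δ → Good N δ' n) →
    (∀ (N δ : ℕ), 1 ≤ N → ((L : ℝ) + 2) ^ ((δ + 2) ^ C) ≤ N → ∃ S : Finset ℕ, S.card ≤ e ∧
      ∀ n : Fin m → ℕ, Function.Injective n → (∀ i, 1 ≤ n i ∧ n i ≤ L ∧ n i ∉ S) → Good N δ n) →
    {N : ℕ | ∃ k : ℕ, (∀ i : Fin m, N < Nat.nth Nat.Prime (k + i) ∧ Nat.nth Nat.Prime (k + i) ≤ N + L) ∧
      ∀ δ : ℕ, ((δ : ℝ) + 2) ^ (C + 1) ≤ Real.log N →
        Good N δ fun i : Fin m => Nat.nth Nat.Prime (k + i) - N}.Infinite := by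
  classical
  obtain ⟨L, hL⟩ := prime_clusters (m * (e + 1))
  refine ⟨L, fun Good hmono hwin => ?_⟩
  set n0 : ℕ := 1 + ⌈Real.exp (Real.log ((L : ℝ) + 2) ^ (C + 1))⌉₊ with hn0
  have hinf : ({N : ℕ | m * (e + 1) ≤ ((Finset.Icc (N + 1) (N + L)).filter Nat.Prime).card} \
      ((range n0 : Finset ℕ) : Set ℕ)).Infinite := hL.sdiff (Finset.finite_toSet _)
  refine hinf.mono fun N hN => ?_
  have hN0 : n0 ≤ N := by
    have h2 := hN.2
    rw [mem_coe, mem_range] at h2
    omega
  have hN1 : 1 ≤ N := by omega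
  have hNpos : (0 : ℝ) < N := by exact_mod_cast hN1
  have hcnt : m * (e + 1) ≤ ((Finset.Icc (N + 1) (N + L)).filter Nat.Prime).card := hN.1
  have hNL : Real.log ((L : ℝ) + 2) ^ (C + 1) ≤ Real.log N := by
    rw [Real.le_log_iff_exp_le hNpos]
    refine (Nat.le_ceil _).trans ?_
    have h1 : ⌈Real.exp (Real.log ((L : ℝ) + 2) ^ (C + 1))⌉₊ ≤ N := by omega
    exact Nat.cast_le.2 h1
  -- the primes
  have hprinf : (Set.ofPred Nat.Prime).Infinite := Nat.infinite_setOfPred_prime
  set k₀ := Nat.count Nat.Prime (N + 1) with hk₀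
  have hcount : k₀ + m * (e + 1) ≤ Nat.count Nat.Prime (N + L + 1) := by
    have h1 : Nat.count Nat.Prime (N + 1) + ((Finset.Icc (N + 1) (N + L)).filter Nat.Prime).card ≤
        Nat.count Nat.Prime (N + L + 1) := by
      rw [Nat.count_eq_card_filter_range, Nat.count_eq_card_filter_range, ← Finset.card_union_of_disjoint]
      · refine Finset.card_le_card fun a ha => ?_
        rw [Finset.mem_union, Finset.mem_filter, Finset.mem_filter, Finset.mem_range, Finset.mem_Icc] at ha
        rw [Finset.mem_filter, Finset.mem_range]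
        rcases ha with ha | ha
        · exact ⟨by omega, ha.2⟩
        · exact ⟨by omega, ha.2⟩
      · rw [Finset.disjoint_left]
        intro a ha hb
        rw [Finset.mem_filter, Finset.mem_range] at ha
        rw [Finset.mem_filter, Finset.mem_Icc] at hb
        omega
    omega
  have hprime : ∀ i < m * (e + 1), N + 1 ≤ Nat.nth Nat.Prime (k₀ + i) ∧
      Nat.nth Nat.Prime (k₀ + i) ≤ N + L := by
    intro i hi
    constructor
    · exact (Nat.count_le_iff_le_nth hprinf).1 (by omega)
    · have h1 : Nat.nth Nat.Prime (k₀ + i) < N + L + 1 :=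
        (Nat.lt_nth_iff_count_lt hprinf).1 (by omega)
      omega
  -- the exceptional set
  obtain ⟨D, hD⟩ := max_deg C N
  by_cases hcase : ((D : ℝ) + 2) ^ (C + 1) ≤ Real.log N
  swap
  · refine ⟨k₀, fun i => ?_, fun δ hδ => absurd (hD δ hδ).2 hcase⟩
    have h1 := hprime i (lt_of_lt_of_le i.2 (Nat.le_mul_of_pos_right m (by omega)))
    exact ⟨by omega, h1.2⟩
  obtain ⟨S, hS1, hS2⟩ := hwin N D hN1 (size_window L C N hN1 hNL D hcase)
  -- a block without exceptions
  have hblock : ∃ s ∈ range (e + 1), ∀ i < m, Nat.nth Nat.Prime (k₀ + m * s + i) - N ∉ S := by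
    by_contra hcon
    push Not at hcon
    choose! f hf1 hf2 using hcon
    have h1 : (range (e + 1)).card ≤ S.card := by
      refine Finset.card_le_card_of_injOn (fun s => Nat.nth Nat.Prime (k₀ + m * s + f s) - N)
        (fun s hs => hf2 s (mem_coe.1 hs)) (fun s hs s' hs' h => ?_)
      have h2 : Nat.nth Nat.Prime (k₀ + m * s + f s) - N = Nat.nth Nat.Prime (k₀ + m * s' + f s') - N := h
      have h6 := hf1 s (mem_coe.1 hs)
      have h7 := hf1 s' (mem_coe.1 hs')
      have hlt : ∀ s ∈ range (e + 1), ∀ a < m, m * s + a < m * (e + 1) := by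
        intro s hs a ha
        rw [mem_range] at hs
        calc m * s + a < m * s + m := by omega
          _ = m * (s + 1) := by ring
          _ ≤ m * (e + 1) := Nat.mul_le_mul_left m hs
      have h8 := (hprime _ (hlt s (mem_coe.1 hs) _ h6)).1
      have h9 := (hprime _ (hlt s' (mem_coe.1 hs') _ h7)).1
      rw [← add_assoc] at h8 h9
      have h4 : Nat.nth Nat.Prime (k₀ + m * s + f s) = Nat.nth Nat.Prime (k₀ + m * s' + f s') := by omega
      have h5 : k₀ + m * s + f s = k₀ + m * s' + f s' := Nat.nth_injective hprinf h4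
      have h10 : f s + m * s = f s' + m * s' := by omega
      have h11 := congrArg (· / m) h10
      simp only [Nat.add_mul_div_left _ _ hm, Nat.div_eq_of_lt h6, Nat.div_eq_of_lt h7, zero_add] at h11
      exact h11
    rw [card_range] at h1
    omega
  obtain ⟨s, hs, hbl⟩ := hblock
  rw [mem_range] at hs
  have hpr : ∀ i : Fin m, N + 1 ≤ Nat.nth Nat.Prime (k₀ + m * s + i) ∧
      Nat.nth Nat.Prime (k₀ + m * s + i) ≤ N + L := by
    intro i
    rw [add_assoc]
    refine hprime _ ?_
    calc m * s + i < m * s + m := by have := i.2; omega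
      _ = m * (s + 1) := by ring
      _ ≤ m * (e + 1) := Nat.mul_le_mul_left m (by omega)
  refine ⟨k₀ + m * s, fun i => ⟨by have := (hpr i).1; omega, (hpr i).2⟩, fun δ hδ => ?_⟩
  refine hmono N D δ _ (hS2 _ (fun i i' h => ?_) fun i => ⟨?_, ?_, ?_⟩) (hD δ hδ).1
  · have h1 := (hpr i).1
    have h2 := (hpr i').1
    have h3 : Nat.nth Nat.Prime (k₀ + m * s + i) - N = Nat.nth Nat.Prime (k₀ + m * s + i') - N := h
    have h4 : Nat.nth Nat.Prime (k₀ + m * s + i) = Nat.nth Nat.Prime (k₀ + m * s + i') := by omega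
    have h5 := Nat.nth_injective hprinf h4
    exact Fin.ext (by omega)
  · have := (hpr i).1
    show 1 ≤ Nat.nth Nat.Prime (k₀ + m * s + i) - N
    omega
  · have := (hpr i).2
    show Nat.nth Nat.Prime (k₀ + m * s + i) - N ≤ L
    omega
  · exact hbl i i.2

open scoped IntermediateField.algebraAdjoinAdjoin in
/-- the transcendence degree of a field generated by finitely many numbers -/
theorem trdeg_adj {υ : Type} [Fintype υ] (u : υ → ℂ) :
    Algebra.trdeg ℚ (IntermediateField.adjoin ℚ (Set.range u)) ≤ (Fintype.card υ : Cardinal) := by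
  classical
  set A := IntermediateField.adjoin ℚ (Set.range u) with hA
  set S := Algebra.adjoin ℚ (Set.range u) with hS
  have h0 : Algebra.trdeg S A = 0 := trdeg_eq_zero
  have h3 := trdeg_add_eq (R := ℚ) (S := S) (A := A)
  rw [h0, add_zero] at h3
  rw [← h3]
  -- surjection from the polynomial ring
  have h4 : Algebra.trdeg ℚ (MvPolynomial υ ℚ) = (Fintype.card υ : Cardinal) := by
    rw [MvPolynomial.trdeg_of_isDomain]
    simp
  rw [← h4]
  have hmem : ∀ p : MvPolynomial υ ℚ, MvPolynomial.aeval u p ∈ S := by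
    intro p
    have h5 : (MvPolynomial.aeval (R := ℚ) u).range = S := (Algebra.adjoin_range_eq_range_aeval ℚ u).symm
    rw [← h5]
    exact ⟨p, rfl⟩
  refine trdeg_le_of_surjective ((MvPolynomial.aeval (R := ℚ) u).codRestrict S hmem) ?_
  rintro ⟨x, hx⟩
  have h5 : (MvPolynomial.aeval (R := ℚ) u).range = S := (Algebra.adjoin_range_eq_range_aeval ℚ u).symm
  rw [← h5] at hx
  obtain ⟨p, hp⟩ := hx
  exact ⟨p, Subtype.ext hp⟩

end Pool.Agent.Run7.h643.MW
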