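import Mathlib
import Pool.Agent.Run7.h643.MW.Runs

/-!
# Consecutive primes in several intervals and a theorem on successive windows
-/

set_option autoImplicit false

namespace Pool.Agent.Run7.h643.MW

open Finset

/-- a run of consecutive primes which avoids a small set -/
theorem run_avoid (m e L N : ℕ) (hm : 1 ≤ m)
    (hcnt : m * (e + 1) ≤ ((Finset.Icc (N + 1) (N + L)).filter Nat.Prime).card) (S : Finset ℕ) (hS : S.card ≤ e) :
    ∃ k : ℕ, ∀ i < m, N + 1 ≤ Nat.nth Nat.Prime (k + i) ∧ Nat.nth Nat.Prime (k + i) ≤ N + L ∧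
      Nat.nth Nat.Prime (k + i) - N ∉ S := by
  classical
  have hprinf : (Set.ofPred Nat.Prime).Infinite := Nat.infinite_setOfPred_prime
  set k₀ := Nat.count Nat.Prime (N + 1) with hk₀
  have hcount : k₀ + m * (e + 1) ≤ Nat.count Nat.Prime (N + L + 1) := by
    have h1 : Nat.count Nat.Prime (N + 1) + ((Finset.Icc (N + 1) (N + L)).filter Nat.Prime).card ≤
        Nat.count Nat.Prime (N + L + 1) := by
      rw [Nat.count_eq_card_filter_range, Nat.count_eq_card_filter_range, ← Finset.card_union_of_disjoint]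
      · refine Finset.card_le_card fun a ha => ?_
        rw [Finset.mem_union, Finset.mem_filter, Finset.mem_filter, Finset.mem_range, Finset.mem_Icc] at ha
        rw [Finset.mem_filter, Finset.mem_range]
        rcases ha with ha | ha
        · exact ⟨by omega, ha.2⟩
        · exact ⟨by omega, ha.2⟩
      · rw [Finset.disjoint_left]
        intro a ha hb
        rw [Finset.mem_filter, Finset.mem_range] at ha
        rw [Finset.mem_filter, Finset.mem_Icc] at hb
        omega
    omega
  have hprime : ∀ i < m * (e + 1), N + 1 ≤ Nat.nth Nat.Prime (k₀ + i) ∧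
      Nat.nth Nat.Prime (k₀ + i) ≤ N + L := by
    intro i hi
    constructor
    · exact (Nat.count_le_iff_le_nth hprinf).1 (by omega)
    · have h1 : Nat.nth Nat.Prime (k₀ + i) < N + L + 1 :=
        (Nat.lt_nth_iff_count_lt hprinf).1 (by omega)
      omega
  have hblock : ∃ s ∈ range (e + 1), ∀ i < m, Nat.nth Nat.Prime (k₀ + m * s + i) - N ∉ S := by
    by_contra hcon
    push Not at hcon
    choose! f hf1 hf2 using hcon
    have h1 : (range (e + 1)).card ≤ S.card := by
      refine Finset.card_le_card_of_injOn (fun s => Nat.nth Nat.Prime (k₀ + m * s + f s) - N)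
        (fun s hs => hf2 s (mem_coe.1 hs)) (fun s hs s' hs' h => ?_)
      have h2 : Nat.nth Nat.Prime (k₀ + m * s + f s) - N = Nat.nth Nat.Prime (k₀ + m * s' + f s') - N := h
      have h6 := hf1 s (mem_coe.1 hs)
      have h7 := hf1 s' (mem_coe.1 hs')
      have hlt : ∀ s ∈ range (e + 1), ∀ a < m, m * s + a < m * (e + 1) := by
        intro s hs a ha
        rw [mem_range] at hs
        calc m * s + a < m * s + m := by omega
          _ = m * (s + 1) := by ring
          _ ≤ m * (e + 1) := Nat.mul_le_mul_left m hs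
      have h8 := (hprime _ (hlt s (mem_coe.1 hs) _ h6)).1
      have h9 := (hprime _ (hlt s' (mem_coe.1 hs') _ h7)).1
      rw [← add_assoc] at h8 h9
      have h4 : Nat.nth Nat.Prime (k₀ + m * s + f s) = Nat.nth Nat.Prime (k₀ + m * s' + f s') := by omega
      have h5 : k₀ + m * s + f s = k₀ + m * s' + f s' := Nat.nth_injective hprinf h4
      have h10 : f s + m * s = f s' + m * s' := by omega
      have h11 := congrArg (· / m) h10
      simp only [Nat.add_mul_div_left _ _ hm, Nat.div_eq_of_lt h6, Nat.div_eq_of_lt h7, zero_add] at h11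
      exact h11
    rw [card_range] at h1
    omega
  obtain ⟨s, hs, hbl⟩ := hblock
  rw [mem_range] at hs
  refine ⟨k₀ + m * s, fun i hi => ?_⟩
  have h := hprime (m * s + i) (by
    calc m * s + i < m * s + m := by omega
      _ = m * (s + 1) := by ring
      _ ≤ m * (e + 1) := Nat.mul_le_mul_left m (by omega))
  rw [← add_assoc] at h
  exact ⟨h.1, h.2, hbl i hi⟩

/-- **Consecutive primes in several intervals.** There are a number `L` and an infinite set `M` such that for all `N_j` in
`M`, `j < t`, and every theorem on successive windows with at most `e` exceptions in each window `N_j + 1, …, N_j + L`,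
it applies to `m` consecutive primes in each of the windows. -/
theorem runsM (m e C : ℕ) (hm : 1 ≤ m) : ∃ (L : ℕ) (M : Set ℕ), M.Infinite ∧ ∀ (t : ℕ) (N : Fin t → ℕ),
    (∀ j, N j ∈ M) → ∀ (Good : ℕ → (Fin t → Fin m → ℕ) → Prop),
    (∀ δ δ' n, Good δ n → δ' ≤ δ → Good δ' n) →
    (∀ δ : ℕ, (∀ j, ((L : ℝ) + 2) ^ ((δ + 2) ^ C) ≤ N j) → ∃ S : Fin t → (Fin t → Fin m → ℕ) → Finset ℕ,
      (∀ j n, (S j n).card ≤ e) ∧ (∀ j n n', (∀ i, i < j → n i = n' i) → S j n = S j n') ∧
      ∀ n : Fin t → Fin m → ℕ, (∀ j, Function.Injective (n j)) → (∀ j i, 1 ≤ n j i ∧ n j i ≤ L ∧ n j i ∉ S j n) →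
        Good δ n) →
    ∃ k : Fin t → ℕ, (∀ j (i : Fin m), N j < Nat.nth Nat.Prime (k j + i) ∧ Nat.nth Nat.Prime (k j + i) ≤ N j + L) ∧
      (0 < t → ∀ δ : ℕ, (∀ j, ((δ : ℝ) + 2) ^ (C + 1) ≤ Real.log (N j)) →
        Good δ fun j i => Nat.nth Nat.Prime (k j + i) - N j) := by
  classical
  obtain ⟨L, hL⟩ := prime_clusters (m * (e + 1))
  set n0 : ℕ := 1 + ⌈Real.exp (Real.log ((L : ℝ) + 2) ^ (C + 1))⌉₊ with hn0
  refine ⟨L, {N : ℕ | m * (e + 1) ≤ ((Finset.Icc (N + 1) (N + L)).filter Nat.Prime).card} \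
      ((range n0 : Finset ℕ) : Set ℕ), hL.sdiff (Finset.finite_toSet _), fun t N hN Good hmono hwin => ?_⟩
  have hN0 : ∀ j, n0 ≤ N j := by
    intro j
    have h2 := (hN j).2
    rw [mem_coe, mem_range] at h2
    omega
  have hN1 : ∀ j, 1 ≤ N j := fun j => by
    have := hN0 j
    omega
  have hcnt : ∀ j, m * (e + 1) ≤ ((Finset.Icc (N j + 1) (N j + L)).filter Nat.Prime).card := fun j => (hN j).1
  have hNL : ∀ j, Real.log ((L : ℝ) + 2) ^ (C + 1) ≤ Real.log (N j) := by
    intro j
    rw [Real.le_log_iff_exp_le (by exact_mod_cast hN1 j)]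
    refine (Nat.le_ceil _).trans ?_
    have h1 : ⌈Real.exp (Real.log ((L : ℝ) + 2) ^ (C + 1))⌉₊ ≤ N j := by
      have := hN0 j
      omega
    exact Nat.cast_le.2 h1
  rcases Nat.eq_zero_or_pos t with ht | ht
  · subst ht
    exact ⟨fun j => j.elim0, fun j => j.elim0, fun h => absurd h (lt_irrefl 0)⟩
  -- the smallest of the numbers
  obtain ⟨j₀, -, hj₀⟩ := Finset.exists_min_image (Finset.univ : Finset (Fin t)) N ⟨⟨0, ht⟩, Finset.mem_univ _⟩
  obtain ⟨D, hD⟩ := max_deg C (N j₀)
  by_cases hcase : ((D : ℝ) + 2) ^ (C + 1) ≤ Real.log (N j₀)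
  swap
  · have h1 := fun j => run_avoid m e L (N j) hm (hcnt j) ∅ (by simp)
    choose k hk using h1
    refine ⟨k, fun j i => ⟨?_, (hk j i i.2).2.1⟩, fun _ δ hδ => absurd (hD δ (hδ j₀)).2 hcase⟩
    have := (hk j i i.2).1
    omega
  have hsize : ∀ j, ((L : ℝ) + 2) ^ ((D + 2) ^ C) ≤ N j := by
    intro j
    refine (size_window L C (N j₀) (hN1 j₀) (hNL j₀) D hcase).trans ?_
    exact_mod_cast hj₀ j (Finset.mem_univ _)
  obtain ⟨S, hS1, hS2, hS3⟩ := hwin D hsize
  -- the choice of the runs, one after the other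
  have hchoose : ∀ s ≤ t, ∃ k : Fin t → ℕ, ∀ j : Fin t, (j : ℕ) < s → ∀ i < m,
      N j + 1 ≤ Nat.nth Nat.Prime (k j + i) ∧ Nat.nth Nat.Prime (k j + i) ≤ N j + L ∧
      Nat.nth Nat.Prime (k j + i) - N j ∉ S j (fun a b => Nat.nth Nat.Prime (k a + b) - N a) := by
    intro s
    induction s with
    | zero => exact fun _ => ⟨fun _ => 0, fun j hj => absurd hj (Nat.not_lt_zero _)⟩
    | succ s ih =>
      intro hs
      obtain ⟨k, hk⟩ := ih (by omega)
      obtain ⟨k', hk'⟩ := run_avoid m e L (N ⟨s, hs⟩) hm (hcnt _)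
        (S ⟨s, hs⟩ (fun a b => Nat.nth Nat.Prime (k a + b) - N a)) (hS1 _ _)
      have hagree : ∀ j : Fin t, (j : ℕ) ≤ s → S j (fun a b => Nat.nth Nat.Prime (Function.update k ⟨s, hs⟩ k' a + b) - N a) =
          S j (fun a b => Nat.nth Nat.Prime (k a + b) - N a) := by
        intro j hj
        refine hS2 _ _ _ fun i hi => ?_
        have h1 : i ≠ ⟨s, hs⟩ := by
          intro h
          rw [h] at hi
          have h2 : s < (j : ℕ) := hi
          omega
        funext b
        rw [Function.update_of_ne h1]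
      refine ⟨Function.update k ⟨s, hs⟩ k', fun j hj i hi => ?_⟩
      rw [hagree j (by omega)]
      rcases Nat.lt_or_ge (j : ℕ) s with h | h
      · have h1 : j ≠ ⟨s, hs⟩ := by
          intro h2
          rw [h2] at h
          exact absurd h (lt_irrefl s)
        rw [Function.update_of_ne h1]
        exact hk j h i hi
      · have h1 : j = ⟨s, hs⟩ := Fin.ext (by
          show (j : ℕ) = s
          omega)
        subst h1
        rw [Function.update_self]
        exact hk' i hi
  obtain ⟨k, hk⟩ := hchoose t le_rfl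
  refine ⟨k, fun j i => ⟨?_, (hk j j.2 i i.2).2.1⟩, fun _ δ hδ => ?_⟩
  · have := (hk j j.2 i i.2).1
    omega
  have hprinf : (Set.ofPred Nat.Prime).Infinite := Nat.infinite_setOfPred_prime
  refine hmono D δ _ (hS3 _ (fun j i i' h => ?_) fun j i => ⟨?_, ?_, ?_⟩) (hD δ (hδ j₀)).1
  · have h1 := (hk j j.2 i i.2).1
    have h2 := (hk j j.2 i' i'.2).1
    have h3 : Nat.nth Nat.Prime (k j + i) - N j = Nat.nth Nat.Prime (k j + i') - N j := h
    have h4 : Nat.nth Nat.Prime (k j + i) = Nat.nth Nat.Prime (k j + i') := by omega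
    have h5 := Nat.nth_injective hprinf h4
    exact Fin.ext (by omega)
  · have := (hk j j.2 i i.2).1
    show 1 ≤ Nat.nth Nat.Prime (k j + i) - N j
    omega
  · have := (hk j j.2 i i.2).2.1
    show Nat.nth Nat.Prime (k j + i) - N j ≤ L
    omega
  · exact (hk j j.2 i i.2).2.2

end Pool.Agent.Run7.h643.MW
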