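import Mathlib
import Pool.Agent.R351.GD.H.Coo

/-!
# From coordinates to points of torsors, for blocks of different types
-/

set_option autoImplicit false

namespace Pool.Agent.Run7.h643.MX

open Pool.Agent.R351.GD.H (hmg hmg_ev hmg_deg)

section
variable {Λ : Type} {υ : Type} {σ ρ : Λ → Type} {F : IntermediateField ℚ ℂ}

/-- the variables of one block -/
noncomputable def eb (l : Λ) (A : MvPolynomial (υ ⊕ σ l) F) : MvPolynomial (υ ⊕ (Σ l, σ l)) F :=
  MvPolynomial.rename (Sum.map id (Sigma.mk l)) A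

theorem eb_deg (l : Λ) (A : MvPolynomial (υ ⊕ σ l) F) : (eb l A).totalDegree ≤ A.totalDegree :=
  MvPolynomial.totalDegree_rename_le _ _

theorem eb_ev (l : Λ) (A : MvPolynomial (υ ⊕ σ l) F) (w : υ → ℂ) (y : (Σ l, σ l) → ℂ) :
    MvPolynomial.aeval (Sum.elim w y) (eb l A) = MvPolynomial.aeval (Sum.elim w fun s => y ⟨l, s⟩) A := by
  unfold eb
  rw [MvPolynomial.aeval_rename]
  congr 2
  funext v
  rcases v with v | v <;> rfl

variable [Fintype Λ] [DecidableEq Λ]

/-- **from the coordinates to the points of the torsors** -/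
theorem alg_mix (w : υ → ℂ) (D : ∀ l, MvPolynomial (υ ⊕ σ l) F) (N : ∀ l, ρ l → MvPolynomial (υ ⊕ σ l) F) (c : ℕ)
    (hD : ∀ l, (D l).totalDegree ≤ c) (hN : ∀ l p, (N l p).totalDegree ≤ c) (Tor : ∀ l, Set (ρ l → ℂ))
    (hdens : ∀ l, ∀ Q : MvPolynomial (ρ l) ℂ, (∀ (y : σ l → ℂ) (Z : ρ l → ℂ),
      MvPolynomial.aeval (Sum.elim w y) (D l) ≠ 0 → (∀ p, MvPolynomial.aeval (Sum.elim w y) (N l p) =
        MvPolynomial.aeval (Sum.elim w y) (D l) * Z p) → MvPolynomial.aeval Z Q = 0) →
      ∀ Z ∈ Tor l, MvPolynomial.aeval Z Q = 0)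
    (y₀ : ∀ l, σ l → ℂ) (Z₀ : ∀ l, ρ l → ℂ)
    (hZ₀ : ∀ l p, MvPolynomial.aeval (Sum.elim w (y₀ l)) (N l p) =
      MvPolynomial.aeval (Sum.elim w (y₀ l)) (D l) * Z₀ l p)
    (δ : ℕ) (hfree : ∀ P' : MvPolynomial (υ ⊕ (Σ l, σ l)) F,
      P'.totalDegree ≤ δ * ((Fintype.card Λ + 1) * (c + 1)) →
      MvPolynomial.aeval (Sum.elim w fun q : (Σ l, σ l) => y₀ q.1 q.2) P' = 0 →
      ∀ y, MvPolynomial.aeval (Sum.elim w y) P' = 0)
    (P : MvPolynomial (υ ⊕ (Σ l, ρ l)) F) (hP : P.totalDegree ≤ δ)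
    (hP0 : MvPolynomial.aeval (Sum.elim w fun q : (Σ l, ρ l) => Z₀ q.1 q.2) P = 0)
    (Z : ∀ l, ρ l → ℂ) (hZ : ∀ l, Z l ∈ Tor l) :
    MvPolynomial.aeval (Sum.elim w fun q : (Σ l, ρ l) => Z q.1 q.2) P = 0 := by
  classical
  set c' : ℕ := (Fintype.card Λ + 1) * (c + 1) with hc'
  set DD : MvPolynomial (υ ⊕ (Σ l, σ l)) F := ∏ l, eb l (D l) with hDD
  set xx : υ ⊕ (Σ l, ρ l) → MvPolynomial (υ ⊕ (Σ l, σ l)) F := Sum.elim (fun v => DD * MvPolynomial.X (Sum.inl v))
    fun q => (∏ l' ∈ Finset.univ.erase q.1, eb l' (D l')) * eb q.1 (N q.1 q.2) with hxx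
  have hprod : ∀ T : Finset Λ, (∏ l ∈ T, eb l (D l)).totalDegree ≤ Fintype.card Λ * c := by
    intro T
    refine (MvPolynomial.totalDegree_finsetProd _ _).trans ?_
    refine (Finset.sum_le_card_nsmul _ _ c fun l _ => (eb_deg l _).trans (hD l)).trans ?_
    rw [smul_eq_mul]
    exact Nat.mul_le_mul_right _ (Finset.card_le_univ T)
  have hDDd : DD.totalDegree ≤ c' := by
    refine (hprod Finset.univ).trans ?_
    rw [hc']
    nlinarith
  have hxd : ∀ s, (xx s).totalDegree ≤ c' := by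
    rintro (v | q)
    · refine (MvPolynomial.totalDegree_mul _ _).trans ?_
      rw [MvPolynomial.totalDegree_X]
      have h1 := hprod Finset.univ
      rw [hc']
      nlinarith
    · refine (MvPolynomial.totalDegree_mul _ _).trans ?_
      have h1 := hprod (Finset.univ.erase q.1)
      have h2 := (eb_deg q.1 (N q.1 q.2)).trans (hN q.1 q.2)
      rw [hc']
      nlinarith
  have hDe : ∀ y : (Σ l, σ l) → ℂ, MvPolynomial.aeval (Sum.elim w y) DD =
      ∏ l, MvPolynomial.aeval (Sum.elim w fun s => y ⟨l, s⟩) (D l) := by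
    intro y
    rw [hDD, map_prod]
    exact Finset.prod_congr rfl fun l _ => eb_ev l _ w y
  have hxe : ∀ (y : (Σ l, σ l) → ℂ) (z : ∀ l, ρ l → ℂ), (∀ l p, MvPolynomial.aeval (Sum.elim w fun s => y ⟨l, s⟩) (N l p) =
      MvPolynomial.aeval (Sum.elim w fun s => y ⟨l, s⟩) (D l) * z l p) → ∀ s,
      MvPolynomial.aeval (Sum.elim w y) (xx s) = MvPolynomial.aeval (Sum.elim w y) DD *
        Sum.elim w (fun q : (Σ l, ρ l) => z q.1 q.2) s := by
    intro y z hz s
    rcases s with v | ⟨l, p⟩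
    · show MvPolynomial.aeval _ (DD * MvPolynomial.X (Sum.inl v)) = _
      rw [map_mul, MvPolynomial.aeval_X]
      rfl
    · show MvPolynomial.aeval _ ((∏ l' ∈ Finset.univ.erase l, eb l' (D l')) * eb l (N l p)) = _ * z l p
      rw [map_mul, eb_ev, hz, hDD, ← Finset.prod_erase_mul _ _ (Finset.mem_univ l), map_mul, eb_ev]
      ring
  have hall := hfree (hmg δ P DD xx) (hmg_deg hP hDDd hxd) (by
    rw [hmg_ev hP _ _ (hxe (fun q => y₀ q.1 q.2) Z₀ hZ₀), hP0, mul_zero])
  have hopen : ∀ (y : ∀ l, σ l → ℂ) (z : ∀ l, ρ l → ℂ), (∀ l, MvPolynomial.aeval (Sum.elim w (y l)) (D l) ≠ 0) →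
      (∀ l p, MvPolynomial.aeval (Sum.elim w (y l)) (N l p) = MvPolynomial.aeval (Sum.elim w (y l)) (D l) * z l p) →
      MvPolynomial.aeval (Sum.elim w fun q : (Σ l, ρ l) => z q.1 q.2) P = 0 := by
    intro y z hy hz
    have h1 := hall fun q => y q.1 q.2
    rw [hmg_ev hP _ _ (hxe (fun q => y q.1 q.2) z hz)] at h1
    refine (mul_eq_zero.1 h1).resolve_left (pow_ne_zero _ ?_)
    rw [hDe]
    exact Finset.prod_ne_zero_iff.2 fun l _ => hy l
  -- one block after the other
  have hind : ∀ T : Finset Λ, ∀ (y : ∀ l, σ l → ℂ) (z : ∀ l, ρ l → ℂ), (∀ l, l ∈ T → z l ∈ Tor l) →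
      (∀ l, l ∉ T → MvPolynomial.aeval (Sum.elim w (y l)) (D l) ≠ 0 ∧
        ∀ p, MvPolynomial.aeval (Sum.elim w (y l)) (N l p) = MvPolynomial.aeval (Sum.elim w (y l)) (D l) * z l p) →
      MvPolynomial.aeval (Sum.elim w fun q : (Σ l, ρ l) => z q.1 q.2) P = 0 := by
    intro T
    induction T using Finset.induction_on with
    | empty =>
      intro y z _ h
      exact hopen y z (fun l => (h l (Finset.notMem_empty l)).1) fun l => (h l (Finset.notMem_empty l)).2
    | insert l T hl ih =>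
      intro y z hz h
      set L : υ ⊕ (Σ l, ρ l) → MvPolynomial (ρ l) ℂ := Sum.elim (fun v => MvPolynomial.C (w v)) fun q =>
        if h : q.1 = l then MvPolynomial.X (h ▸ q.2) else MvPolynomial.C (z q.1 q.2) with hL
      have hQ : ∀ x : ρ l → ℂ, MvPolynomial.aeval x (MvPolynomial.aeval L P) =
          MvPolynomial.aeval (Sum.elim w fun q : (Σ l, ρ l) => (Function.update z l x) q.1 q.2) P := by
        intro x
        have h0 := MvPolynomial.comp_aeval_apply (f := L) ((MvPolynomial.aeval x :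
          MvPolynomial (ρ l) ℂ →ₐ[ℂ] ℂ).restrictScalars F) P
        rw [AlgHom.restrictScalars_apply] at h0
        rw [h0]
        congr 2
        funext o
        rcases o with v | ⟨i, p⟩
        · simp [hL]
        · simp only [hL, Sum.elim_inr, AlgHom.restrictScalars_apply]
          by_cases hi : i = l
          · subst hi
            rw [dif_pos rfl, MvPolynomial.aeval_X, Function.update_self]
          · rw [dif_neg hi, MvPolynomial.aeval_C, Function.update_of_ne hi]
            rfl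
      have h1 := hdens l (MvPolynomial.aeval L P) (fun yl Zl hyl hZl => by
        rw [hQ]
        refine ih (Function.update y l yl) (Function.update z l Zl) (fun i hi => ?_) fun i hi => ?_
        · have hne : i ≠ l := fun h => hl (h ▸ hi)
          rw [Function.update_of_ne hne]
          exact hz i (Finset.mem_insert_of_mem hi)
        · by_cases hne : i = l
          · subst hne
            rw [Function.update_self, Function.update_self]
            exact ⟨hyl, hZl⟩
          · rw [Function.update_of_ne hne, Function.update_of_ne hne]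
            exact h i (by
              rw [Finset.mem_insert]
              push Not
              exact ⟨hne, hi⟩)) (z l) (hz l (Finset.mem_insert_self l T))
      rw [hQ, Function.update_eq_self] at h1
      exact h1
  exact hind Finset.univ y₀ Z (fun l _ => hZ l) fun l hl => absurd (Finset.mem_univ l) hl

end

end Pool.Agent.Run7.h643.MX
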