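import Mathlib
import Pool.Agent.Run7.h643.MW.Mix
import Pool.Agent.R351.GD.S.Win

/-!
# Successive windows of algebraic numbers for arbitrary systems of functions
-/

set_option autoImplicit false

namespace Pool.Agent.Run7.h643.MX

open Module Pool.Agent.Y916 Pool.Agent.Y916.Om Pool.Agent.R351.GD Pool.Agent.Y916.Sl

theorem pti_default {m : ℕ} (A : ℕ) (hm : 1 ≤ m) : Nonempty (PtI m A) := by
  refine ⟨⟨⊥, 1, 1, inferInstance, ?_, ⟨1, 1, isIntegral_one, isIntegral_one, one_ne_zero, by simp, fun σ => ?_⟩, ?_⟩⟩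
  · rw [IntermediateField.finrank_bot]; exact hm
  · simp
  · simp

theorem exists_pti {m : ℕ} (A : ℕ) (hm : 1 ≤ m) (c : ℂ) :
    ∃ i : PtI m (2 * A + 2), Al.Ht m A c → 2 ≤ ‖c‖ → (i.ξ : ℂ) = c := by
  by_cases h : Al.Ht m A c ∧ 2 ≤ ‖c‖
  · obtain ⟨⟨p, hp0, hpd, hpY, hp⟩, hc⟩ := h
    obtain ⟨K₁, ξ', h1, h2, h3, h4⟩ := Al.pt_root hp0 hpd hpY hp
    refine ⟨⟨K₁, ξ', ‖c‖ ^ A * (‖c‖ ^ A + 2), h1, h2, h4, ?_⟩, fun _ _ => h3⟩
    rw [h3]
    have h5 : (1 : ℝ) ≤ ‖c‖ ^ A := one_le_pow₀ (by linarith)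
    calc ‖c‖ ^ A * (‖c‖ ^ A + 2) ≤ ‖c‖ ^ A * (‖c‖ ^ A * ‖c‖ ^ 2) := by
          refine mul_le_mul_of_nonneg_left ?_ (by positivity)
          have h6 : (4 : ℝ) ≤ ‖c‖ ^ 2 := by nlinarith
          have h7 : ‖c‖ ^ A * 4 ≤ ‖c‖ ^ A * ‖c‖ ^ 2 := mul_le_mul_of_nonneg_left h6 (by positivity)
          linarith
      _ = ‖c‖ ^ (2 * A + 2) := by ring
  · obtain ⟨i⟩ := pti_default (m := m) (2 * A + 2) hm
    exact ⟨i, fun h1 h2 => absurd ⟨h1, h2⟩ h⟩

theorem finrank_sup {ι : Type} (K : ι → IntermediateField ℚ ℂ) (e : ι → ℕ) (hK : ∀ i, FiniteDimensional ℚ (K i))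
    (he : ∀ i, finrank ℚ (K i) ≤ e i) (s : Finset ι) :
    FiniteDimensional ℚ (s.sup K : IntermediateField ℚ ℂ) ∧
      finrank ℚ (s.sup K : IntermediateField ℚ ℂ) ≤ ∏ i ∈ s, e i := by
  classical
  induction s using Finset.induction_on with
  | empty =>
    rw [Finset.sup_empty, Finset.prod_empty]
    exact ⟨inferInstance, by rw [IntermediateField.finrank_bot]⟩
  | insert a s ha ih =>
    rw [Finset.sup_insert, Finset.prod_insert ha]
    have h1 := hK a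
    have h2 := ih.1
    exact ⟨inferInstance, (IntermediateField.finrank_sup_le _ _).trans (Nat.mul_le_mul (he a) ih.2)⟩

/-- **Successive windows** for arbitrary systems with a common system of constants -/
theorem mixU (s : ℕ) (r : Fin s → ℕ) (σ : Fin s → Type) [∀ j, Fintype (σ j)] [∀ j, DecidableEq (σ j)]
    (val : ∀ j, ℂ → ℕ → σ j → ℂ) (hval : ∀ j, InpE (val j)) (x : ∀ j, ℂ → σ j → ℂ) (Dm : Fin s → ℂ → Prop)
    {υ : Type} [Fintype υ] (u : υ → ℂ) (m : ℕ) (hm : 1 ≤ m) (e E₁ : Fin s → ℕ)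
    (hlink : ∀ j, LinkU (val j) (x j) (Dm j) u m (e j) (E₁ j)) (τ A : ℕ) :
    ∃ E : ℕ → ℕ, PB E ∧ ∀ (δ : ℕ) (w : Fin τ → ℂ) (H : Fin s → Ch r → ℕ) (ξ : Fin s → Ch r → ℂ),
      (∀ j g g', (∀ i, i < j → g i = g' i) → H j g = H j g' ∧ ξ j g = ξ j g') →
      ∃ S : Fin s → Ch r → Finset ℕ,
        (∀ j g, ((S j g).card : Cardinal) ≤ ((τ + 1 + ∑ i ∈ Finset.Iio j, r i * Fintype.card (σ i) : ℕ) : Cardinal) +
          Algebra.trdeg ℚ (IntermediateField.adjoin ℚ (Set.range u))) ∧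
        (∀ j g g', (∀ i, i < j → g i = g' i) → S j g = S j g') ∧
        ∀ g : Ch r, (∀ j, ((H j g : ℝ) + 2) ^ E δ ≤ ‖ξ j g‖) → (∀ j, Al.Ht m A (ξ j g)) →
          (∀ j, Function.Injective (g j)) →
          (∀ j i, 1 ≤ g j i ∧ g j i ≤ H j g ∧ g j i ∉ S j g ∧ Dm j (ξ j g + g j i)) →
          ∀ K : IntermediateField ℚ ℂ, FiniteDimensional ℚ K → finrank ℚ K ≤ δ →
          ∀ y : ∀ j, Fin (r j) × σ j → ℂ, (∀ j p, ∃ b : K, b ≠ 0 ∧ y j p - b * x j (ξ j g + g j p.1) p.2 ∈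
            Submodule.span K (insert 1 (Set.range (Sum.elim w u)))) →
          ∀ P : MvPolynomial ((Fin τ ⊕ υ) ⊕ (Σ j, Fin (r j) × σ j)) K, P.totalDegree ≤ δ →
            MvPolynomial.aeval (Sum.elim (Sum.elim w u) fun q : (Σ j, Fin (r j) × σ j) => y q.1 q.2) P = 0 →
            MvPolynomial.aeval (Sum.elim (fun j => MvPolynomial.C (Sum.elim w u j)) MvPolynomial.X) P =
              (0 : MvPolynomial (Σ j, Fin (r j) × σ j) ℂ) := by
  classical
  obtain ⟨T, hTc, hT⟩ := Om.exists_base u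
  obtain ⟨A', B', hAB⟩ := Om.Dom.exists u T hT
  choose Ev hEvp hEv using fun j => inpE_I (hval j) m (2 * A + 2)
  obtain ⟨E, hEp, hE⟩ := mix s r σ (fun _ => Unit) Ev hEvp (τ + T.card) A' B'
  obtain ⟨pti, hpti⟩ : ∃ pti : ℂ → PtI m (2 * A + 2), ∀ c, Al.Ht m A c → 2 ≤ ‖c‖ → ((pti c).ξ : ℂ) = c :=
    ⟨fun c => (exists_pti A hm c).choose, fun c => (exists_pti A hm c).choose_spec⟩
  choose K₀ hK₀f hK₀e w₀ hK₀ using fun (j : Fin s) (i : PtI m (2 * A + 2)) => hlink j i.K i.ξ i.fd i.rk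
  set Q₀ : ℕ := ∏ j, e j with hQQ
  refine ⟨fun δ => (∑ j, E₁ j) + E (δ * Q₀ + δ) + 1,
    ((PB.const (∑ j, E₁ j)).add (hEp.comp ((PB.id.mul (PB.const Q₀)).add PB.id))).add (PB.const 1), ?_⟩
  intro δ w H ξ hdep
  set w' : Fin τ ⊕ υ → ℂ := Sum.elim w u with hw'
  set T' : Finset (Fin τ ⊕ υ) := (Finset.univ : Finset (Fin τ)).disjSum T with hT'
  have hT'c : T'.card = τ + T.card := by
    rw [hT', Finset.card_disjSum]
    simp
  have hdom : Om.Dom A' B' w' T' := by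
    refine hAB.of w' T' ?_ ?_
    · intro j hj
      exact ⟨Sum.inr j, by simp [hT', hj], by simp [hw']⟩
    · rintro (j | j)
      · exact Or.inl (by simp [hT'])
      · exact Or.inr ⟨j, by simp [hw']⟩
  obtain ⟨S, hS1, hS2, hS3⟩ := hE (δ * Q₀ + δ) ℂ (fun _ => PtI m (2 * A + 2)) (fun _ => PtI.size)
    (fun j i g s => val j i.ξ g s) hEv (Fin τ ⊕ υ) w' T' hT'c hdom H (fun j g => pti (ξ j g))
    (fun j g _ => w₀ j (pti (ξ j g))) (fun j g p => x j (ξ j g + g j p.1) p.2)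
    (fun j g g' h => ⟨(hdep j g g' h).1, by rw [(hdep j g g' h).2], by rw [(hdep j g g' h).2]⟩)
    (fun j g g' h => by
      funext p
      rw [(hdep j g g' fun i hi => h i hi.le).2, h j le_rfl])
  refine ⟨S, fun j g => ?_, hS2, ?_⟩
  · calc ((S j g).card : Cardinal) ≤ ((τ + T.card + ∑ i ∈ Finset.Iio j, r i * Fintype.card (σ i) + 1 : ℕ) : Cardinal) := by
          have := hS1 j g
          rw [Fintype.card_unit] at this
          exact_mod_cast this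
      _ = ((τ + 1 + ∑ i ∈ Finset.Iio j, r i * Fintype.card (σ i) : ℕ) : Cardinal) + (T.card : Cardinal) := by
          push_cast; ring
      _ ≤ _ := by gcongr
  intro g hg hHt hinj hgb K hKf hKd y hy P hPd hP0
  have hHR : ∀ j, (1 : ℝ) ≤ (H j g : ℝ) + 2 := fun j => by linarith [(Nat.cast_nonneg (H j g) : (0 : ℝ) ≤ H j g)]
  have hbig : ∀ j E', E' ≤ (∑ j, E₁ j) + E (δ * Q₀ + δ) + 1 → (((H j g + 2) ^ E' : ℕ) : ℝ) ≤ ‖ξ j g‖ := fun j E' hE' => by
    push_cast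
    exact (pow_le_pow_right₀ (hHR j) hE').trans (hg j)
  have hξ2 : ∀ j, 2 ≤ ‖ξ j g‖ := fun j => by
    have h1 := hbig j 1 (by omega)
    push_cast at h1
    linarith [(Nat.cast_nonneg (H j g) : (0 : ℝ) ≤ H j g)]
  have hθ : ∀ j, ((pti (ξ j g)).ξ : ℂ) = ξ j g := fun j => hpti _ (hHt j) (hξ2 j)
  set L : IntermediateField ℚ ℂ := Finset.univ.sup (fun j => K₀ j (pti (ξ j g))) with hL
  obtain ⟨hLf, hLe⟩ := finrank_sup (fun j => K₀ j (pti (ξ j g))) e (fun j => hK₀f _ _) (fun j => hK₀e _ _) Finset.univ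
  have hLK : ∀ j, K₀ j (pti (ξ j g)) ≤ K ⊔ L := fun j =>
    (Finset.le_sup (f := fun j => K₀ j (pti (ξ j g))) (Finset.mem_univ j)).trans le_sup_right
  have hK : K ≤ K ⊔ L := le_sup_left
  have hfin : FiniteDimensional ℚ (K ⊔ L : IntermediateField ℚ ℂ) := by
    have := hLf
    exact IntermediateField.finiteDimensional_sup K L
  set j' : K →+* (K ⊔ L : IntermediateField ℚ ℂ) :=
    (IntermediateField.inclusion hK : K →+* (K ⊔ L : IntermediateField ℚ ℂ)) with hj'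
  have h9 := hS3 g (fun j => ?_) hinj (fun j i => ⟨(hgb j i).1, (hgb j i).2.1, (hgb j i).2.2.1⟩) (K ⊔ L) hfin
    (((IntermediateField.finrank_sup_le K L).trans (Nat.mul_le_mul hKd hLe)).trans (Nat.le_add_right _ _))
    (fun j p => ?_) y (fun j p => ?_) (MvPolynomial.map j' P) (by
      refine le_trans (le_of_eq ?_) (hPd.trans (Nat.le_add_left _ _))
      unfold MvPolynomial.totalDegree
      rw [MvPolynomial.support_map_of_injective _ j'.injective]) (by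
      rw [MvPolynomial.aeval_def, MvPolynomial.eval₂_map, ← hP0, MvPolynomial.aeval_def]
      rfl)
  · rw [MvPolynomial.aeval_def, MvPolynomial.eval₂_map] at h9
    rw [MvPolynomial.aeval_def]
    exact h9
  · refine Nat.le_floor ?_
    rw [hθ]
    exact hbig j _ (by omega)
  · obtain ⟨a, ha, h1⟩ := hK₀ j (pti (ξ j g)) (g j p.1) (hgb j p.1).1 (by
      rw [hθ]
      refine le_trans ?_ (hbig j (E₁ j) ?_)
      · have h2 : (g j p.1 + 2) ^ E₁ j ≤ (H j g + 2) ^ E₁ j :=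
          Nat.pow_le_pow_left (by have := (hgb j p.1).2.1; omega) _
        exact_mod_cast h2
      · have := Finset.single_le_sum (f := E₁) (fun i _ => Nat.zero_le _) (Finset.mem_univ j)
        omega) (by
      rw [hθ]
      exact (hgb j p.1).2.2.2) p.2
    refine ⟨⟨a, hLK j a.2⟩, fun h => ha (Subtype.ext (congrArg (fun z : (K ⊔ L : IntermediateField ℚ ℂ) => (z : ℂ)) h)),
      ?_⟩
    rw [hθ] at h1
    show x j (ξ j g + g j p.1) p.2 - (a : ℂ) * val j ((pti (ξ j g)).ξ : ℂ) (g j p.1) p.2 ∈ _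
    rw [hθ]
    refine Submodule.span_mono (Set.insert_subset_insert ?_) (span_field (hLK j) h1)
    rintro _ (rfl | ⟨k, rfl⟩)
    · exact ⟨Sum.inr (), rfl⟩
    · exact ⟨Sum.inl (Sum.inr k), rfl⟩
  · obtain ⟨b, hb, h1⟩ := hy j p
    exact ⟨⟨b, hK b.2⟩, fun h => hb (Subtype.ext (congrArg (fun z : (K ⊔ L : IntermediateField ℚ ℂ) => (z : ℂ)) h)),
      span_field hK h1⟩

end Pool.Agent.Run7.h643.MX
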