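import Mathlib
import Pool.Agent.Run7.h643.MW.MixU
import Pool.Agent.R351.GD.S.AllW

/-!
# Elliptic logarithms on several elliptic curves, chosen one after the other
-/

set_option autoImplicit false

open Module PowerSeries Filter Topology

namespace Pool.Agent.Run7.h643.MX

open Pool.Agent.Y113 Pool.Agent.Y916 Pool.Agent.Y916.AW Pool.Agent.Y916.Al Pool.Agent.Y916.Hy Pool.Agent.Y916.Sa
open Pool.Agent.Y916.Fld Pool.Agent.Y916.Sl Pool.Agent.R351.GD
open scoped PeriodPair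

theorem linkU_mono {σ : Type} {val : ℂ → ℕ → σ → ℂ} {x : ℂ → σ → ℂ} {Dm : ℂ → Prop} {υ υ' : Type} {u : υ → ℂ}
    {u' : υ' → ℂ} {m e E : ℕ} (h : LinkU val x Dm u m e E) (hu : Set.range u ⊆ Set.range u') :
    LinkU val x Dm u' m e E := by
  intro K₁ ξ h1 h2
  obtain ⟨K, hK, hKe, w, hw⟩ := h K₁ ξ h1 h2
  refine ⟨K, hK, hKe, w, fun g hg hgξ hD s => ?_⟩
  obtain ⟨a, ha, hax⟩ := hw g hg hgξ hD s
  exact ⟨a, ha, Submodule.span_mono (Set.insert_subset_insert (Set.insert_subset_insert hu)) hax⟩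

/-- the periods of several lattices -/
noncomputable def perM {t : ℕ} (L : Fin t → PeriodPair) (p : Fin t × Fin 5) : ℂ := perV (L p.1) p.2

/-- **Elliptic logarithms in successive windows** -/
theorem ellMix {t : ℕ} (L : Fin t → PeriodPair) (a b : Fin t → ℚ) (ha : ∀ j, (L j).g₂ = a j)
    (hb : ∀ j, (L j).g₃ = b j) (r : Fin t → ℕ) (m A τ : ℕ) :
    ∃ E : ℕ → ℕ, PB E ∧ ∀ (δ : ℕ) (w : Fin τ → ℂ) (H : Fin t → Ch r → ℕ) (ξ : Fin t → Ch r → ℂ),
      (∀ j g g', (∀ i, i < j → g i = g' i) → H j g = H j g' ∧ ξ j g = ξ j g') →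
      ∃ S : Fin t → Ch r → Finset ℕ,
        (∀ j g, ((S j g).card : Cardinal) ≤ ((τ + 1 + ∑ i ∈ Finset.Iio j, r i * 3 : ℕ) : Cardinal) +
          Algebra.trdeg ℚ (IntermediateField.adjoin ℚ (Set.range (perM L)))) ∧
        (∀ j g g', (∀ i, i < j → g i = g' i) → S j g = S j g') ∧
        ∀ g : Ch r, (∀ j, ((H j g : ℝ) + 2) ^ E δ ≤ ‖ξ j g‖) → (∀ j, Al.Ht m A (ξ j g)) →
          (∀ j, Function.Injective (g j)) →
          (∀ j i, 1 ≤ g j i ∧ g j i ≤ H j g ∧ g j i ∉ S j g) →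
          ∀ p l : ∀ j, Fin (r j) → ℂ, (∀ j i, p j i ∉ (L j).lattice ∧ ℘[L j] (p j i) = ξ j g + g j i ∧
            Complex.exp (l j i) = ξ j g + g j i) →
          ∀ K : IntermediateField ℚ ℂ, FiniteDimensional ℚ K → finrank ℚ K ≤ δ →
          ∀ P : MvPolynomial ((Fin τ ⊕ (Fin t × Fin 5)) ⊕ (Σ j, Fin (r j) × Fin 3)) K, P.totalDegree ≤ δ →
            MvPolynomial.aeval (Sum.elim (Sum.elim w (perM L)) fun q : (Σ j, Fin (r j) × Fin 3) =>
              trip (L q.1) (p q.1 q.2.1) (l q.1 q.2.1) q.2.2) P = 0 →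
            MvPolynomial.aeval (Sum.elim (fun j => MvPolynomial.C (Sum.elim w (perM L) j)) MvPolynomial.X) P =
              (0 : MvPolynomial (Σ j, Fin (r j) × Fin 3) ℂ) := by
  classical
  have hab : ∀ j, (a j) ^ 3 - 27 * (b j) ^ 2 ≠ 0 := by
    intro j
    have h1 := disc_ne Pool.Agent.Y153.HE.t_qp (L j)
    rw [ha, hb] at h1
    exact_mod_cast h1
  have hF := fun j => Fe_good (a j) (b j) (hab j)
  choose E₁ hE₁ using fun j => linkE (a j) (b j) Pool.Agent.Y916.Sl.tW (L j) (ha j) (hb j) (hF j) (m + 1)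
  obtain ⟨E, hEp, hE⟩ := mixU t r (fun j => Tau (me (a j) (b j)))
    (fun j => vS (Pe (a j) (b j)) (me (a j) (b j))) (fun j => inpE_e (a j) (b j) (hF j))
    (fun j => xE (a j) (b j) (L j)) (fun j => DmE (L j)) (perM L) (m + 1) (by omega) (fun _ => (m + 1) * 2) E₁
    (fun j => linkU_mono (hE₁ j) (by
      rintro _ ⟨i, rfl⟩
      exact ⟨(j, i), rfl⟩)) τ A
  refine ⟨E, hEp, fun δ w H ξ hdep => ?_⟩
  obtain ⟨S, hS1, hS2, hS3⟩ := hE δ w H ξ hdep
  refine ⟨S, fun j g => ?_, hS2, fun g hg hHt hinj hgb p l hpl K hKf hKd P hPd hPv => ?_⟩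
  · have h1 := hS1 j g
    have h2 : ∀ i, Fintype.card (Tau (me (a i) (b i))) = 3 := fun i => by
      rw [Fintype.card_congr (fe (a i) (b i)), Fintype.card_fin]
    simp only [h2] at h1
    exact h1
  let e : (Σ j, Fin (r j) × Tau (me (a j) (b j))) ≃ (Σ j, Fin (r j) × Fin 3) :=
    Equiv.sigmaCongrRight fun j => (Equiv.refl _).prodCongr (fe (a j) (b j))
  have h9 := hS3 g hg (fun j => by
      obtain ⟨q, h1, h2, h3, h4⟩ := hHt j
      exact ⟨q, h1, h2.trans (Nat.le_succ m), h3, h4⟩) hinj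
    (fun j i => ⟨(hgb j i).1, (hgb j i).2.1, (hgb j i).2.2, pf_spec (L j) (hpl j i).1 (hpl j i).2.1⟩) K hKf hKd
    (fun j q => trip (L j) (p j q.1) (l j q.1) (fe (a j) (b j) q.2)) (fun j q => by
      refine detE (a j) (b j) (L j) (hpl j q.1).1 (hpl j q.1).2.1 (hpl j q.1).2.2 _ (fun k n => ?_) q.2
      have h4 : (n : ℂ) * perV (L j) k = (n : K) • perV (L j) k := by
        rw [Algebra.smul_def]
        simp
      rw [h4]
      exact Submodule.smul_mem _ _ (Submodule.subset_span (Set.mem_insert_of_mem _ ⟨Sum.inr (j, k), rfl⟩)))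
    (MvPolynomial.rename (Sum.map id e.symm) P) ((MvPolynomial.totalDegree_rename_le _ _).trans hPd) (by
      rw [MvPolynomial.aeval_rename, ← hPv]
      congr 2
      funext x
      rcases x with i | ⟨j, x⟩
      · rfl
      · change trip (L j) (p j x.1) (l j x.1) (fe (a j) (b j) ((fe (a j) (b j)).symm x.2)) = _
        rw [Equiv.apply_symm_apply]
        rfl)
  rw [MvPolynomial.aeval_rename] at h9
  have h10 := congrArg (MvPolynomial.rename e) h9
  rw [map_zero] at h10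
  rw [MvPolynomial.aeval_def] at h10 ⊢
  have h11 := MvPolynomial.eval₂_comp_left (MvPolynomial.rename (R := ℂ) e).toRingHom
    (algebraMap K (MvPolynomial (Σ j, Fin (r j) × Tau (me (a j) (b j))) ℂ))
    (Sum.elim (fun j => MvPolynomial.C (Sum.elim w (perM L) j)) MvPolynomial.X ∘ Sum.map id e.symm) P
  refine Eq.trans ?_ (h11.symm.trans h10)
  congr 1
  · refine RingHom.ext fun x => ?_
    change MvPolynomial.C (x : ℂ) = MvPolynomial.rename e (MvPolynomial.C (x : ℂ))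
    rw [MvPolynomial.rename_C]
  · funext x
    rcases x with i | x
    · simp
    · change MvPolynomial.X x = MvPolynomial.rename e (MvPolynomial.X (e.symm x))
      rw [MvPolynomial.rename_X, Equiv.apply_symm_apply]

end Pool.Agent.Run7.h643.MX
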