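import Mathlib
import Pool.Agent.Run7.h643.MW.Runs
import Pool.Agent.Run7.h643.MW.Mix

/-!
# Logarithms of consecutive primes over arbitrary constants
-/

set_option autoImplicit false

namespace Pool.Agent.Run7.h643.MW

open Finset

/-- one window of integers -/
theorem window_log (q r : ℕ) : ∃ C : ℕ, ∀ (L N δ : ℕ), 1 ≤ N → ((L : ℝ) + 2) ^ ((δ + 2) ^ C) ≤ N →
    ∀ w : Fin q → ℂ, ∃ S : Finset ℕ, S.card ≤ q + 2 ∧ ∀ n : Fin r → ℕ, Function.Injective n →
      (∀ i, 1 ≤ n i ∧ n i ≤ L ∧ n i ∉ S) → ∀ x : Fin r → ℂ, (∀ i, Complex.exp (x i) = (N : ℂ) + n i) → Fr δ w x := by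
  classical
  obtain ⟨C, hC⟩ := windows 1 q r 1 1 1
  refine ⟨C, fun L N δ hN hLN w => ?_⟩
  obtain ⟨S, hS1, hS2, hS3⟩ := hC δ (fun _ _ => (N : ℂ)) (fun _ _ => L) (fun _ _ _ _ => ⟨rfl, rfl⟩) w
  set S₀ : Finset ℂ := S 0 (fun _ _ => 0) with hS₀
  have hSall : ∀ (j : Fin 1) (β : Fin 1 → Fin r → ℂ), S j β = S₀ := by
    intro j β
    rw [Subsingleton.elim j 0]
    exact hS2 0 β _ fun i hi => absurd hi (by omega)
  refine ⟨(Icc 1 L).filter fun n : ℕ => (n : ℂ) ∈ S₀, ?_, fun n hinj hn x hx => ?_⟩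
  · refine le_trans (Finset.card_le_card_of_injOn (fun n : ℕ => (n : ℂ)) (fun n hn => ?_) (fun a _ c _ hac => ?_))
      ((hS1 0 (fun _ _ => 0)).trans (by simp))
    · exact (mem_filter.1 (mem_coe.1 hn)).2
    · exact Nat.cast_injective hac
  · refine Fr.comp (ι := Fin 1 × Fin r) (x := fun p => x p.2) ?_ (Equiv.uniqueProd (Fin r) (Fin 1)).symm
    refine hS3 (fun _ i => (n i : ℂ)) (fun j => ?_) (fun j => ?_) (fun j i i' h => ?_)
      (fun j i => ⟨?_, ?_, ?_⟩) (fun _ i => x i) (fun j i => hx i)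
    · rw [Complex.norm_natCast]
      exact hLN
    · exact Pool.Agent.R351.GD.ht_nat hN
    · exact hinj (Nat.cast_injective h)
    · rw [hSall]
      intro h
      exact (hn i).2.2 (mem_filter.2 ⟨mem_Icc.2 ⟨(hn i).1, (hn i).2.1⟩, h⟩)
    · have := (hn i).1
      show ((n i : ℕ) : ℂ) ≠ 0
      exact_mod_cast (show n i ≠ 0 by omega)
    · have h3 := Pool.Agent.R351.GD.adm_int (d := 1) (H := L) le_rfl (b := (n i : ℤ))
        (by have := (hn i).1; omega) (by
          rw [abs_of_nonneg (by omega)]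
          have := (hn i).2.1
          exact_mod_cast this)
      simpa using h3

/-- **Logarithms of consecutive primes**, over arbitrary constants depending on the interval -/
theorem primes_log (q m : ℕ) : ∃ L C : ℕ, ∀ w : ℕ → Fin q → ℂ,
    {N : ℕ | ∃ k : ℕ, (∀ i : Fin m, N < Nat.nth Nat.Prime (k + i) ∧ Nat.nth Nat.Prime (k + i) ≤ N + L) ∧
      ∀ δ : ℕ, ((δ : ℝ) + 2) ^ C ≤ Real.log N →
        Fr δ (w N) fun i : Fin m => ((Real.log (Nat.nth Nat.Prime (k + i)) : ℝ) : ℂ)}.Infinite := by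
  classical
  rcases Nat.eq_zero_or_pos m with hm | hm
  · subst hm
    refine ⟨0, 1, fun w => Set.infinite_univ.mono fun N _ => ⟨0, fun i => i.elim0, fun δ _ => ?_⟩⟩
    intro K hK hKd P hPd hP0
    apply MvPolynomial.funext
    intro z
    rw [Pool.Agent.Run7.h643.MX.eval_aeval, map_zero, ← hP0]
    congr 2
    funext a
    rcases a with a | a
    · rfl
    · exact a.elim0
  obtain ⟨C, hC⟩ := window_log q m
  obtain ⟨L, hL⟩ := runs m (q + 2) C hm
  refine ⟨L, C + 1, fun w => ?_⟩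
  have hinf := hL (fun N δ n => Fr δ (w N) fun i : Fin m => ((Real.log ((N : ℝ) + n i) : ℝ) : ℂ))
    (fun N δ δ' n h hle K hK hKd P hPd hP0 => h K hK (hKd.trans hle) P (hPd.trans hle) hP0)
    (fun N δ hN hLN => by
      obtain ⟨S, hS1, hS2⟩ := hC L N δ hN hLN (w N)
      refine ⟨S, hS1, fun n hinj hn => hS2 n hinj hn _ fun i => ?_⟩
      have h1 : (0 : ℝ) < (N : ℝ) + n i := by
        have : (0 : ℝ) < N := by exact_mod_cast hN
        positivity
      rw [← Complex.ofReal_exp, Real.exp_log h1]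
      push_cast
      rfl)
  refine hinf.mono ?_
  rintro N ⟨k, hk, hfree⟩
  refine ⟨k, hk, fun δ hδ => ?_⟩
  have h8 := hfree δ hδ
  have h9 : (fun i : Fin m => ((Real.log ((N : ℝ) + ((Nat.nth Nat.Prime (k + i) - N : ℕ) : ℝ)) : ℝ) : ℂ)) =
      fun i : Fin m => ((Real.log (Nat.nth Nat.Prime (k + i)) : ℝ) : ℂ) := by
    funext i
    rw [Nat.cast_sub (hk i).1.le, add_sub_cancel]
  rw [h9] at h8
  exact h8

end Pool.Agent.Run7.h643.MW
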