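import Pool.Agent.Run7.h643.MW.FD
import Pool.Agent.R351.GD.H.Tup

/-!
# Hypergeometric motives as a family in the sense of `FD`
-/

set_option autoImplicit false

open Module
open Pool.Agent.Y113 Pool.Agent.Y120.GF Pool.Agent.Y120.GH Pool.Agent.Y119.HZ
open Pool.Agent.Y119.HY (QD Jm Am cm Hf Hc E E_isom)

namespace Pool.Agent.Run7.h643.MX

open Pool.Agent.R351.GD Pool.Agent.R351.GD.H
open Pool.Agent.Y916.Om (Dom Inp)

variable {n : ℕ}

/-- the points of the torsor: an arbitrary logarithm, and a matrix of the symplectic group times the constant matrix -/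
def TorH (n : ℕ) (Q : Polynomial ℚ) (Ω : Matrix (Fin n) (Fin n) ℂ) : Set (Option (Fin n × Fin n) → ℂ) :=
  {Z | ∃ g : Matrix (Fin n) (Fin n) ℂ, g.transpose * cm (Jm n Q) * g = cm (Jm n Q) ∧
    ∀ x : Fin n × Fin n, Z (some x) = (g * Ω) x.1 x.2}

section
variable {υ : Type} (F : IntermediateField ℚ ℂ) (e : Fin n × Fin n → υ) (K : Matrix (Fin n) (Fin n) ℤ)

/-- the denominator -/
noncomputable def DHb : MvPolynomial (υ ⊕ Option (Sx n)) F := emb F (cD (zm K) fun p => MvPolynomial.X (some p))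

/-- the numerators -/
noncomputable def NHb (o : Option (Fin n × Fin n)) : MvPolynomial (υ ⊕ Option (Sx n)) F :=
  o.elim (DHb F K * MvPolynomial.X (Sum.inr none)) fun x => ∑ d, ∑ c,
    emb F (cN (zm K) (fun p => MvPolynomial.X (some p)) x.1 c) *
      (∑ i ∈ Finset.range n, MvPolynomial.C (algebraMap ℚ F (qe n i c d)) * MvPolynomial.X (Sum.inr none) ^ i) *
      MvPolynomial.X (Sum.inl (e (d, x.2)))

theorem DHb_ev (w : υ → ℂ) (y : Option (Sx n) → ℂ) :
    MvPolynomial.aeval (Sum.elim w y) (DHb F K) = cD (zm K) fun p => y (some p) := by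
  unfold DHb
  rw [emb_ev, ← cD_map, zm_map]
  simp only [evy_X]

theorem cN_ev (w : υ → ℂ) (y : Option (Sx n) → ℂ) (a c : Fin n) :
    MvPolynomial.aeval (Sum.elim w y) (emb F (cN (zm K) (fun p => MvPolynomial.X (some p)) a c)) =
      cN (zm K) (fun p => y (some p)) a c := by
  rw [emb_ev]
  have h2 := cN_map (evy y) (zm K) (fun p => MvPolynomial.X (some p))
  rw [zm_map] at h2
  simp only [evy_X] at h2
  rw [h2]
  rfl

theorem NHb_ev (w : υ → ℂ) (y : Option (Sx n) → ℂ) (x : Fin n × Fin n) :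
    MvPolynomial.aeval (Sum.elim w y) (NHb F e K (some x)) =
      (cN (zm K) (fun p => y (some p)) * E (cm (Am n)) (-y none) * Matrix.of fun a b => w (e (a, b))) x.1 x.2 := by
  show MvPolynomial.aeval _ (∑ d, ∑ c, emb F (cN (zm K) (fun p => MvPolynomial.X (some p)) x.1 c) *
      (∑ i ∈ Finset.range n, MvPolynomial.C (algebraMap ℚ F (qe n i c d)) * MvPolynomial.X (Sum.inr none) ^ i) *
      MvPolynomial.X (Sum.inl (e (d, x.2)))) = _
  rw [Matrix.mul_apply, map_sum]
  refine Finset.sum_congr rfl fun d _ => ?_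
  rw [Matrix.mul_apply, map_sum, Finset.sum_mul]
  refine Finset.sum_congr rfl fun c _ => ?_
  rw [map_mul, map_mul, cN_ev, map_sum, MvPolynomial.aeval_X, E_qe]
  congr 2
  refine Finset.sum_congr rfl fun i _ => ?_
  rw [map_mul, map_pow, MvPolynomial.aeval_X, MvPolynomial.aeval_C]
  have hQ : (algebraMap F ℂ) (algebraMap ℚ F (qe n i c d)) = algebraMap ℚ ℂ (qe n i c d) :=
    (IsScalarTower.algebraMap_apply ℚ F ℂ _).symm
  rw [hQ]
  rfl

theorem NHb_deg {c : ℕ} (hD : (cD (zm K) (fun p => MvPolynomial.X (some p)) : MvPolynomial (Option (Sx n)) ℤ).totalDegree ≤ c)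
    (hN : ∀ a b, (cN (zm K) (fun p => MvPolynomial.X (some p)) a b : MvPolynomial (Option (Sx n)) ℤ).totalDegree ≤ c)
    (o : Option (Fin n × Fin n)) : (NHb F e K o).totalDegree ≤ c + n + 1 := by
  rcases o with _ | x
  · refine (MvPolynomial.totalDegree_mul _ _).trans ?_
    rw [MvPolynomial.totalDegree_X]
    have := (emb_deg (υ := υ) F (cD (zm K) fun p => MvPolynomial.X (some p))).trans hD
    show (emb F (cD (zm K) fun p => MvPolynomial.X (some p)) : MvPolynomial (υ ⊕ Option (Sx n)) F).totalDegree + 1 ≤ _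
    omega
  · show (∑ d, ∑ c, emb F (cN (zm K) (fun p => MvPolynomial.X (some p)) x.1 c) *
      (∑ i ∈ Finset.range n, MvPolynomial.C (algebraMap ℚ F (qe n i c d)) * MvPolynomial.X (Sum.inr none) ^ i) *
      MvPolynomial.X (Sum.inl (e (d, x.2))) : MvPolynomial (υ ⊕ Option (Sx n)) F).totalDegree ≤ _
    refine (MvPolynomial.totalDegree_finsetSum _ _).trans (Finset.sup_le fun d _ => ?_)
    refine (MvPolynomial.totalDegree_finsetSum _ _).trans (Finset.sup_le fun b _ => ?_)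
    refine (MvPolynomial.totalDegree_mul _ _).trans ?_
    rw [MvPolynomial.totalDegree_X]
    have h1 := (emb_deg (υ := υ) F (cN (zm K) (fun p => MvPolynomial.X (some p)) x.1 b)).trans (hN x.1 b)
    have h2 : (∑ i ∈ Finset.range n, MvPolynomial.C (algebraMap ℚ F (qe n i b d)) *
        (MvPolynomial.X (Sum.inr none) : MvPolynomial (υ ⊕ Option (Sx n)) F) ^ i).totalDegree ≤ n := by
      refine (MvPolynomial.totalDegree_finsetSum _ _).trans (Finset.sup_le fun i hi => ?_)
      refine (MvPolynomial.totalDegree_mul _ _).trans ?_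
      rw [MvPolynomial.totalDegree_C, zero_add, MvPolynomial.totalDegree_X_pow]
      exact (Finset.mem_range.1 hi).le
    have h3 := MvPolynomial.totalDegree_mul (emb (υ := υ) F (cN (zm K) (fun p => MvPolynomial.X (some p)) x.1 b))
      (∑ i ∈ Finset.range n, MvPolynomial.C (algebraMap ℚ F (qe n i b d)) *
        (MvPolynomial.X (Sum.inr none) : MvPolynomial (υ ⊕ Option (Sx n)) F) ^ i)
    omega

end

/-- the block data for hypergeometric motives -/
theorem blkH {Q : Polynomial ℚ} (hQ : QD n Q) {d : ℕ} {K : Matrix (Fin n) (Fin n) ℤ} (hK : IK n Q d K) :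
    ∃ c : ℕ, ∀ (Ω : Matrix (Fin n) (Fin n) ℂ) (t : ℕ) (_ : 2 ≤ t) (_ : (zi n Q t + 1).det ≠ 0)
    (F : IntermediateField ℚ ℂ) (υ : Type) (w : υ → ℂ) (e : Fin n × Fin n → υ)
    (_ : ∀ x : Fin n × Fin n, w (e x) = Ω x.1 x.2),
    Blk F c w (vI n Q d t) (fun o : Option (Fin n × Fin n) => o.elim ((Real.log t : ℝ) : ℂ)
      fun x => (Yt n Q t * Ω) x.1 x.2) (TorH n Q Ω) := by
  classical
  set c₀ : ℕ := (cD (zm K) (fun p => MvPolynomial.X (some p)) : MvPolynomial (Option (Sx n)) ℤ).totalDegree +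
    ∑ p : Fin n, ∑ q : Fin n, (cN (zm K) (fun p => MvPolynomial.X (some p)) p q :
      MvPolynomial (Option (Sx n)) ℤ).totalDegree with hc₀
  refine ⟨c₀ + n + 1, fun Ω t ht2 hdet F υ w e he => ?_⟩
  have hN : ∀ p q : Fin n, (cN (zm K) (fun p => MvPolynomial.X (some p)) p q :
      MvPolynomial (Option (Sx n)) ℤ).totalDegree ≤ c₀ := by
    intro p q
    have h1 : (cN (zm K) (fun p => MvPolynomial.X (some p)) p q : MvPolynomial (Option (Sx n)) ℤ).totalDegree ≤
        ∑ q : Fin n, (cN (zm K) (fun p => MvPolynomial.X (some p)) p q : MvPolynomial (Option (Sx n)) ℤ).totalDegree :=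
      Finset.single_le_sum (f := fun q : Fin n => (cN (zm K) (fun p => MvPolynomial.X (some p)) p q :
        MvPolynomial (Option (Sx n)) ℤ).totalDegree) (fun _ _ => Nat.zero_le _) (Finset.mem_univ q)
    have h2 : ∑ q : Fin n, (cN (zm K) (fun p => MvPolynomial.X (some p)) p q :
          MvPolynomial (Option (Sx n)) ℤ).totalDegree ≤
        ∑ p : Fin n, ∑ q : Fin n, (cN (zm K) (fun p => MvPolynomial.X (some p)) p q :
          MvPolynomial (Option (Sx n)) ℤ).totalDegree :=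
      Finset.single_le_sum (f := fun p : Fin n => ∑ q : Fin n, (cN (zm K) (fun p => MvPolynomial.X (some p)) p q :
        MvPolynomial (Option (Sx n)) ℤ).totalDegree) (fun _ _ => Nat.zero_le _) (Finset.mem_univ p)
    rw [hc₀]
    omega
  have hJ : zm K * cm (Jm n Q) = ((d : ℕ) : ℂ) • (1 : Matrix (Fin n) (Fin n) ℂ) ∧
      (cm (Jm n Q)).transpose = -cm (Jm n Q) :=
    ⟨(hK.jk hQ (algebraMap ℚ ℂ)).2.1, (hK.jk hQ (algebraMap ℚ ℂ)).2.2⟩
  have hdc : ((d : ℕ) : ℂ) ≠ 0 := by exact_mod_cast hK.ne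
  have hΩ : (Matrix.of fun a b => w (e (a, b))) = Ω := by
    ext a b
    exact he (a, b)
  have hval : ∀ (y : Option (Sx n) → ℂ) (M : Matrix (Fin n) (Fin n) ℂ) (Z : Option (Fin n × Fin n) → ℂ),
      cN (zm K) (fun p => y (some p)) = cD (zm K) (fun p => y (some p)) • M → Z none = y none →
      (∀ x : Fin n × Fin n, Z (some x) = (M * E (cm (Am n)) (-y none) * Ω) x.1 x.2) →
      ∀ p, MvPolynomial.aeval (Sum.elim w y) (NHb F e K p) = MvPolynomial.aeval (Sum.elim w y) (DHb F K) * Z p := by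
    intro y M Z hM hZ0 hZ p
    rcases p with _ | x
    · show MvPolynomial.aeval _ (DHb F K * MvPolynomial.X (Sum.inr none)) = _
      rw [map_mul, MvPolynomial.aeval_X, hZ0]
      rfl
    · rw [NHb_ev, hΩ, hM, DHb_ev, hZ, Matrix.smul_mul, Matrix.smul_mul, Matrix.smul_apply, smul_eq_mul]
  refine ⟨DHb F K, NHb F e K, ?_, NHb_deg F e K (by rw [hc₀]; omega) hN, ?_, ?_⟩
  · refine (emb_deg F _).trans ?_
    rw [hc₀]
    omega
  · refine hval _ (zi n Q t) _ ?_ rfl fun x => ?_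
    · exact (sc_at hdc hJ.2 hJ.1 (zi_form hQ ht2) hdet).1
    · rfl
  · rintro R hR Z ⟨S, hS, hZ⟩
    have hchart : ∀ (x : ℂ) (X : Matrix (Fin n) (Fin n) ℂ), X.transpose * cm (Jm n Q) * X = cm (Jm n Q) →
        (X + 1).det ≠ 0 → MvPolynomial.aeval (fun o : Option (Fin n × Fin n) => o.elim x
          fun p => (X * E (cm (Am n)) (-x) * Ω) p.1 p.2) R = 0 := by
      intro x X hX hXd
      have h1 := sc_at hdc hJ.2 hJ.1 hX hXd
      refine hR (fun o => o.elim x (sc (cm (Jm n Q)) d X)) _ ?_ (hval _ X _ h1.1 rfl fun p => rfl)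
      rw [DHb_ev]
      intro h0
      have h2 := h1.2
      have h3 : cD (zm K) (sc (cm (Jm n Q)) d X) = 0 := h0
      rw [h3, zero_mul] at h2
      exact pow_ne_zero n (two_ne_zero (α := ℂ)) h2.symm
    -- the path
    set x : ℂ := Z none with hx
    set X : Matrix (Fin n) (Fin n) ℂ := S * E (cm (Am n)) x with hX
    have hXJ : X.transpose * cm (Jm n Q) * X = cm (Jm n Q) :=
      isom_mul hS (E_isom Pool.Agent.Y119.HY.Ac_nil Pool.Agent.Y119.HY.Jc_rel x)
    obtain ⟨M, hM0, hM1, hM⟩ := Pool.Agent.Y118.CM.Pc_all hJ.2 (Pool.Agent.Y119.HY.Jc_det hQ) X hXJ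
    set EΩ : Matrix (Fin n) (Fin n) ℂ := E (cm (Am n)) (-x) * Ω with hEΩ
    set p : Polynomial ℂ := MvPolynomial.aeval (fun o : Option (Fin n × Fin n) => o.elim (Polynomial.C x)
      fun q => ∑ i, M q.1 i * Polynomial.C (EΩ i q.2)) R with hp
    have hpe : ∀ c : ℂ, p.eval c = MvPolynomial.aeval (fun o : Option (Fin n × Fin n) => o.elim x
        fun q => (M.map (Polynomial.eval c) * E (cm (Am n)) (-x) * Ω) q.1 q.2) R := by
      intro c
      have h1 := MvPolynomial.comp_aeval_apply (f := fun o : Option (Fin n × Fin n) => o.elim (Polynomial.C x)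
        fun q => ∑ i, M q.1 i * Polynomial.C (EΩ i q.2)) (Polynomial.aeval c : Polynomial ℂ →ₐ[ℂ] ℂ) R
      rw [Polynomial.coe_aeval_eq_eval] at h1
      rw [hp, h1]
      congr 2
      funext o
      rcases o with _ | q
      · exact Polynomial.eval_C
      · show Polynomial.eval c (∑ i, M q.1 i * Polynomial.C (EΩ i q.2)) =
          (M.map (Polynomial.eval c) * E (cm (Am n)) (-x) * Ω) q.1 q.2
        rw [Matrix.mul_assoc, Matrix.mul_apply, Polynomial.eval_finsetSum]
        refine Finset.sum_congr rfl fun i _ => ?_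
        rw [Polynomial.eval_mul, Polynomial.eval_C, Matrix.map_apply]
    set q : Polynomial ℂ := (M + 1).det with hq
    have hqe : ∀ c : ℂ, q.eval c = (M.map (Polynomial.eval c) + 1).det := by
      intro c
      have h1 := RingHom.map_det (Polynomial.evalRingHom c) (M + 1)
      rw [map_add, map_one] at h1
      exact h1
    have hpq : p * q = 0 := by
      refine Polynomial.funext fun c => ?_
      rw [Polynomial.eval_mul, Polynomial.eval_zero, hpe, hqe]
      by_cases h0 : (M.map (Polynomial.eval c) + 1).det = 0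
      · rw [h0, mul_zero]
      · rw [hchart x _ (hM c) h0, zero_mul]
    have hq0 : q ≠ 0 := by
      intro h0
      have h1 := hqe 0
      rw [h0, Polynomial.eval_zero, hM0] at h1
      have h3 : (1 : Matrix (Fin n) (Fin n) ℂ) + 1 = (2 : ℂ) • 1 := (two_smul ℂ _).symm
      rw [h3, Matrix.det_smul, Matrix.det_one, mul_one] at h1
      exact pow_ne_zero _ two_ne_zero h1.symm
    have hp0 := (mul_eq_zero.1 hpq).resolve_right hq0
    have h1 := hpe 1
    rw [hp0, Polynomial.eval_zero, hM1] at h1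
    rw [h1]
    congr 2
    funext o
    rcases o with _ | y
    · rfl
    · rw [hZ]
      show _ = (X * E (cm (Am n)) (-x) * Ω) y.1 y.2
      rw [hX, Matrix.mul_assoc S, Pool.Agent.Y119.HY.E_mul_neg Pool.Agent.Y119.HY.Ac_nil, mul_one]

/-- the family of the hypergeometric motives at `1 / t` -/
noncomputable def fdH (n : ℕ) (Q : Polynomial ℚ) (d : ℕ) (Ω : Matrix (Fin n) (Fin n) ℂ) : FD where
  σ := Option (Sx n)
  ρ := Option (Fin n × Fin n)
  κ := Fin 1
  χ := Fin n × Fin n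
  fσ := inferInstance
  dσ := inferInstance
  fκ := inferInstance
  fχ := inferInstance
  cc := fun x => Ω x.1 x.2
  st := fun t _ => ((Real.log t : ℝ) : ℂ)
  per := fun t o => o.elim ((Real.log t : ℝ) : ℂ) fun x => (Yt n Q t * Ω) x.1 x.2
  Tor := fun _ => TorH n Q Ω
  y := vI n Q d
  val := fun G t g => vS n Q d G t g
  ok := fun t => (Yt n Q t).transpose * cm (Jm n Q) * Yt n Q t = cm (Jm n Q)

theorem fdH_ok {Q : Polynomial ℚ} (hQ : QD n Q) (hH : ∀ i j, SDc (Hp n Q i j)) {d : ℕ} {K : Matrix (Fin n) (Fin n) ℤ}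
    (hK : IK n Q d K) (Ω : Matrix (Fin n) (Fin n) ℂ) : (fdH n Q d Ω).Ok := by
  obtain ⟨R, hR⟩ := hvalS hQ hH hK
  obtain ⟨c0, hc0⟩ := blkH hQ hK
  obtain ⟨E₁, -, hE₁⟩ := hR R le_rfl 1
  obtain ⟨e3, he3⟩ : ∃ e3 : ℕ, (1 + 2) ^ E₁ 0 = e3 := ⟨_, rfl⟩
  refine ⟨R, fun G hG => ?_, e3 + 2, c0, fun t ht => ?_, fun G t g ht o => ?_, ?_⟩
  · choose Ev hEvp hEv using hR G hG
    exact ⟨Ev, hEvp, fun N Δ H t ht g hg hgb P hP hP0 => (hEv N Δ H t ht g hg hgb).2 P hP hP0⟩
  · exact isom_mul (zi_form hQ (by omega)) (E_isom Pool.Agent.Y119.HY.Ac_nil Pool.Agent.Y119.HY.Jc_rel _)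
  · have h1 : G * g + 2 ≤ t := by omega
    rcases o with _ | p
    · refine ⟨fun _ => 1, ?_⟩
      have ht0 : (0 : ℝ) < t := by exact_mod_cast (by omega : 0 < t)
      have h2 : ((G * g : ℕ) : ℝ) < t := by exact_mod_cast (by omega : G * g < t)
      have h3 : Real.log ((t - G * g : ℕ) : ℝ) = Real.log t + Real.log (1 - (G * g : ℕ) / t) := by
        have h4 : (0 : ℝ) < 1 - ((G * g : ℕ) : ℝ) / t := by
          rw [sub_pos, div_lt_one ht0]
          exact h2
        rw [← Real.log_mul ht0.ne' h4.ne', Nat.cast_sub (by omega)]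
        congr 1
        field_simp
      show ((Real.log ((t - G * g : ℕ) : ℝ) : ℝ) : ℂ) = ((Real.log (1 - (G * g : ℕ) / t) : ℝ) : ℂ) +
        ∑ i : Fin 1, (((1 : ℚ)) : ℂ) * ((Real.log t : ℝ) : ℂ)
      rw [h3]
      simp
      ring
    · refine ⟨fun _ => 0, ?_⟩
      show sc (cm (Jm n Q)) d (zi n Q (t - G * g)) p = sc (cm (Jm n Q)) d (zm1 n Q t (G * g)) p +
        ∑ i : Fin 1, (((0 : ℚ)) : ℂ) * ((Real.log t : ℝ) : ℂ)
      rw [zm1_eq (by omega)]
      simp
  · intro t ht F υ w e he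
    refine hc0 Ω t (by omega) ?_ F υ w e he
    have h1 := (hE₁ 0 1 (t + R) (by rw [he3]; omega) (fun _ => 1) (fun a b _ => Subsingleton.elim a b)
      fun _ => ⟨le_rfl, le_rfl⟩).1 0
    rwa [mul_one, zm1_eq (by omega), Nat.add_sub_cancel] at h1

end Pool.Agent.Run7.h643.MX
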