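import Pool.Agent.Run7.h643.MW.FD

/-!
# Hyperelliptic curves as a family in the sense of `FD`
-/

set_option autoImplicit false

open Module Filter Topology
open Polynomial (X C aeval)
open scoped Polynomial

namespace Pool.Agent.Run7.h643.MX

open Pool.Agent.Y118.HP Pool.Agent.Y37.GF Pool.Agent.Y118.HG
open Pool.Agent.R351.GD Pool.Agent.R351.GD.Hy
open Pool.Agent.Y916.Om (Dom Inp)

variable {n : ℕ}

/-- the matrix with the given entries -/
def toM (Z : Fin n × Fin n → ℂ) : Matrix (Fin n) (Fin n) ℂ := Matrix.of fun i j => Z (i, j)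

/-- the points of the torsor with multiplier `2πi` -/
def TorY (n : ℕ) (f : ℚ[X]) (m : ℕ) : Set (Fin n × Fin n → ℂ) :=
  {Z | toM Z * (qm n (f * (X - C (1 / (m : ℚ))))).map (algebraMap ℚ ℂ) * (toM Z).transpose =
    (2 * Real.pi * Complex.I : ℂ) • (bm ℚ n).map (algebraMap ℚ ℂ)}

theorem two_pi_I_ne : (2 * Real.pi * Complex.I : ℂ) ≠ 0 := by
  have h1 := Complex.I_ne_zero
  have h2 : (Real.pi : ℂ) ≠ 0 := by exact_mod_cast Real.pi_ne_zero
  exact mul_ne_zero (mul_ne_zero two_ne_zero h2) h1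

theorem torY_iff {f : ℚ[X]} {m : ℕ} {Z : Fin n × Fin n → ℂ} : Z ∈ TorY n f m ↔
    toM Z * ((-1 / 2 : ℂ) • (Qp n f).map (aeval ((1 / (m : ℚ) : ℚ) : ℂ))) * (toM Z).transpose =
      (2 * Real.pi * Complex.I : ℂ) • jm ℂ n := by
  have h1 : ((fun _ => toM Z, (2 * Real.pi * Complex.I : ℂ)) : (Fin 1 → Matrix (Fin n) (Fin n) ℂ) × ℂ) ∈
      TorF (n := n) (fun _ : Fin 1 => f * (X - C (1 / (m : ℚ)))) ↔
      ((fun _ => toM Z, (2 * Real.pi * Complex.I : ℂ)) : (Fin 1 → Matrix (Fin n) (Fin n) ℂ) × ℂ) ∈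
      Tor (fun _ : Fin 1 => (-1 / 2 : ℂ) • (Qp n f).map (aeval ((1 / (m : ℚ) : ℚ) : ℂ))) := by
    rw [TorF_eq (n := n) (fun _ : Fin 1 => f) (fun _ => 1 / (m : ℚ))]
  constructor
  · intro h
    exact (h1.1 ⟨two_pi_I_ne, fun _ => h⟩).2 0
  · intro h
    exact (h1.2 ⟨two_pi_I_ne, fun _ => h⟩).2 0

section
variable {υ : Type} (F : IntermediateField ℚ ℂ) (e : Fin n × Fin n → υ) (V U : Matrix (Fin n) (Fin n) ℚ)

/-- the denominator -/
noncomputable def DYb (n : ℕ) : MvPolynomial (υ ⊕ Sy n) F := emq F (De fun p => MvPolynomial.X p)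

/-- the numerators -/
noncomputable def NYb (x : Fin n × Fin n) : MvPolynomial (υ ⊕ Sy n) F :=
  ∑ q, ∑ p, (∑ r, MvPolynomial.X (Sum.inl (e (x.1, r))) * MvPolynomial.C (algebraMap ℚ F (V r p))) *
    emq F (Nc (fun s => MvPolynomial.X s) p q) * MvPolynomial.C (algebraMap ℚ F (U q x.2))

theorem DYb_ev (w : υ → ℂ) (y : Sy n → ℂ) : MvPolynomial.aeval (Sum.elim w y) (DYb (υ := υ) F n) = De y := by
  unfold DYb
  rw [emq_ev]
  have h1 := De_map ((MvPolynomial.aeval y : MvPolynomial (Sy n) ℚ →ₐ[ℚ] ℂ) : MvPolynomial (Sy n) ℚ →+* ℂ)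
    fun p => MvPolynomial.X p
  have h2 : (fun p => ((MvPolynomial.aeval y : MvPolynomial (Sy n) ℚ →ₐ[ℚ] ℂ) : MvPolynomial (Sy n) ℚ →+* ℂ)
      (MvPolynomial.X p)) = y := by
    funext p
    exact MvPolynomial.aeval_X _ _
  rw [h2] at h1
  exact h1

theorem NYb_ev (w : υ → ℂ) (y : Sy n → ℂ) (x : Fin n × Fin n) :
    MvPolynomial.aeval (Sum.elim w y) (NYb F e V U x) =
      ((Matrix.of fun i r => w (e (i, r))) * V.map (algebraMap ℚ ℂ) * Nc y * U.map (algebraMap ℚ ℂ)) x.1 x.2 := by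
  unfold NYb
  have hN : ∀ p q, MvPolynomial.aeval y (Nc (fun s => MvPolynomial.X s) p q : MvPolynomial (Sy n) ℚ) = Nc y p q := by
    intro p q
    have h1 := Nc_map ((MvPolynomial.aeval y : MvPolynomial (Sy n) ℚ →ₐ[ℚ] ℂ) : MvPolynomial (Sy n) ℚ →+* ℂ)
      fun p => MvPolynomial.X p
    have h2 : (fun p => ((MvPolynomial.aeval y : MvPolynomial (Sy n) ℚ →ₐ[ℚ] ℂ) : MvPolynomial (Sy n) ℚ →+* ℂ)
        (MvPolynomial.X p)) = y := by
      funext p
      exact MvPolynomial.aeval_X _ _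
    rw [h2] at h1
    have h3 := congrFun (congrFun h1 p) q
    rw [Matrix.map_apply] at h3
    exact h3
  have hQ : ∀ z : ℚ, (algebraMap F ℂ) (algebraMap ℚ F z) = algebraMap ℚ ℂ z := fun z =>
    (IsScalarTower.algebraMap_apply ℚ F ℂ z).symm
  rw [Matrix.mul_apply, map_sum]
  refine Finset.sum_congr rfl fun q _ => ?_
  rw [Matrix.mul_apply, map_sum, Finset.sum_mul]
  refine Finset.sum_congr rfl fun p _ => ?_
  rw [Matrix.mul_apply, map_mul, map_mul, map_sum, emq_ev, hN, MvPolynomial.aeval_C, hQ]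
  congr 2
  refine Finset.sum_congr rfl fun r _ => ?_
  rw [map_mul, MvPolynomial.aeval_X, MvPolynomial.aeval_C, hQ]
  rfl

theorem NYb_deg {c : ℕ} (hc : ∀ p q : Fin n, (Nc (fun s => MvPolynomial.X s) p q : MvPolynomial (Sy n) ℚ).totalDegree ≤ c)
    (x : Fin n × Fin n) : (NYb F e V U x).totalDegree ≤ 1 + c := by
  unfold NYb
  refine (MvPolynomial.totalDegree_finsetSum _ _).trans (Finset.sup_le fun q _ => ?_)
  refine (MvPolynomial.totalDegree_finsetSum _ _).trans (Finset.sup_le fun p _ => ?_)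
  refine (MvPolynomial.totalDegree_mul _ _).trans ?_
  rw [MvPolynomial.totalDegree_C, add_zero]
  refine (MvPolynomial.totalDegree_mul _ _).trans (add_le_add ?_ ((emq_deg F _).trans (hc p q)))
  refine (MvPolynomial.totalDegree_finsetSum _ _).trans (Finset.sup_le fun r _ => ?_)
  refine (MvPolynomial.totalDegree_mul _ _).trans ?_
  rw [MvPolynomial.totalDegree_C, add_zero, MvPolynomial.totalDegree_X]

end

/-- the block data for curves -/
theorem blkY (hn : Even n) : ∃ c : ℕ, ∀ (a : Fin n → ℝ) (_ : StrictMono a) (m : Fin (n + 1)) (f : ℚ[X])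
    (_ : InGap a m 0) (_ : f.map (algebraMap ℚ ℝ) = ∏ i, (X - C (a i))) (Δ : ZDat n a m f) (t : ℕ)
    (_ : Ez Δ.Z (1 / (t : ℝ)) ∈ SpS ℝ n ∧ cd ((Ez Δ.Z (1 / (t : ℝ))).map (algebraMap ℝ ℂ)) ≠ 0)
    (_ : CM a m (1 / (t : ℝ)) = AC a m Δ.V * (Ez Δ.Z (1 / (t : ℝ))).map (algebraMap ℝ ℂ) *
        Δ.U.map (aeval (((1 / (t : ℝ) : ℝ)) : ℂ)))
    (F : IntermediateField ℚ ℂ) (υ : Type) (w : υ → ℂ) (e : Option (Fin n × Fin n) → υ)
    (_ : ∀ x : Fin n × Fin n, w (e (some x)) = CM a m 0 x.1 x.2),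
    Blk F c w (vI Δ t) (fun x : Fin n × Fin n => CM a m (1 / (t : ℝ)) x.1 x.2) (TorY n f t) := by
  classical
  set c₀ : ℕ := (De (fun p => MvPolynomial.X p) : MvPolynomial (Sy n) ℚ).totalDegree +
    ∑ p : Fin n, ∑ q : Fin n, (Nc (fun s => MvPolynomial.X s) p q : MvPolynomial (Sy n) ℚ).totalDegree with hc₀
  refine ⟨1 + c₀, fun a ha m f h0 hf Δ t hgood hCM F υ w e he => ?_⟩
  have hN : ∀ p q : Fin n, (Nc (fun s => MvPolynomial.X s) p q : MvPolynomial (Sy n) ℚ).totalDegree ≤ c₀ := by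
    intro p q
    have h1 : (Nc (fun s => MvPolynomial.X s) p q : MvPolynomial (Sy n) ℚ).totalDegree ≤
        ∑ q : Fin n, (Nc (fun s => MvPolynomial.X s) p q : MvPolynomial (Sy n) ℚ).totalDegree :=
      Finset.single_le_sum (f := fun q : Fin n =>
        (Nc (fun s => MvPolynomial.X s) p q : MvPolynomial (Sy n) ℚ).totalDegree) (fun _ _ => Nat.zero_le _)
        (Finset.mem_univ q)
    have h2 : ∑ q : Fin n, (Nc (fun s => MvPolynomial.X s) p q : MvPolynomial (Sy n) ℚ).totalDegree ≤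
        ∑ p : Fin n, ∑ q : Fin n, (Nc (fun s => MvPolynomial.X s) p q : MvPolynomial (Sy n) ℚ).totalDegree :=
      Finset.single_le_sum (f := fun p : Fin n => ∑ q : Fin n,
        (Nc (fun s => MvPolynomial.X s) p q : MvPolynomial (Sy n) ℚ).totalDegree) (fun _ _ => Nat.zero_le _)
        (Finset.mem_univ p)
    rw [hc₀]
    omega
  set z : ℚ := 1 / (t : ℚ) with hz
  set U : Matrix (Fin n) (Fin n) ℚ := Δ.U.map (Polynomial.eval z) with hU
  set V : Matrix (Fin n) (Fin n) ℚ := Δ.V.map (Polynomial.eval 0) with hV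
  have hUc : U.map (algebraMap ℚ ℂ) = Δ.U.map (aeval (z : ℂ)) := map_rat _ _
  have hVc : V.map (algebraMap ℚ ℂ) = Δ.V.map (aeval (0 : ℂ)) := by
    have := map_rat Δ.V 0
    rw [Rat.cast_zero] at this
    exact this
  set e' : Fin n × Fin n → υ := fun x => e (some x) with he'
  have hA : (Matrix.of fun i r => w (e' (i, r))) * V.map (algebraMap ℚ ℂ) = AC a m Δ.V := by
    unfold AC
    rw [hVc]
    congr 1
    ext i r
    exact he (i, r)
  have hval : ∀ (y : Sy n → ℂ) (Z : Fin n × Fin n → ℂ), De y ≠ 0 →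
      ((∀ p, MvPolynomial.aeval (Sum.elim w y) (NYb F e' V U p) = MvPolynomial.aeval (Sum.elim w y) (DYb F n) * Z p) ↔
      toM Z = AC a m Δ.V * Cay y * U.map (algebraMap ℚ ℂ)) := by
    intro y Z hy
    have h1 : ∀ p : Fin n × Fin n, MvPolynomial.aeval (Sum.elim w y) (NYb F e' V U p) =
        De y * (AC a m Δ.V * Cay y * U.map (algebraMap ℚ ℂ)) p.1 p.2 := by
      intro p
      rw [NYb_ev, hA]
      have h2 : Nc y = De y • Cay y := by
        unfold Cay
        rw [smul_smul, mul_inv_cancel₀ hy, one_smul]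
      rw [h2, Matrix.mul_smul, Matrix.smul_mul, Matrix.smul_apply, smul_eq_mul]
    constructor
    · intro h
      ext i j
      have h3 := h (i, j)
      rw [h1, DYb_ev] at h3
      exact (mul_left_cancel₀ hy h3).symm
    · intro h p
      rw [h1, DYb_ev, ← h]
      rfl
  have hC := Cay_co hn (SpS_map _ hgood.1) hgood.2
  refine ⟨DYb F n, NYb F e' V U, ?_, fun p => NYb_deg F e' V U hN p, ?_, ?_⟩
  · refine (emq_deg F _).trans ?_
    rw [hc₀]
    omega
  · refine (hval _ _ hC.1).2 ?_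
    show Matrix.of (fun i j => CM a m (1 / (t : ℝ)) i j) = AC a m Δ.V * Cay (co _) * _
    rw [hC.2, hUc, ← castC, ← hCM]
    rfl
  · intro Q hQ Z hZ
    -- density
    set L : Fin n × Fin n → MvPolynomial (Fin 1 × Fin n × Fin n) ℂ := fun x =>
      ∑ q, ∑ p, MvPolynomial.C (AC a m Δ.V x.1 p * U.map (algebraMap ℚ ℂ) q x.2) * MvPolynomial.X (0, p, q) with hL
    have hQv : ∀ S : Fin 1 → Matrix (Fin n) (Fin n) ℂ, MvPolynomial.aeval (px S) (MvPolynomial.aeval L Q) =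
        MvPolynomial.aeval (fun x : Fin n × Fin n => (AC a m Δ.V * S 0 * U.map (algebraMap ℚ ℂ)) x.1 x.2) Q := by
      intro S
      have h0 := MvPolynomial.comp_aeval_apply (f := L) (MvPolynomial.aeval (px S) :
        MvPolynomial (Fin 1 × Fin n × Fin n) ℂ →ₐ[ℂ] ℂ) Q
      rw [h0]
      congr 2
      funext x
      simp only [hL, map_sum, map_mul, MvPolynomial.aeval_X, MvPolynomial.aeval_C]
      rw [Matrix.mul_apply]
      refine Finset.sum_congr rfl fun q _ => ?_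
      rw [Matrix.mul_apply, Finset.sum_mul]
      refine Finset.sum_congr rfl fun p _ => ?_
      have hpx : px S (0, p, q) = S 0 p q := rfl
      rw [hpx]
      simp only [Algebra.algebraMap_self, RingHom.id_apply]
      ring
    have hden := dense_cay hn (MvPolynomial.aeval L Q) (fun S hS hcd => by
      rw [hQv]
      have h1 := Cay_co hn (hS 0) (hcd 0)
      refine hQ (co (S 0)) _ (by rw [DYb_ev]; exact h1.1) ((hval _ _ h1.1).2 ?_)
      rw [h1.2]
      rfl)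
    have hc0 : (-4 * Real.pi * Complex.I : ℂ) ≠ 0 := by
      have h1 := Complex.I_ne_zero
      have h2 : (Real.pi : ℂ) ≠ 0 := by exact_mod_cast Real.pi_ne_zero
      exact mul_ne_zero (mul_ne_zero (by norm_num) h2) h1
    have hAJ := AC_J hn ha h0 hf Δ.VJ
    have hdet : IsUnit (AC a m Δ.V).det := by
      rw [isUnit_iff_ne_zero]
      intro h2
      have := congrArg Matrix.det hAJ
      rw [Matrix.det_mul, Matrix.det_mul, h2, zero_mul, zero_mul, Matrix.det_smul] at this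
      exact mul_ne_zero (pow_ne_zero _ hc0) (jm_det hn) this.symm
    have h2 : AC a m Δ.V * ((AC a m Δ.V)⁻¹ * (toM Z * Δ.V.map (aeval (z : ℂ)))) = toM Z * Δ.V.map (aeval (z : ℂ)) := by
      rw [← Matrix.mul_assoc, Matrix.mul_nonsing_inv _ hdet, one_mul]
    have hS : (AC a m Δ.V)⁻¹ * (toM Z * Δ.V.map (aeval (z : ℂ))) ∈ SpS ℂ n := by
      refine SpS_of_eqC hn hc0 hAJ ?_
      rw [h2]
      exact CM_J (torY_iff.1 hZ) Δ
    have h3 := hden (fun _ => (AC a m Δ.V)⁻¹ * (toM Z * Δ.V.map (aeval (z : ℂ)))) fun _ => hS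
    rw [hQv] at h3
    rw [← h3]
    congr 2
    funext x
    show Z x = (AC a m Δ.V * ((AC a m Δ.V)⁻¹ * (toM Z * Δ.V.map (aeval (z : ℂ)))) * U.map (algebraMap ℚ ℂ)) x.1 x.2
    rw [h2, hUc, Matrix.mul_assoc, ← map_aevalC_mul, Δ.VU, map_aevalC_one, mul_one]
    rfl

/-- the family of curves `y² = f(x) (x - 1 / t)` -/
noncomputable def fdY {a : Fin n → ℝ} {m : Fin (n + 1)} {f : ℚ[X]} (Δ : ZDat n a m f) : FD where
  σ := Sy n
  ρ := Fin n × Fin n
  κ := Fin 0
  χ := Option (Fin n × Fin n)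
  fσ := inferInstance
  dσ := inferInstance
  fκ := inferInstance
  fχ := inferInstance
  cc := fun o => o.elim (2 * Real.pi * Complex.I) fun x => cper (er a m 0) x.1 x.2
  st := fun _ => Fin.elim0
  per := fun t x => cper (er a m (1 / (t : ℝ))) x.1 x.2
  Tor := TorY n f
  y := vI Δ
  val := fun G t g => vl Δ G t g
  ok := fun t => StrictMono (er a m (1 / (t : ℝ))) ∧
    (fun x : Fin n × Fin n => cper (er a m (1 / (t : ℝ))) x.1 x.2) ∈ TorY n f t

theorem fdY_ok (hn : Even n) {a : Fin n → ℝ} {m : Fin (n + 1)} {f : ℚ[X]} (Δ : ZDat n a m f)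
    (hf : f.map (algebraMap ℚ ℝ) = ∏ i, (X - C (a i))) (h0 : StrictMono (er a m 0)) : (fdY Δ).Ok := by
  have ha : StrictMono a := (inGap_of_er h0).1
  have hg0 : InGap a m 0 := (inGap_of_er h0).2
  have ha0 : ∀ i, a i ≠ 0 := fun i => ne_zero_of_gap hg0 i
  have hf0 : f.coeff 0 ≠ 0 := coeff_ne_of_gap hg0 hf
  obtain ⟨G0, hG0, hsep⟩ := exists_G0 a
  obtain ⟨c0, hc0⟩ := blkY hn
  obtain ⟨n₀, hn₀⟩ := good_large hn ha hg0 hf Δ
  refine ⟨G0, fun G hG => ?_, n₀, c0, fun t ht => ⟨er_of_inGap ha (hn₀ t ht).2.1, ?_⟩, fun G t g ht p => ?_, ?_⟩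
  · choose Ev hEvp hEv using fun (N : ℕ) => inpG hn ha ha0 hg0 hf hf0 Δ hG0 hsep hG N
    exact ⟨Ev, hEvp, fun N Δ0 H t ht g hg hgb P hP hP0 => hEv N Δ0 H t ht g hg hgb P hP hP0⟩
  · rw [torY_iff]
    have h1 : InGap a m (((1 / (t : ℚ) : ℚ)) : ℝ) := by
      rw [castR]
      exact (hn₀ t ht).2.1
    have h2 := CM_mem hn ha hf h1
    rw [castR] at h2
    exact h2
  · refine ⟨fun _ => 0, ?_⟩
    show vI Δ (t - G * g) p = vl Δ G t g p + _
    rw [vl_eq Δ (by omega)]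
    simp
  · intro t ht F υ w e he
    exact hc0 a ha m f hg0 hf Δ t (hn₀ t ht).1 (hn₀ t ht).2.2 F υ w e fun x => he (some x)

end Pool.Agent.Run7.h643.MX
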