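import Pool.Agent.Run7.h643.MW.Mix
import Pool.Agent.R351.GD.Hy.WinK

/-!
# Windows in several hyperelliptic families, chosen one after the other
-/

set_option autoImplicit false

open Module Filter Topology
open Polynomial (X C aeval)
open scoped Polynomial

namespace Pool.Agent.Run7.h643.MX

open Pool.Agent.Y118.HP Pool.Agent.Y37.GF Pool.Agent.Y118.HG
open Pool.Agent.R351.GD.H (sbE of_gen)
open Pool.Agent.R351.GD Pool.Agent.R351.GD.Hy
open Pool.Agent.Y916.Om (Dom Inp)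

variable {n : ℕ}

/-- a transcendence basis of finitely many numbers -/
theorem exists_tb {κ : Type} [Finite κ] (c0 : κ → ℂ) :
    ∃ Tc : Finset ℂ, (Tc.card : Cardinal) ≤ Algebra.trdeg ℚ (IntermediateField.adjoin ℚ (Set.range c0)) ∧
      (∀ o, IsAlgebraic (Algebra.adjoin ℚ (Tc : Set ℂ)) (c0 o)) ∧
      ∀ U : Finset ℂ, (∀ o, IsAlgebraic (Algebra.adjoin ℚ (U : Set ℂ)) (c0 o)) → Tc.card ≤ U.card := by
  classical
  set M := AlgebraicIndependent.matroid ℚ ℂ with hM
  obtain ⟨B, hB⟩ := M.exists_isBasis (Set.range c0) (Set.subset_univ _)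
  obtain ⟨hB1, hB2, hB3⟩ := AlgebraicIndependent.matroid_isBasis_iff.1 hB
  have hBfin : B.Finite := (Set.finite_range c0).subset hB2
  have hcard : B.encard = (hBfin.toFinset.card : ℕ∞) := hBfin.encard_eq_coe_toFinset_card
  refine ⟨hBfin.toFinset, ?_, ?_, ?_⟩
  · set F0 := IntermediateField.adjoin ℚ (Set.range c0) with hF0
    have hsub : ∀ b : B, (b : ℂ) ∈ F0 := fun b => IntermediateField.subset_adjoin ℚ _ (hB2 b.2)
    set x : B → F0 := fun b => ⟨b, hsub b⟩ with hx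
    have h1 : AlgebraicIndependent ℚ x := by
      refine AlgebraicIndependent.of_comp (F0.val) ?_
      exact hB1
    have h2 := h1.cardinalMk_le_trdeg
    have h3 : Cardinal.mk B = (hBfin.toFinset.card : Cardinal) := by
      rw [← Cardinal.mk_coe_finset]
      refine Cardinal.mk_congr (Equiv.setCongr ?_)
      ext z
      simp
    rw [← h3]
    exact h2
  · intro o
    rw [hBfin.coe_toFinset]
    exact hB3 _ ⟨o, rfl⟩
  · intro U hU
    have hcl : Set.range c0 ⊆ M.closure (U : Set ℂ) := by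
      rw [hM, AlgebraicIndependent.matroid_closure_eq]
      rintro _ ⟨o, rfl⟩
      exact hU o
    have h5 : B.encard ≤ (U : Set ℂ).encard := by
      have e1 : M.eRk B = B.encard := hB.indep.eRk_eq_encard
      have e2 : M.eRk B ≤ M.eRk (M.closure (U : Set ℂ)) := M.eRk_mono (hB2.trans hcl)
      rw [M.eRk_closure_eq] at e2
      rw [← e1]
      exact e2.trans (M.eRk_le_encard _)
    rw [hcard, Set.encard_coe_eq_coe_finsetCard] at h5
    exact_mod_cast h5

/-- relations with other indices -/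
theorem relK_reindex {υ κ κ' : Type} {δ : ℕ} {w : υ → ℂ} {y : κ → ℂ} (e : κ ≃ κ') (h : RelK δ w y) :
    RelK δ w (fun i => y (e.symm i)) := by
  obtain ⟨F, hF, hFd, P, hP, hP0, hne⟩ := h
  refine ⟨F, hF, hFd, MvPolynomial.rename (Sum.map id e) P, (MvPolynomial.totalDegree_rename_le _ _).trans hP, ?_, ?_⟩
  · rw [MvPolynomial.aeval_rename, ← hP0]
    congr 2
    funext v
    rcases v with v | v
    · rfl
    · show y (e.symm (e v)) = y v
      rw [Equiv.symm_apply_apply]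
  · intro h6
    apply hne
    refine MvPolynomial.funext fun z => ?_
    rw [map_zero, sbE]
    have h7 := of_gen h6 (fun i => z (e.symm i))
    rw [MvPolynomial.aeval_rename] at h7
    rw [← h7]
    congr 2
    funext v
    rcases v with v | v
    · rfl
    · show z v = z (e.symm (e v))
      rw [Equiv.symm_apply_apply]

theorem hypwin (hn : Even n) (s : ℕ) (a : Fin s → Fin n → ℝ) (f : Fin s → ℚ[X])
    (hf : ∀ j, (f j).map (algebraMap ℚ ℝ) = ∏ i, (X - C (a j i))) (m : Fin s → Fin (n + 1))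
    (h0 : ∀ j, StrictMono (er (a j) (m j) 0)) :
    ∃ G0 : ℕ, ∀ G : ℕ, G0 ≤ G → ∀ (k q N : ℕ) (ε : Fin N ≃ Fin s × Fin k), ∃ C₀ : ℕ, ∀ (δ : ℕ) (H t : Fin s → (Fin s → Fin k → ℕ) → ℕ),
      (∀ j g g', (∀ i, i < j → g i = g' i) → H j g = H j g' ∧ t j g = t j g') →
      ∀ w : Fin q → ℂ, ∃ S : Fin s → (Fin s → Fin k → ℕ) → Finset ℕ,
        (∀ j g, 2 * (S j g).card ≤ 2 * q + s * (n * (n + 1) + 2) + j * k * (n * (n + 1))) ∧
        (∀ j g, ((S j g).card : Cardinal) ≤ q + Algebra.trdeg ℚ (IntermediateField.adjoin ℚ (Set.range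
          (pt (fun j => Matrix.of (cper (er (a j) (m j) 0))) (2 * Real.pi * Complex.I)))) +
          (j * k * (n * (n + 1) / 2) : ℕ)) ∧
        (∀ j g g', (∀ i, i < j → g i = g' i) → S j g = S j g') ∧
        ∀ g : Fin s → Fin k → ℕ, (∀ j, (H j g + 2) ^ (δ + 2) ^ C₀ ≤ t j g) → (∀ j, Function.Injective (g j)) →
          (∀ j i, 1 ≤ g j i ∧ g j i ≤ H j g ∧ g j i ∉ S j g) →
          (∀ j i, G * g j i < t j g) ∧
          GoodY δ w (fun l => a (ε l).1) (fun l => m (ε l).1)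
            (fun l => f (ε l).1) (fun l : Fin N => t (ε l).1 g -
              G * g (ε l).1 (ε l).2) := by
  classical
  have ha : ∀ j, StrictMono (a j) := fun j => (inGap_of_er (h0 j)).1
  have hg0 : ∀ j, InGap (a j) (m j) 0 := fun j => (inGap_of_er (h0 j)).2
  have ha0 : ∀ j i, a j i ≠ 0 := fun j i => ne_zero_of_gap (hg0 j) i
  have hf0 : ∀ j, (f j).coeff 0 ≠ 0 := fun j => coeff_ne_of_gap (hg0 j) (hf j)
  have Δ : ∀ j, ZDat n (a j) (m j) (f j) := fun j => Classical.choice (exists_ZDat hn (ha j) (hg0 j) (hf j) (hf0 j))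
  -- the central fibres
  obtain ⟨Tc, hTc1, hTc2, hTc3⟩ := exists_tb (pt (fun j => CM (a j) (m j) 0) (2 * Real.pi * Complex.I : ℂ))
  have hT1 : ∀ l i j, IsAlgebraic (Algebra.adjoin ℚ (Tc : Set ℂ)) (CM (a l) (m l) 0 i j) := fun l i j =>
    hTc2 (some (l, i, j))
  have hT2 : IsAlgebraic (Algebra.adjoin ℚ (Tc : Set ℂ)) (2 * Real.pi * Complex.I : ℂ) := hTc2 none
  have hTcn : 0 < s → 2 * Tc.card ≤ s * (n * (n + 1) + 2) := by
    intro hs
    choose U hU1 hU2 hU3 hU4 using fun j => exists_Tc hn (ha j) (hg0 j) (hf j)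
    have h1 := hTc3 (Finset.univ.biUnion U) (by
      have hmono : ∀ j (z : ℂ), IsAlgebraic (Algebra.adjoin ℚ (U j : Set ℂ)) z →
          IsAlgebraic (Algebra.adjoin ℚ ((Finset.univ.biUnion U : Finset ℂ) : Set ℂ)) z := by
        intro j z hz
        have h2 : z ∈ (AlgebraicIndependent.matroid ℚ ℂ).closure (U j : Set ℂ) := by
          rw [AlgebraicIndependent.matroid_closure_eq]
          exact hz
        have h3 := (AlgebraicIndependent.matroid ℚ ℂ).closure_subset_closure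
          (Finset.coe_subset.2 (Finset.subset_biUnion_of_mem U (Finset.mem_univ j))) h2
        rw [AlgebraicIndependent.matroid_closure_eq] at h3
        exact h3
      rintro (_ | ⟨l, i, j⟩)
      · exact hmono ⟨0, hs⟩ _ (hU4 _)
      · exact hmono l _ (hU3 l i j))
    have h2 : (Finset.univ.biUnion U).card ≤ ∑ j, (U j).card := Finset.card_biUnion_le
    have h3 : 2 * ∑ j : Fin s, (U j).card ≤ s * (n * (n + 1) + 2) := by
      rw [Finset.mul_sum]
      refine (Finset.sum_le_card_nsmul _ _ _ fun j _ => hU2 j).trans ?_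
      rw [Finset.card_univ, Fintype.card_fin, smul_eq_mul]
    omega
  choose G0 hG0 hsep using fun j => exists_G0 (a j)
  refine ⟨∑ j, G0 j, fun G hG k q N ε => ?_⟩
  have hGj : ∀ j, G0 j ≤ G := fun j => (Finset.single_le_sum (f := G0) (fun _ _ => Nat.zero_le _)
    (Finset.mem_univ j)).trans hG
  -- the fixed constants
  set w₂ : (Option (Fin s × Fin n × Fin n) ⊕ (Fin s × Fin n × Fin n)) ⊕ Tc → ℂ :=
    Sum.elim (Sum.elim (pt (fun j => CM (a j) (m j) 0) (2 * Real.pi * Complex.I))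
      fun x => AC (a x.1) (m x.1) (Δ x.1).V x.2.1 x.2.2) fun z => (z : ℂ) with hw₂
  set T₂ : Finset ((Option (Fin s × Fin n × Fin n) ⊕ (Fin s × Fin n × Fin n)) ⊕ Tc) :=
    Finset.univ.map ⟨Sum.inr, Sum.inr_injective⟩ with hT₂
  have hTcard : T₂.card = Tc.card := by rw [hT₂, Finset.card_map, Finset.card_univ, Fintype.card_coe]
  have hwT : w₂ '' (T₂ : Set _) = (Tc : Set ℂ) := by
    ext z
    constructor
    · rintro ⟨x, hx, rfl⟩
      rw [hT₂, Finset.coe_map] at hx
      obtain ⟨z', -, rfl⟩ := hx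
      exact z'.2
    · intro hz
      refine ⟨Sum.inr ⟨z, hz⟩, ?_, rfl⟩
      rw [hT₂, Finset.mem_coe, Finset.mem_map]
      exact ⟨⟨z, hz⟩, Finset.mem_univ _, rfl⟩
  have hTalg : ∀ j, IsAlgebraic (Algebra.adjoin ℚ (w₂ '' (T₂ : Set _))) (w₂ j) := by
    rw [hwT]
    rintro (((_ | ⟨l, i, j⟩) | x) | z)
    · exact hT2
    · exact hT1 l i j
    · have hL : AC (a x.1) (m x.1) (Δ x.1).V x.2.1 x.2.2 ∈
          Subalgebra.algebraicClosure (Algebra.adjoin ℚ (Tc : Set ℂ)) ℂ := by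
        unfold AC
        rw [Matrix.mul_apply]
        refine Subalgebra.sum_mem _ fun k _ => ?_
        refine (hT1 _ _ k).mul ?_
        rw [Matrix.map_apply]
        have h1 : (aeval (0 : ℂ) ((Δ x.1).V k x.2.2) : ℂ) = algebraMap ℚ ℂ (aeval (0 : ℚ) ((Δ x.1).V k x.2.2)) := by
          rw [← Polynomial.aeval_algebraMap_apply ℂ (0 : ℚ) ((Δ x.1).V k x.2.2), map_zero]
        rw [h1, IsScalarTower.algebraMap_apply ℚ (Algebra.adjoin ℚ (Tc : Set ℂ)) ℂ]
        exact isAlgebraic_algebraMap _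
      exact hL
    · have h1 : w₂ (Sum.inr z) = algebraMap (Algebra.adjoin ℚ (Tc : Set ℂ)) ℂ
        ⟨(z : ℂ), Algebra.subset_adjoin z.2⟩ := rfl
      rw [h1]
      exact isAlgebraic_algebraMap _
  obtain ⟨A, B, hAB⟩ := Dom.exists w₂ T₂ hTalg
  choose Ev hEvp hEv using fun (j : Fin s) (N : ℕ) =>
    inpG hn (ha j) (ha0 j) (hg0 j) (hf j) (hf0 j) (Δ j) (hG0 j) (hsep j) (hGj j) N
  obtain ⟨E1, hE1p, hE1⟩ := mix s (fun _ => k) (fun _ => Sy n) (fun _ => Fin 0) Ev hEvp (q + Tc.card) A B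
  obtain ⟨c, hc⟩ := genY_of hn (N := N) (a := fun l => a (ε l).1)
    (fun l => ha _) (m := fun l => m (ε l).1) (f := fun l => f (ε l).1)
    (fun l => hg0 _) (fun l => hf _) (fun l => Δ _)
  choose n₀ hn₀ using fun j => good_large hn (ha j) (hg0 j) (hf j) (Δ j)
  set n₁ : ℕ := ∑ j, n₀ j with hn₁
  have hn₁j : ∀ j, n₀ j ≤ n₁ := fun j => Finset.single_le_sum (f := n₀) (fun _ _ => Nat.zero_le _)
    (Finset.mem_univ j)
  obtain ⟨C₀, hC₀⟩ : PB fun δ => E1 ((δ * δ + δ + 1) * c) + (G + 1 + n₁) :=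
    (hE1p.comp ((((PB.id.mul PB.id).add PB.id).add (PB.const 1)).mul (PB.const c))).add (PB.const _)
  refine ⟨C₀, fun δ H t hdep w => ?_⟩
  obtain ⟨S, hS, hSdep, hmain⟩ := hE1 ((δ * δ + δ + 1) * c) ℂ (fun _ => ℕ) (fun _ t => t)
    (fun j t g => vl (Δ j) G t g) (fun j N Δ0 H t ht g hg hgb P hP hP0 => hEv j N Δ0 H t ht g hg hgb P hP hP0)
    (Fin q ⊕ ((Option (Fin s × Fin n × Fin n) ⊕ (Fin s × Fin n × Fin n)) ⊕ Tc)) (Sum.elim w w₂)
    (Finset.univ.disjSum T₂)
    (by rw [Finset.card_disjSum, Finset.card_univ, Fintype.card_fin, hTcard]) (dom_sum w hAB)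
    H t (fun _ _ => Fin.elim0) (fun j g p => vI (Δ j) (t j g - G * g j p.1) p.2)
    (fun j g g' h => ⟨(hdep j g g' h).1, (hdep j g g' h).2, rfl⟩)
    (fun j g g' h => by
      funext p
      rw [(hdep j g g' fun i hi => h i hi.le).2, h j le_rfl])
  have hScard : ∀ j g, (S j g).card ≤ q + Tc.card + j * (k * Fintype.card (Sy n)) := by
    intro j g
    have h1 := hS j g
    rw [Finset.sum_const, smul_eq_mul, Fin.card_Iio, Fintype.card_fin, add_zero] at h1
    exact h1
  have hsy : 2 * Fintype.card (Sy n) = n * (n + 1) := card_Sy n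
  have hsy' : Fintype.card (Sy n) = n * (n + 1) / 2 := by omega
  refine ⟨S, fun j g => ?_, fun j g => ?_, hSdep, fun g hg hinj hgS => ?_⟩
  · have h1 := hScard j g
    have h2 := hTcn j.pos
    calc 2 * (S j g).card ≤ 2 * (q + Tc.card + j * (k * Fintype.card (Sy n))) := Nat.mul_le_mul_left _ h1
      _ = 2 * q + 2 * Tc.card + j * k * (2 * Fintype.card (Sy n)) := by ring
      _ ≤ _ := by rw [hsy]; omega
  · rw [hsy'] at hScard
    calc ((S j g).card : Cardinal) ≤ ((q + Tc.card + j * (k * (n * (n + 1) / 2)) : ℕ) : Cardinal) := by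
          exact_mod_cast hScard j g
      _ = (q : Cardinal) + (Tc.card : Cardinal) + ((j * k * (n * (n + 1) / 2) : ℕ) : Cardinal) := by
          rw [mul_assoc]
          push_cast
          rfl
      _ ≤ _ := add_le_add (add_le_add le_rfl hTc1) le_rfl
  · have hH2 : ∀ j, 1 ≤ H j g + 2 := fun j => by omega
    have ht' : ∀ j, (H j g + 2) ^ (E1 ((δ * δ + δ + 1) * c) + (G + 1 + n₁)) ≤ t j g := fun j =>
      (Nat.pow_le_pow_right (hH2 j) (hC₀ δ)).trans (hg j)
    have ht1 : ∀ j, (H j g + 2) ^ E1 ((δ * δ + δ + 1) * c) ≤ t j g := fun j =>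
      (Nat.pow_le_pow_right (hH2 j) (Nat.le_add_right _ _)).trans (ht' j)
    have ht2 : ∀ j, G * H j g + n₁ + 1 ≤ t j g := by
      intro j
      have h1 : (H j g + 2) ^ (G + 1 + n₁) ≤ t j g := (Nat.pow_le_pow_right (hH2 j) (Nat.le_add_left _ _)).trans (ht' j)
      refine le_trans ?_ h1
      generalize H j g = Hj
      have h2 : G + 1 ≤ 2 ^ G := Nat.lt_two_pow_self
      have h3 : 2 ^ G ≤ (Hj + 2) ^ G := Nat.pow_le_pow_left (by omega) _
      have h4 : n₁ + 1 ≤ 2 ^ n₁ := Nat.lt_two_pow_self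
      have h5 : 2 ^ n₁ ≤ (Hj + 2) ^ n₁ := Nat.pow_le_pow_left (by omega) _
      have h6 : (G + 1) * (Hj + 2) ≤ (Hj + 2) ^ (G + 1) := by
        rw [pow_succ]
        exact Nat.mul_le_mul_right _ (h2.trans h3)
      have h7 : (G + 1) * (Hj + 2) * (n₁ + 1) ≤ (Hj + 2) ^ (G + 1 + n₁) := by
        rw [pow_add]
        exact Nat.mul_le_mul h6 (h4.trans h5)
      refine le_trans ?_ h7
      nlinarith [Nat.zero_le (G * Hj * n₁), Nat.zero_le (G * Hj), Nat.zero_le (G * n₁), Nat.zero_le (Hj * n₁)]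
    have hlt : ∀ j i, G * g j i + n₁ + 1 ≤ t j g := fun j i => by
      have h1 := Nat.mul_le_mul_left G (hgS j i).2.1
      have h2 := ht2 j
      omega
    have hgood := fun j i => hn₀ j (t j g - G * g j i) (by have := hlt j i; have := hn₁j j; omega)
    refine ⟨fun j i => by have := hlt j i; omega, ?_⟩
    refine good_of hn (fun _ => ha _) (fun _ => hf _) δ w _ (fun l => (hgood _ _).2.1) ?_
    by_contra hbad
    have hrel := relK_map (w' := Sum.elim w w₂)
      (Sum.elim (Sum.elim Sum.inl fun o => Sum.inr (Sum.inl (Sum.inl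
        (o.map fun x => ((ε x.1).1, x.2)))))
        fun x => Sum.inr (Sum.inl (Sum.inr ((ε x.1).1, x.2))))
      (by rintro ((v | (_ | v)) | v) <;> rfl) (hc (δ * δ + δ + 1) _ _
        (fun l => t (ε l).1 g - G * g (ε l).1 (ε l).2)
        (fun l => ⟨(hgood _ _).1, (hgood _ _).2.2⟩) hbad)
    set Y : (Fin s × Fin k) × Sy n → ℂ := fun p => vI (Δ p.1.1) (t p.1.1 g - G * g p.1.1 p.1.2) p.2 with hY
    have hrel2 : RelK ((δ * δ + δ + 1) * c) (Sum.elim w w₂) Y := by
      have h1 := relK_reindex (Equiv.prodCongr ε (Equiv.refl (Sy n))) hrel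
      have h2 : (fun p : (Fin s × Fin k) × Sy n => Y (ε (ε.symm p.1), p.2)) = Y := by
        funext p
        rw [Equiv.apply_symm_apply]
      rw [← h2]
      exact h1
    obtain ⟨F, hF, hFd, P, hP, hP0, hne⟩ := relK_reindex ((Equiv.prodAssoc (Fin s) (Fin k) (Sy n)).trans
      (Equiv.sigmaEquivProd (Fin s) (Fin k × Sy n)).symm) hrel2
    apply hne
    refine hmain g ht1 hinj hgS F hF hFd (fun j p => ⟨1, one_ne_zero, ?_⟩)
      (fun j p => vI (Δ j) (t j g - G * g j p.1) p.2) (fun j p => ⟨1, one_ne_zero, ?_⟩) P hP ?_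
    · have h5 : vI (Δ j) (t j g - G * g j p.1) p.2 - ((1 : F) : ℂ) * vl (Δ j) G (t j g) (g j p.1) p.2 = 0 := by
        rw [vl_eq (Δ j) (by have := hlt j p.1; omega)]
        push_cast
        ring
      rw [h5]
      exact Submodule.zero_mem _
    · have h5 : vI (Δ j) (t j g - G * g j p.1) p.2 - ((1 : F) : ℂ) * vI (Δ j) (t j g - G * g j p.1) p.2 = 0 := by
        push_cast
        ring
      rw [h5]
      exact Submodule.zero_mem _
    · exact hP0

end Pool.Agent.Run7.h643.MX
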