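import Pool.Agent.Run7.h643.MW.Mix
import Pool.Agent.Run7.h643.MW.AlgMix
import Pool.Agent.Run7.h643.MW.Hyp

/-!
# Families of different types in successive windows
-/

set_option autoImplicit false

namespace Pool.Agent.Run7.h643.MX

open Module
open Pool.Agent.R351.GD Pool.Agent.R351.GD.Hy
open Pool.Agent.R351.GD.H (of_gen)
open Pool.Agent.Y916.Om (Dom Inp)

/-- the block data at one member of a family: the points `Z = N(w, y) / D(w, y)` are dense in `Tor`, and the coordinates `y₀`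
give the point `Z₀` -/
def Blk {σ ρ υ : Type} (F : IntermediateField ℚ ℂ) (c : ℕ) (w : υ → ℂ) (y₀ : σ → ℂ) (Z₀ : ρ → ℂ) (Tor : Set (ρ → ℂ)) : Prop :=
  ∃ (D : MvPolynomial (υ ⊕ σ) F) (N : ρ → MvPolynomial (υ ⊕ σ) F), D.totalDegree ≤ c ∧ (∀ p, (N p).totalDegree ≤ c) ∧
    (∀ p, MvPolynomial.aeval (Sum.elim w y₀) (N p) = MvPolynomial.aeval (Sum.elim w y₀) D * Z₀ p) ∧
    ∀ Q : MvPolynomial ρ ℂ, (∀ (y : σ → ℂ) (Z : ρ → ℂ), MvPolynomial.aeval (Sum.elim w y) D ≠ 0 →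
      (∀ p, MvPolynomial.aeval (Sum.elim w y) (N p) = MvPolynomial.aeval (Sum.elim w y) D * Z p) →
      MvPolynomial.aeval Z Q = 0) → ∀ Z ∈ Tor, MvPolynomial.aeval Z Q = 0

/-- families -/
structure FD where
  /-- coordinates -/
  σ : Type
  /-- entries -/
  ρ : Type
  /-- constants of the stage -/
  κ : Type
  /-- constants of the family -/
  χ : Type
  fσ : Fintype σ
  dσ : DecidableEq σ
  fκ : Fintype κ
  fχ : Fintype χ
  cc : χ → ℂ
  st : ℕ → κ → ℂ
  per : ℕ → ρ → ℂ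
  Tor : ℕ → Set (ρ → ℂ)
  y : ℕ → σ → ℂ
  val : ℕ → ℕ → ℕ → σ → ℂ
  /-- the admissible members -/
  ok : ℕ → Prop

attribute [instance] FD.fσ FD.dσ FD.fκ FD.fχ

/-- the properties of a family which are used -/
def FD.Ok (φ : FD) : Prop :=
  ∃ G0 : ℕ, (∀ G, G0 ≤ G → ∃ Ev : ℕ → ℕ → ℕ, (∀ N, PB (Ev N)) ∧ Inp Ev (fun t : ℕ => t) (φ.val G)) ∧
  ∃ n0 c0 : ℕ, (∀ m, n0 ≤ m → φ.ok m) ∧
    (∀ G t g, G * g + n0 ≤ t → ∀ s, ∃ c : φ.κ → ℚ, φ.y (t - G * g) s = φ.val G t g s + ∑ i, (c i : ℂ) * φ.st t i) ∧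
    ∀ m, n0 ≤ m → ∀ (F : IntermediateField ℚ ℂ) (υ : Type) (w : υ → ℂ) (e : φ.χ → υ), (∀ x, w (e x) = φ.cc x) →
      Blk F c0 w (φ.y m) (φ.per m) (φ.Tor m)

/-- all the constants of the families -/
def ccs {s : ℕ} (φ : Fin s → FD) : (Σ j, (φ j).χ) → ℂ := fun x => (φ x.1).cc x.2

/-- the statement for a tuple of members of the families: all relations of degree `≤ δ` over number fields of degree `≤ δ`
hold on the product of the torsors -/
def GenF {s k q : ℕ} (δ : ℕ) (w : Fin q → ℂ) (φ : Fin s → FD) (m : Fin s → Fin k → ℕ) : Prop :=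
  ∀ F : IntermediateField ℚ ℂ, FiniteDimensional ℚ F → finrank ℚ F ≤ δ →
    ∀ P : MvPolynomial ((Fin q ⊕ (Σ j, (φ j).χ)) ⊕ (Σ l : Fin s × Fin k, (φ l.1).ρ)) F, P.totalDegree ≤ δ →
    MvPolynomial.aeval (Sum.elim (Sum.elim w (ccs φ)) fun p : (Σ l : Fin s × Fin k, (φ l.1).ρ) =>
      (φ p.1.1).per (m p.1.1 p.1.2) p.2) P = 0 →
    ∀ Z : ∀ l : Fin s × Fin k, (φ l.1).ρ → ℂ, (∀ l, Z l ∈ (φ l.1).Tor (m l.1 l.2)) →
      MvPolynomial.aeval (Sum.elim (Sum.elim w (ccs φ)) fun p : (Σ l : Fin s × Fin k, (φ l.1).ρ) => Z p.1 p.2) P = 0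

theorem fdwin (s : ℕ) (φ : Fin s → FD) (hφ : ∀ j, (φ j).Ok) :
    ∃ G0 : ℕ, ∀ G : ℕ, G0 ≤ G → ∀ k q : ℕ, ∃ C₀ : ℕ, ∀ (δ : ℕ) (H t : Fin s → (Fin s → Fin k → ℕ) → ℕ),
      (∀ j g g', (∀ i, i < j → g i = g' i) → H j g = H j g' ∧ t j g = t j g') →
      ∀ w : Fin q → ℂ, ∃ S : Fin s → (Fin s → Fin k → ℕ) → Finset ℕ,
        (∀ j g, ((S j g).card : Cardinal) ≤ q + Algebra.trdeg ℚ (IntermediateField.adjoin ℚ (Set.range (ccs φ))) +
          (k * ∑ i ∈ Finset.Iio j, Fintype.card (φ i).σ + Fintype.card (φ j).κ : ℕ)) ∧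
        (∀ j g g', (∀ i, i < j → g i = g' i) → S j g = S j g') ∧
        ∀ g : Fin s → Fin k → ℕ, (∀ j, (H j g + 2) ^ (δ + 2) ^ C₀ ≤ t j g) → (∀ j, Function.Injective (g j)) →
          (∀ j i, 1 ≤ g j i ∧ g j i ≤ H j g ∧ g j i ∉ S j g) →
          (∀ j i, G * g j i < t j g ∧ (φ j).ok (t j g - G * g j i)) ∧ GenF δ w φ fun j i => t j g - G * g j i := by
  classical
  obtain ⟨Tc, hTc1, hTc2, -⟩ := exists_tb (ccs φ)
  choose G0 hinp n0 c0 hok hlink hblk0 using hφ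
  refine ⟨∑ j, G0 j, fun G hG k q => ?_⟩
  have hGj : ∀ j, G0 j ≤ G := fun j => (Finset.single_le_sum (f := G0) (fun _ _ => Nat.zero_le _)
    (Finset.mem_univ j)).trans hG
  choose Ev hEvp hEv using fun j => hinp j G (hGj j)
  set w₂ : (Σ j, (φ j).χ) ⊕ Tc → ℂ := Sum.elim (ccs φ) fun z => (z : ℂ) with hw₂
  set T₂ : Finset ((Σ j, (φ j).χ) ⊕ Tc) := Finset.univ.map ⟨Sum.inr, Sum.inr_injective⟩ with hT₂
  have hTcard : T₂.card = Tc.card := by rw [hT₂, Finset.card_map, Finset.card_univ, Fintype.card_coe]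
  have hwT : w₂ '' (T₂ : Set _) = (Tc : Set ℂ) := by
    ext z
    constructor
    · rintro ⟨x, hx, rfl⟩
      rw [hT₂, Finset.coe_map] at hx
      obtain ⟨z', -, rfl⟩ := hx
      exact z'.2
    · intro hz
      refine ⟨Sum.inr ⟨z, hz⟩, ?_, rfl⟩
      rw [hT₂, Finset.mem_coe, Finset.mem_map]
      exact ⟨⟨z, hz⟩, Finset.mem_univ _, rfl⟩
  have hTalg : ∀ j, IsAlgebraic (Algebra.adjoin ℚ (w₂ '' (T₂ : Set _))) (w₂ j) := by
    rw [hwT]
    rintro (x | z)
    · exact hTc2 x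
    · have h1 : w₂ (Sum.inr z) = algebraMap (Algebra.adjoin ℚ (Tc : Set ℂ)) ℂ
        ⟨(z : ℂ), Algebra.subset_adjoin z.2⟩ := rfl
      rw [h1]
      exact isAlgebraic_algebraMap _
  obtain ⟨A, B, hAB⟩ := Dom.exists w₂ T₂ hTalg
  obtain ⟨E1, hE1p, hE1⟩ := mix s (fun _ => k) (fun j => (φ j).σ) (fun j => (φ j).κ) Ev hEvp
    (q + Tc.card) A B
  set c₁ : ℕ := ∑ j, c0 j with hc₁
  have hc₁j : ∀ j, c0 j ≤ c₁ := fun j => Finset.single_le_sum (f := c0) (fun _ _ => Nat.zero_le _)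
    (Finset.mem_univ j)
  set c : ℕ := (Fintype.card (Fin s × Fin k) + 1) * (c₁ + 1) with hc
  set n₁ : ℕ := ∑ j, n0 j with hn₁
  have hn₁j : ∀ j, n0 j ≤ n₁ := fun j => Finset.single_le_sum (f := n0) (fun _ _ => Nat.zero_le _)
    (Finset.mem_univ j)
  obtain ⟨C₀, hC₀⟩ : PB fun δ => E1 (δ * c) + (G + 1 + n₁) :=
    (hE1p.comp (PB.id.mul (PB.const c))).add (PB.const _)
  refine ⟨C₀, fun δ H t hdep w => ?_⟩
  obtain ⟨S, hS, hSdep, hmain⟩ := hE1 (δ * c) ℂ (fun _ => ℕ) (fun _ t => t)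
    (fun j t g => (φ j).val G t g) hEv
    (Fin q ⊕ ((Σ j, (φ j).χ) ⊕ Tc)) (Sum.elim w w₂) (Finset.univ.disjSum T₂)
    (by rw [Finset.card_disjSum, Finset.card_univ, Fintype.card_fin, hTcard]) (dom_sum w hAB)
    H t (fun j g => (φ j).st (t j g)) (fun j g p => (φ j).y (t j g - G * g j p.1) p.2)
    (fun j g g' h => ⟨(hdep j g g' h).1, (hdep j g g' h).2, by rw [(hdep j g g' h).2]⟩)
    (fun j g g' h => by
      funext p
      rw [(hdep j g g' fun i hi => h i hi.le).2, h j le_rfl])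
  refine ⟨S, fun j g => ?_, hSdep, fun g hg hinj hgS => ?_⟩
  · have h1 := hS j g
    rw [← Finset.mul_sum] at h1
    calc ((S j g).card : Cardinal) ≤
        ((q + Tc.card + k * ∑ i ∈ Finset.Iio j, Fintype.card (φ i).σ + Fintype.card (φ j).κ : ℕ) : Cardinal) := by
          exact_mod_cast h1
      _ = (q : Cardinal) + (Tc.card : Cardinal) +
          ((k * ∑ i ∈ Finset.Iio j, Fintype.card (φ i).σ + Fintype.card (φ j).κ : ℕ) : Cardinal) := by
          push_cast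
          ring
      _ ≤ _ := add_le_add (add_le_add le_rfl hTc1) le_rfl
  · have hH2 : ∀ j, 1 ≤ H j g + 2 := fun j => by omega
    have ht' : ∀ j, (H j g + 2) ^ (E1 (δ * c) + (G + 1 + n₁)) ≤ t j g := fun j =>
      (Nat.pow_le_pow_right (hH2 j) (hC₀ δ)).trans (hg j)
    have ht1 : ∀ j, (H j g + 2) ^ E1 (δ * c) ≤ t j g := fun j =>
      (Nat.pow_le_pow_right (hH2 j) (Nat.le_add_right _ _)).trans (ht' j)
    have ht2 : ∀ j, G * H j g + n₁ + 1 ≤ t j g := by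
      intro j
      have h1 : (H j g + 2) ^ (G + 1 + n₁) ≤ t j g := (Nat.pow_le_pow_right (hH2 j) (Nat.le_add_left _ _)).trans (ht' j)
      refine le_trans ?_ h1
      generalize H j g = Hj
      have h2 : G + 1 ≤ 2 ^ G := Nat.lt_two_pow_self
      have h3 : 2 ^ G ≤ (Hj + 2) ^ G := Nat.pow_le_pow_left (by omega) _
      have h4 : n₁ + 1 ≤ 2 ^ n₁ := Nat.lt_two_pow_self
      have h5 : 2 ^ n₁ ≤ (Hj + 2) ^ n₁ := Nat.pow_le_pow_left (by omega) _
      have h6 : (G + 1) * (Hj + 2) ≤ (Hj + 2) ^ (G + 1) := by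
        rw [pow_succ]
        exact Nat.mul_le_mul_right _ (h2.trans h3)
      have h7 : (G + 1) * (Hj + 2) * (n₁ + 1) ≤ (Hj + 2) ^ (G + 1 + n₁) := by
        rw [pow_add]
        exact Nat.mul_le_mul h6 (h4.trans h5)
      refine le_trans ?_ h7
      nlinarith [Nat.zero_le (G * Hj * n₁), Nat.zero_le (G * Hj), Nat.zero_le (G * n₁), Nat.zero_le (Hj * n₁)]
    have hlt : ∀ j i, G * g j i + n₁ + 1 ≤ t j g := fun j i => by
      have h1 := Nat.mul_le_mul_left G (hgS j i).2.1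
      have h2 := ht2 j
      omega
    refine ⟨fun j i => ⟨by have := hlt j i; omega, hok j _ (by have := hlt j i; have := hn₁j j; omega)⟩, ?_⟩
    intro F hF hFd P hP hP0 Z hZ
    have hδ : δ ≤ δ * c := Nat.le_mul_of_pos_right _ (by rw [hc]; positivity)
    -- the constants
    set w' : Fin q ⊕ ((Σ j, (φ j).χ) ⊕ Tc) → ℂ := Sum.elim w w₂ with hw'
    set ee : Fin q ⊕ (Σ j, (φ j).χ) → Fin q ⊕ ((Σ j, (φ j).χ) ⊕ Tc) :=
      Sum.elim Sum.inl fun x => Sum.inr (Sum.inl x) with hee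
    have hwe : ∀ {τ : Type} (y : τ → ℂ), (Sum.elim w' y) ∘ (Sum.map ee id) = Sum.elim (Sum.elim w (ccs φ)) y := by
      intro τ y
      funext v
      rcases v with (v | v) | v <;> rfl
    have hblk : ∀ l : Fin s × Fin k, Blk F (c0 l.1) w' ((φ l.1).y (t l.1 g - G * g l.1 l.2))
        ((φ l.1).per (t l.1 g - G * g l.1 l.2)) ((φ l.1).Tor (t l.1 g - G * g l.1 l.2)) := fun l =>
      hblk0 l.1 _ (by have := hlt l.1 l.2; have := hn₁j l.1; omega) F _ w' (fun x => Sum.inr (Sum.inl ⟨l.1, x⟩))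
        fun x => rfl
    choose D N hD hN hNy hdens using hblk
    have hmain' := hmain g ht1 hinj hgS F hF (hFd.trans hδ) (fun j p => by
        obtain ⟨c, hcs⟩ := hlink j G (t j g) (g j p.1) (by have := hlt j p.1; have := hn₁j j; omega) p.2
        refine ⟨1, one_ne_zero, ?_⟩
        have h5 : (φ j).y (t j g - G * g j p.1) p.2 - ((1 : F) : ℂ) * (φ j).val G (t j g) (g j p.1) p.2 =
            ∑ i, (algebraMap ℚ F (c i)) • (φ j).st (t j g) i := by
          rw [hcs]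
          push_cast
          rw [one_mul, add_sub_cancel_left]
          refine Finset.sum_congr rfl fun i _ => ?_
          rw [Algebra.smul_def]
          congr 1
        rw [h5]
        refine Submodule.sum_mem _ fun i _ => Submodule.smul_mem _ _ (Submodule.subset_span (Or.inr ⟨Sum.inr i, rfl⟩)))
      (fun j p => (φ j).y (t j g - G * g j p.1) p.2) (fun j p => ⟨1, one_ne_zero, by
        have h5 : (φ j).y (t j g - G * g j p.1) p.2 - ((1 : F) : ℂ) * (φ j).y (t j g - G * g j p.1) p.2 = 0 := by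
          push_cast
          ring
        rw [h5]
        exact Submodule.zero_mem _⟩)
    have h1 := alg_mix w' D N c₁ (fun l => (hD l).trans (hc₁j l.1)) (fun l p => (hN l p).trans (hc₁j l.1))
      (fun l => (φ l.1).Tor (t l.1 g - G * g l.1 l.2)) hdens (fun l => (φ l.1).y (t l.1 g - G * g l.1 l.2))
      (fun l => (φ l.1).per (t l.1 g - G * g l.1 l.2)) hNy δ (fun P' hP' hP'0 y => by
        set eq : (Σ l : Fin s × Fin k, (φ l.1).σ) → (Σ j, Fin k × (φ j).σ) := fun x => ⟨x.1.1, (x.1.2, x.2)⟩ with heq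
        have h2 := hmain' (MvPolynomial.rename (Sum.map id eq) P')
          ((MvPolynomial.totalDegree_rename_le _ _).trans hP') (by
            rw [MvPolynomial.aeval_rename, ← hP'0]
            congr 2
            funext v
            rcases v with v | v <;> rfl)
        have h3 := of_gen h2 (fun x => y ⟨(x.1, x.2.1), x.2.2⟩)
        rw [MvPolynomial.aeval_rename] at h3
        rw [← h3]
        congr 2
        funext v
        rcases v with v | v <;> rfl) (MvPolynomial.rename (Sum.map ee id) P)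
      ((MvPolynomial.totalDegree_rename_le _ _).trans hP) (by
        rw [MvPolynomial.aeval_rename, hwe]
        exact hP0) Z hZ
    rw [MvPolynomial.aeval_rename, hwe] at h1
    exact h1

end Pool.Agent.Run7.h643.MX
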